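import Mathlib
import Pool.Agent.H772R2.NSG.Gal
import Pool.Agent.H772R2.NSR.Est

/-!
Uniform estimates for Galerkin trajectories.
-/

set_option linter.unusedSectionVars false

open MeasureTheory Set Filter Topology Metric
open scoped InnerProductSpace NNReal

namespace H772R2.NSG

open H772R2.NSR (Frame young4 int_le int_ge int_eq ii_of_cont ii_mono ii_nonneg gron ec ec_nonneg
  prim_continuousOn hasDerivAt_prim)

variable {H K : Type*} [NormedAddCommGroup H] [InnerProductSpace ℝ H] [CompleteSpace H]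
  [NormedAddCommGroup K] [InnerProductSpace ℝ K] [CompleteSpace K]

variable {W : Submodule ℝ (H × K)} {m : H → K} {C : ℝ} {E : Submodule ℝ H}
  {ν A M T B : ℝ} {μ n : ℝ → ℝ} {F : ℝ → K} {x x' : ℝ → H} {z : ℝ → K}

/-- The monotonicity of the stress. -/
theorem stress_mono (V : Visc ν μ A M) (z w : K) :
    (ν + μ ‖w‖ / 2) * ‖z - w‖ ^ 2
      ≤ ⟪(ν + μ ‖z‖) • z - (ν + μ ‖w‖) • w, z - w⟫_ℝ := by
  have h1 : 0 ≤ μ ‖z‖ := V.nonneg _ (norm_nonneg _)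
  have h2 : 0 ≤ (μ ‖z‖ - μ ‖w‖) * (‖z‖ ^ 2 - ‖w‖ ^ 2) := by
    rcases le_total ‖z‖ ‖w‖ with h | h
    · have := V.mono _ _ (norm_nonneg z) h
      have h3 : ‖z‖ ^ 2 ≤ ‖w‖ ^ 2 := by gcongr
      exact mul_nonneg_of_nonpos_of_nonpos (by linarith) (by linarith)
    · have := V.mono _ _ (norm_nonneg w) h
      have h3 : ‖w‖ ^ 2 ≤ ‖z‖ ^ 2 := by gcongr
      exact mul_nonneg (by linarith) (by linarith)
  have e1 : ‖z - w‖ ^ 2 = ‖z‖ ^ 2 - 2 * ⟪z, w⟫_ℝ + ‖w‖ ^ 2 := norm_sub_sq_real z w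
  have e2 : ⟪(ν + μ ‖z‖) • z - (ν + μ ‖w‖) • w, z - w⟫_ℝ
      = (ν + μ ‖z‖) * ‖z‖ ^ 2 - (ν + μ ‖z‖) * ⟪z, w⟫_ℝ - (ν + μ ‖w‖) * ⟪z, w⟫_ℝ
        + (ν + μ ‖w‖) * ‖w‖ ^ 2 := by
    simp only [inner_sub_left, inner_sub_right, real_inner_smul_left, real_inner_self_eq_norm_sq]
    rw [real_inner_comm z w]
    ring
  have h4 : 0 ≤ μ ‖z‖ / 2 * ‖z - w‖ ^ 2 := by positivity
  rw [e2]
  rw [e1] at h4 ⊢
  nlinarith

/-- the coefficient in the Gronwall inequality -/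
noncomputable def braw (C ν : ℝ) (μ : ℝ → ℝ) (s : ℝ) : ℝ := 8 * C ^ 2 * (s ^ 4 / (ν + μ s) ^ 3)

theorem braw_nonneg (V : Visc ν μ A M) (hν : 0 < ν) {s : ℝ} (hs : 0 ≤ s) :
    0 ≤ braw C ν μ s := by
  have := V.nonneg s hs
  unfold braw
  positivity

theorem braw_le (V : Visc ν μ A M) (hν : 0 < ν) {s : ℝ} (hs : 0 ≤ s) :
    braw C ν μ s ≤ 8 * C ^ 2 * A * (1 + μ s * s ^ 2) * lg s := by
  have h0 := V.nonneg s hs
  have hk := V.key s hs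
  have hpos : 0 < (ν + μ s) ^ 3 := by positivity
  have h7 : s ^ 4 / (ν + μ s) ^ 3 ≤ A * (1 + μ s * s ^ 2) * lg s := by
    rw [div_le_iff₀ hpos]
    calc s ^ 4 ≤ _ := hk
      _ = _ := by ring
  unfold braw
  calc 8 * C ^ 2 * (s ^ 4 / (ν + μ s) ^ 3) ≤ 8 * C ^ 2 * (A * (1 + μ s * s ^ 2) * lg s) := by
        gcongr
    _ = _ := by ring

/-- the force including the variation of the viscosity. -/
noncomputable def rr (n : ℝ → ℝ) (F z : ℝ → K) (a b : ℝ) : ℝ :=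
  ‖F a - F b‖ + |n a - n b| * ‖z b‖

/-- The difference of a Galerkin trajectory at two times. -/
theorem Traj.diff (Fr : Frame W m C) (V : Visc ν μ A M) (N : Base n ν T B) (hν : 0 < ν)
    (S : Traj W m μ n T F E x x' z) {a b : ℝ} (ha : a ∈ Icc 0 T) (hb : b ∈ Icc 0 T) :
    ⟪x' a - x' b, x a - x b⟫_ℝ + ν / 4 * ‖z a - z b‖ ^ 2
      ≤ rr n F z a b ^ 2 / ν + braw C ν μ ‖z b‖ * ‖x a - x b‖ ^ 2 := by
  have hC := Fr.C0
  set w := x a - x b with hw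
  set ζ := z a - z b with hζ
  have hwζ : (w, ζ) ∈ W := W.sub_mem (S.mem a ha) (S.mem b hb)
  have hwE : w ∈ E := E.sub_mem (S.memE a ha) (S.memE b hb)
  have e1 := S.eqn a ha w hwE ζ hwζ
  have e2 := S.eqn b hb w hwE ζ hwζ
  have e0 : (n a + μ ‖z a‖) • z a - (n b + μ ‖z b‖) • z b
      = ((ν + μ ‖z a‖) • z a - (ν + μ ‖z b‖) • z b) + (n a - ν) • ζ + (n a - n b) • z b := by
    rw [hζ]
    simp only [add_smul, sub_smul, smul_sub]; abel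
  have e3 : ⟪x' a - x' b, w⟫_ℝ = ⟪F a - F b, ζ⟫_ℝ
      - ⟪(n a + μ ‖z a‖) • z a - (n b + μ ‖z b‖) • z b, ζ⟫_ℝ + ⟪m (x a) - m (x b), ζ⟫_ℝ := by
    rw [inner_sub_left, e1, e2]
    simp only [inner_sub_left, inner_add_left]
    ring
  have e4 : ⟪m (x a) - m (x b), ζ⟫_ℝ = -⟪m w, z b⟫_ℝ := Fr.anti _ (S.mem a ha) _ (S.mem b hb)
  have h1 := stress_mono V (z a) (z b)
  rw [← hζ] at h1
  have hna : 0 ≤ (n a - ν) * ‖ζ‖ ^ 2 := by
    have := N.low a ha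
    have : 0 ≤ n a - ν := by linarith
    positivity
  have h2 : ⟪F a - F b, ζ⟫_ℝ ≤ ‖F a - F b‖ * ‖ζ‖ := real_inner_le_norm _ _
  have h2' : -((n a - n b) * ⟪z b, ζ⟫_ℝ) ≤ |n a - n b| * ‖z b‖ * ‖ζ‖ := by
    calc -((n a - n b) * ⟪z b, ζ⟫_ℝ) ≤ |(n a - n b) * ⟪z b, ζ⟫_ℝ| := neg_le_abs _
      _ = |n a - n b| * |⟪z b, ζ⟫_ℝ| := abs_mul _ _
      _ ≤ |n a - n b| * (‖z b‖ * ‖ζ‖) := by gcongr; exact abs_real_inner_le_norm _ _
      _ = _ := by ring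
  have h3 : rr n F z a b * ‖ζ‖ ≤ ν / 4 * ‖ζ‖ ^ 2 + rr n F z a b ^ 2 / ν := by
    have h : 0 ≤ (ν * ‖ζ‖ / 2 - rr n F z a b) ^ 2 / ν := by positivity
    have e : (ν * ‖ζ‖ / 2 - rr n F z a b) ^ 2 / ν
        = ν / 4 * ‖ζ‖ ^ 2 - rr n F z a b * ‖ζ‖ + rr n F z a b ^ 2 / ν := by
      field_simp; ring
    linarith
  have h3' : rr n F z a b * ‖ζ‖ = ‖F a - F b‖ * ‖ζ‖ + |n a - n b| * ‖z b‖ * ‖ζ‖ := by
    unfold rr; ring
  have h4 : -⟪m w, z b⟫_ℝ ≤ ‖m w‖ * ‖z b‖ := by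
    have := abs_real_inner_le_norm (m w) (z b)
    exact (neg_le_abs _).trans this
  have hμ : 0 ≤ μ ‖z b‖ := V.nonneg _ (norm_nonneg _)
  have h5 : ‖m w‖ * ‖z b‖ ≤ (ν + μ ‖z b‖) / 2 * ‖ζ‖ ^ 2
      + (C ^ 2 * ‖z b‖ ^ 4) * ‖w‖ ^ 2 / ((ν + μ ‖z b‖) / 2) ^ 3 := by
    refine young4 (by positivity) (by positivity) (by positivity) (by positivity)
      (by positivity) ?_
    have hq := Fr.quart _ hwζ
    simp only at hq
    calc (‖m w‖ * ‖z b‖) ^ 4 = (‖m w‖ ^ 2) ^ 2 * ‖z b‖ ^ 4 := by ring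
      _ ≤ (C * (‖w‖ * ‖ζ‖ ^ 3)) ^ 2 * ‖z b‖ ^ 4 := by gcongr
      _ = C ^ 2 * ‖z b‖ ^ 4 * (‖ζ‖ ^ 2) ^ 3 * ‖w‖ ^ 2 := by ring
  have h6 : (C ^ 2 * ‖z b‖ ^ 4) * ‖w‖ ^ 2 / ((ν + μ ‖z b‖) / 2) ^ 3
      = braw C ν μ ‖z b‖ * ‖w‖ ^ 2 := by
    unfold braw
    field_simp
    ring
  rw [h6] at h5
  rw [e3, e0, e4]
  simp only [inner_add_left, real_inner_smul_left, real_inner_self_eq_norm_sq]
  simp only [inner_sub_left] at h1 h2 ⊢
  linarith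

/-- the power balance. -/
theorem Traj.power (Fr : Frame W m C) (S : Traj W m μ n T F E x x' z) {t : ℝ}
    (ht : t ∈ Icc 0 T) :
    ⟪x' t, x t⟫_ℝ = ⟪F t, z t⟫_ℝ - (n t + μ ‖z t‖) * ‖z t‖ ^ 2 := by
  rw [S.eqn t ht _ (S.memE t ht) _ (S.mem t ht), inner_add_left, inner_sub_left,
    Fr.ortho _ (S.mem t ht), real_inner_smul_left, real_inner_self_eq_norm_sq]
  ring

theorem Traj.μcont (V : Visc ν μ A M) (S : Traj W m μ n T F E x x' z) :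
    ContinuousOn (fun t => μ ‖z t‖) (Icc 0 T) := by
  intro t ht
  rw [ContinuousWithinAt, tendsto_iff_norm_sub_tendsto_zero]
  have h1 : Tendsto (fun s => M * ‖z s - z t‖) (𝓝[Icc 0 T] t) (𝓝 (M * 0)) :=
    ((tendsto_iff_norm_sub_tendsto_zero.mp (S.contz t ht))).const_mul M
  rw [mul_zero] at h1
  refine squeeze_zero' (Eventually.of_forall fun s => norm_nonneg _) ?_ h1
  filter_upwards [self_mem_nhdsWithin] with s hs
  exact (V.lip _ _ (norm_nonneg _) (norm_nonneg _)).trans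
    (mul_le_mul_of_nonneg_left (abs_norm_sub_norm_le _ _) V.M0)

theorem Traj.bcont (V : Visc ν μ A M) (hν : 0 < ν) (S : Traj W m μ n T F E x x' z) :
    ContinuousOn (fun t => braw C ν μ ‖z t‖) (Icc 0 T) := by
  unfold braw
  refine continuousOn_const.mul ((S.contz.norm.pow 4).div
    ((continuousOn_const.add (S.μcont V)).pow 3) ?_)
  intro t _
  have := V.nonneg _ (norm_nonneg (z t))
  have : 0 < ν + μ ‖z t‖ := by linarith
  positivity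

theorem Traj.contx (S : Traj W m μ n T F E x x' z) : ContinuousOn x (Icc 0 T) :=
  fun t ht => (S.deriv t ht).continuousWithinAt

/-- the energy estimate. -/
theorem Traj.energy (Fr : Frame W m C) (V : Visc ν μ A M) (N : Base n ν T B) (hν : 0 < ν)
    (hF : ContinuousOn F (Icc 0 T)) (S : Traj W m μ n T F E x x' z) {t : ℝ} (ht : t ∈ Icc 0 T) :
    ‖x t‖ ^ 2 / 2 + ∫ s in (0 : ℝ)..t, (ν / 2 * ‖z s‖ ^ 2 + μ ‖z s‖ * ‖z s‖ ^ 2)
      ≤ ‖x 0‖ ^ 2 / 2 + (∫ s in (0 : ℝ)..T, ‖F s‖ ^ 2) / (2 * ν) := by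
  have hμc := S.μcont V
  have hg : ContinuousOn (fun s => ‖F s‖ ^ 2 / (2 * ν)
      - (ν / 2 * ‖z s‖ ^ 2 + μ ‖z s‖ * ‖z s‖ ^ 2)) (Icc 0 T) :=
    ((hF.norm.pow 2).div_const _).sub ((continuousOn_const.mul (S.contz.norm.pow 2)).add
      (hμc.mul (S.contz.norm.pow 2)))
  have hsub : Icc 0 t ⊆ Icc 0 T := Icc_subset_Icc_right ht.2
  have h1 := int_le ht.1 (q := fun s => ‖x s‖ ^ 2 / 2) (q' := fun s => ⟪x' s, x s⟫_ℝ)
    (fun s hs => by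
      have := ((S.deriv s (hsub hs)).mono hsub).norm_sq.div_const 2
      convert! this using 1
      rw [real_inner_comm]; ring)
    (hg.mono hsub) (fun s hs => by
      rw [S.power Fr (hsub hs)]
      have h2 : ⟪F s, z s⟫_ℝ ≤ ‖F s‖ * ‖z s‖ := real_inner_le_norm _ _
      have h3 : ‖F s‖ * ‖z s‖ ≤ ν / 2 * ‖z s‖ ^ 2 + ‖F s‖ ^ 2 / (2 * ν) := by
        have h : 0 ≤ (ν * ‖z s‖ - ‖F s‖) ^ 2 / (2 * ν) := by positivity
        have e : (ν * ‖z s‖ - ‖F s‖) ^ 2 / (2 * ν)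
            = ν / 2 * ‖z s‖ ^ 2 - ‖F s‖ * ‖z s‖ + ‖F s‖ ^ 2 / (2 * ν) := by
          field_simp; ring
        linarith
      have h4 : ν * ‖z s‖ ^ 2 ≤ n s * ‖z s‖ ^ 2 := by
        have := N.low s (hsub hs)
        gcongr
      linarith)
  have hF2 : ContinuousOn (fun s => ‖F s‖ ^ 2) (Icc 0 T) := hF.norm.pow 2
  have hdis : ContinuousOn (fun s => ν / 2 * ‖z s‖ ^ 2 + μ ‖z s‖ * ‖z s‖ ^ 2) (Icc 0 T) :=
    (continuousOn_const.mul (S.contz.norm.pow 2)).add (hμc.mul (S.contz.norm.pow 2))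
  rw [intervalIntegral.integral_sub ((ii_of_cont hF2 le_rfl ht.1 ht.2).div_const _)
    (ii_of_cont hdis le_rfl ht.1 ht.2), intervalIntegral.integral_div] at h1
  have h4 := ii_mono hF2 (fun s _ => by positivity) ht
  have h5 : (∫ s in (0 : ℝ)..t, ‖F s‖ ^ 2) / (2 * ν)
      ≤ (∫ s in (0 : ℝ)..T, ‖F s‖ ^ 2) / (2 * ν) := by gcongr
  linarith

theorem Traj.dissip (Fr : Frame W m C) (V : Visc ν μ A M) (N : Base n ν T B) (hν : 0 < ν)
    (hT : 0 ≤ T) (hF : ContinuousOn F (Icc 0 T)) (S : Traj W m μ n T F E x x' z) :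
    ∫ s in (0 : ℝ)..T, μ ‖z s‖ * ‖z s‖ ^ 2 ≤ ec ν T ‖x 0‖ F := by
  have hμc := S.μcont V
  have h1 := S.energy Fr V N hν hF (t := T) ⟨hT, le_rfl⟩
  have h2 : ∫ s in (0 : ℝ)..T, μ ‖z s‖ * ‖z s‖ ^ 2
      ≤ ∫ s in (0 : ℝ)..T, (ν / 2 * ‖z s‖ ^ 2 + μ ‖z s‖ * ‖z s‖ ^ 2) := by
    refine intervalIntegral.integral_mono_on hT
      (ii_of_cont (hμc.mul (S.contz.norm.pow 2)) le_rfl hT le_rfl)
      (ii_of_cont ((continuousOn_const.mul (S.contz.norm.pow 2)).add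
        (hμc.mul (S.contz.norm.pow 2))) le_rfl hT le_rfl) ?_
    intro s _
    have : 0 ≤ ν / 2 * ‖z s‖ ^ 2 := by positivity
    linarith
  unfold ec
  have : 0 ≤ ‖x T‖ ^ 2 / 2 := by positivity
  linarith

theorem Traj.z2int (Fr : Frame W m C) (V : Visc ν μ A M) (N : Base n ν T B) (hν : 0 < ν)
    (hT : 0 ≤ T) (hF : ContinuousOn F (Icc 0 T)) (S : Traj W m μ n T F E x x' z) :
    ∫ s in (0 : ℝ)..T, ‖z s‖ ^ 2 ≤ 2 * ec ν T ‖x 0‖ F / ν := by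
  have hμc := S.μcont V
  have h1 := S.energy Fr V N hν hF (t := T) ⟨hT, le_rfl⟩
  have h2 : ν / 2 * ∫ s in (0 : ℝ)..T, ‖z s‖ ^ 2
      ≤ ∫ s in (0 : ℝ)..T, (ν / 2 * ‖z s‖ ^ 2 + μ ‖z s‖ * ‖z s‖ ^ 2) := by
    rw [← intervalIntegral.integral_const_mul]
    refine intervalIntegral.integral_mono_on hT
      (ii_of_cont (continuousOn_const.mul (S.contz.norm.pow 2)) le_rfl hT le_rfl)
      (ii_of_cont ((continuousOn_const.mul (S.contz.norm.pow 2)).add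
        (hμc.mul (S.contz.norm.pow 2))) le_rfl hT le_rfl) ?_
    intro s _
    have := V.nonneg _ (norm_nonneg (z s))
    have : 0 ≤ μ ‖z s‖ * ‖z s‖ ^ 2 := by positivity
    linarith
  have h3 : 0 ≤ ‖x T‖ ^ 2 / 2 := by positivity
  rw [le_div_iff₀ hν]
  unfold ec
  linarith

theorem Traj.xbound (Fr : Frame W m C) (V : Visc ν μ A M) (N : Base n ν T B) (hν : 0 < ν)
    (hF : ContinuousOn F (Icc 0 T)) (S : Traj W m μ n T F E x x' z) {t : ℝ} (ht : t ∈ Icc 0 T) :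
    ‖x t‖ ^ 2 ≤ 2 * ec ν T ‖x 0‖ F := by
  have h1 := S.energy Fr V N hν hF ht
  have h2 : 0 ≤ ∫ s in (0 : ℝ)..t, (ν / 2 * ‖z s‖ ^ 2 + μ ‖z s‖ * ‖z s‖ ^ 2) := by
    refine intervalIntegral.integral_nonneg ht.1 (fun s _ => ?_)
    have := V.nonneg _ (norm_nonneg (z s))
    positivity
  unfold ec
  linarith

/-- the constant in the bound of the increments of the force. -/
noncomputable def phc (B ν Φ e : ℝ) : ℝ := 2 * Φ + 2 * B ^ 2 * (2 * e / ν)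

theorem phc_nonneg {B Φ e : ℝ} (hν : 0 < ν) (hΦ : 0 ≤ Φ) (he : 0 ≤ e) : 0 ≤ phc B ν Φ e := by
  unfold phc; positivity

theorem Traj.rrint (Fr : Frame W m C) (V : Visc ν μ A M) (N : Base n ν T B) (hν : 0 < ν)
    (hF : ContinuousOn F (Icc 0 T)) {Φ : ℝ}
    (hΦ : ∀ h, 0 < h → h < T → ∫ s in (0 : ℝ)..(T - h), ‖F (s + h) - F s‖ ^ 2 ≤ Φ * h ^ 2)
    (S : Traj W m μ n T F E x x' z) {h : ℝ} (hh : 0 < h) (hhT : h < T) :
    ContinuousOn (fun s => rr n F z (s + h) s) (Icc 0 (T - h)) ∧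
    ∫ s in (0 : ℝ)..(T - h), rr n F z (s + h) s ^ 2 ≤ phc B ν Φ (ec ν T ‖x 0‖ F) * h ^ 2 := by
  have hT : 0 < T := hh.trans hhT
  have hTh : 0 ≤ T - h := by linarith
  have hs0 : Icc 0 (T - h) ⊆ Icc 0 T := Icc_subset_Icc_right (by linarith)
  have hs1 : MapsTo (fun s => s + h) (Icc 0 (T - h)) (Icc 0 T) :=
    fun s hs => ⟨by linarith [hs.1], by linarith [hs.2]⟩
  have hFs : ContinuousOn (fun s => F (s + h)) (Icc 0 (T - h)) :=
    hF.comp (by fun_prop) hs1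
  have hns : ContinuousOn (fun s => n (s + h)) (Icc 0 (T - h)) :=
    N.cont.comp (by fun_prop) hs1
  have hc : ContinuousOn (fun s => rr n F z (s + h) s) (Icc 0 (T - h)) :=
    ((hFs.sub (hF.mono hs0)).norm).add ((hns.sub (N.cont.mono hs0)).abs.mul
      (S.contz.mono hs0).norm)
  refine ⟨hc, ?_⟩
  have ii : ∀ {f : ℝ → ℝ}, ContinuousOn f (Icc 0 (T - h)) → IntervalIntegrable f volume 0 (T - h) :=
    fun hf => ii_of_cont hf le_rfl hTh le_rfl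
  have hd : ContinuousOn (fun s => ‖F (s + h) - F s‖ ^ 2) (Icc 0 (T - h)) :=
    ((hFs.sub (hF.mono hs0)).norm).pow 2
  have hz2 : ContinuousOn (fun s => ‖z s‖ ^ 2) (Icc 0 T) := S.contz.norm.pow 2
  have h1 : ∫ s in (0 : ℝ)..(T - h), rr n F z (s + h) s ^ 2
      ≤ ∫ s in (0 : ℝ)..(T - h), (2 * ‖F (s + h) - F s‖ ^ 2 + 2 * (B * h) ^ 2 * ‖z s‖ ^ 2) := by
    refine intervalIntegral.integral_mono_on hTh (ii (hc.pow 2))
      ((ii hd).const_mul 2 |>.add ((ii (hz2.mono hs0)).const_mul _)) ?_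
    intro s hs
    have k1 := N.lip (s + h) (hs1 hs) s (hs0 hs)
    rw [show s + h - s = h by ring, abs_of_pos hh] at k1
    have k2 : (|n (s + h) - n s| * ‖z s‖) ^ 2 ≤ (B * h) ^ 2 * ‖z s‖ ^ 2 := by
      rw [← mul_pow]
      gcongr
    unfold rr
    nlinarith [sq_nonneg (‖F (s + h) - F s‖ - |n (s + h) - n s| * ‖z s‖)]
  have h2 := hΦ h hh hhT
  have h3 : ∫ s in (0 : ℝ)..(T - h), ‖z s‖ ^ 2 ≤ 2 * ec ν T ‖x 0‖ F / ν :=
    (ii_mono hz2 (fun s _ => by positivity) ⟨hTh, by linarith⟩).trans (S.z2int Fr V N hν hT.le hF)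
  rw [intervalIntegral.integral_add ((ii hd).const_mul 2) ((ii (hz2.mono hs0)).const_mul _),
    intervalIntegral.integral_const_mul, intervalIntegral.integral_const_mul] at h1
  calc ∫ s in (0 : ℝ)..(T - h), rr n F z (s + h) s ^ 2
      ≤ 2 * (∫ s in (0 : ℝ)..(T - h), ‖F (s + h) - F s‖ ^ 2)
        + 2 * (B * h) ^ 2 * ∫ s in (0 : ℝ)..(T - h), ‖z s‖ ^ 2 := h1
    _ ≤ 2 * (Φ * h ^ 2) + 2 * (B * h) ^ 2 * (2 * ec ν T ‖x 0‖ F / ν) := by gcongr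
    _ = phc B ν Φ (ec ν T ‖x 0‖ F) * h ^ 2 := by unfold phc; ring

/-- The shifted trajectory. -/
theorem Traj.shift (Fr : Frame W m C) (V : Visc ν μ A M) (N : Base n ν T B) (hν : 0 < ν)
    (hF : ContinuousOn F (Icc 0 T)) {Φ : ℝ}
    (hΦ : ∀ h, 0 < h → h < T → ∫ s in (0 : ℝ)..(T - h), ‖F (s + h) - F s‖ ^ 2 ≤ Φ * h ^ 2)
    (S : Traj W m μ n T F E x x' z) {h : ℝ} (hh : 0 < h) (hhT : h < T) {t r : ℝ}
    (ht : t ∈ Icc 0 r) (hr : r ∈ Icc 0 (T - h)) :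
    ‖x (t + h) - x t‖ ^ 2 + ∫ s in (0 : ℝ)..t, ν / 2 * ‖z (s + h) - z s‖ ^ 2
      ≤ Real.exp (∫ s in (0 : ℝ)..r, 2 * braw C ν μ ‖z s‖) * (‖x h - x 0‖ ^ 2
        + 2 / ν * (phc B ν Φ (ec ν T ‖x 0‖ F) * h ^ 2)) := by
  have hTh : 0 ≤ T - h := by linarith
  have hs0' : Icc 0 (T - h) ⊆ Icc 0 T := Icc_subset_Icc_right (by linarith)
  have hs1' : MapsTo (fun s => s + h) (Icc 0 (T - h)) (Icc 0 T) :=
    fun s hs => ⟨by linarith [hs.1], by linarith [hs.2]⟩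
  have hrT : Icc 0 r ⊆ Icc 0 (T - h) := Icc_subset_Icc_right hr.2
  have hs0 : Icc 0 r ⊆ Icc 0 T := hrT.trans hs0'
  have hs1 : MapsTo (fun s => s + h) (Icc 0 r) (Icc 0 T) := hs1'.mono_left hrT
  have hzs : ContinuousOn (fun s => z (s + h)) (Icc 0 r) :=
    S.contz.comp (by fun_prop) hs1
  have hbc : ContinuousOn (fun s => 2 * braw C ν μ ‖z s‖) (Icc 0 r) :=
    (continuousOn_const.mul (S.bcont V hν)).mono hs0
  have hbn : ∀ s, 0 ≤ braw C ν μ ‖z s‖ := fun s => braw_nonneg V hν (norm_nonneg _)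
  obtain ⟨hrc, hri⟩ := S.rrint Fr V N hν hF hΦ hh hhT
  have hg := gron hr.1 (q := fun s => ‖x (s + h) - x s‖ ^ 2)
    (q' := fun s => 2 * ⟪x (s + h) - x s, x' (s + h) - x' s⟫_ℝ)
    (β := fun s => 2 * braw C ν μ ‖z s‖) (p := fun s => 2 / ν * rr n F z (s + h) s ^ 2)
    (r := fun s => ν / 2 * ‖z (s + h) - z s‖ ^ 2)
    (fun s hs => by
      have d1 : HasDerivWithinAt (fun s => x (s + h)) (x' (s + h)) (Icc 0 r) s := by
        have := (S.deriv (s + h) (hs1 hs)).scomp s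
          ((hasDerivWithinAt_id s (Icc 0 r)).add_const h) hs1
        rw [one_smul] at this
        exact this
      exact (d1.sub ((S.deriv s (hs0 hs)).mono hs0)).norm_sq)
    (fun s _ => by positivity) hbc (fun s _ => by have := hbn s; positivity)
    (continuousOn_const.mul ((hrc.mono hrT).pow 2))
    (fun s _ => by positivity)
    (continuousOn_const.mul (((hzs.sub (S.contz.mono hs0)).norm).pow 2))
    (fun s _ => by positivity)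
    (fun s hs => by
      have := S.diff Fr V N hν (hs1 hs) (hs0 hs)
      rw [real_inner_comm] at this
      have e1 : 2 / ν * rr n F z (s + h) s ^ 2 = 2 * (rr n F z (s + h) s ^ 2 / ν) := by ring
      rw [e1]
      linarith) t ht
  simp only [zero_add] at hg
  refine hg.trans ?_
  have h1 : ∫ s in (0 : ℝ)..r, 2 / ν * rr n F z (s + h) s ^ 2
      ≤ 2 / ν * (phc B ν Φ (ec ν T ‖x 0‖ F) * h ^ 2) := by
    rw [intervalIntegral.integral_const_mul]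
    have hrc2 : ContinuousOn (fun s => rr n F z (s + h) s ^ 2) (Icc 0 (T - h)) := hrc.pow 2
    have h2 := (ii_mono hrc2 (fun s _ => by positivity) hr).trans hri
    gcongr
  gcongr

end H772R2.NSG
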