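import Mathlib
import Pool.Agent.H772R2.NSG.Est

/-!
Uniform estimates for Galerkin trajectories: velocity, gradient, equicontinuity.
-/

set_option linter.unusedSectionVars false

open MeasureTheory Set Filter Topology Metric
open scoped InnerProductSpace NNReal

namespace H772R2.NSG

open H772R2.NSR (Frame young4 int_le int_ge int_eq ii_of_cont ii_mono ii_nonneg gron ec ec_nonneg
  prim_continuousOn hasDerivAt_prim)

variable {H K : Type*} [NormedAddCommGroup H] [InnerProductSpace ℝ H] [CompleteSpace H]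
  [NormedAddCommGroup K] [InnerProductSpace ℝ K] [CompleteSpace K]

variable {W : Submodule ℝ (H × K)} {m : H → K} {C : ℝ} {E : Submodule ℝ H}
  {ν A M T B : ℝ} {μ n : ℝ → ℝ} {F : ℝ → K} {x x' : ℝ → H} {z : ℝ → K}

theorem Traj.slope_tendsto (S : Traj W m μ n T F E x x' z) {t : ℝ} (ht : t ∈ Ico 0 T) :
    Tendsto (fun h : ℝ => ‖x (t + h) - x t‖ ^ 2 / h ^ 2) (𝓝[>] 0) (𝓝 (‖x' t‖ ^ 2)) := by
  have h1 : HasDerivWithinAt x (x' t) (Ioi t) t :=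
    (S.deriv t ⟨ht.1, ht.2.le⟩).mono_of_mem_nhdsWithin (Icc_mem_nhdsGT_of_mem ht)
  have h2 : Tendsto (slope x t) (𝓝[>] t) (𝓝 (x' t)) :=
    (hasDerivWithinAt_iff_tendsto_slope' (by simp)).mp h1
  have h3 : Tendsto (fun h : ℝ => t + h) (𝓝[>] 0) (𝓝[>] t) := by
    refine tendsto_nhdsWithin_of_tendsto_nhds_of_eventually_within _ ?_ ?_
    · have : Tendsto (fun h : ℝ => t + h) (𝓝 0) (𝓝 (t + 0)) := by
        exact (continuous_const.add continuous_id).tendsto 0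
      rw [add_zero] at this
      exact this.mono_left nhdsWithin_le_nhds
    · filter_upwards [self_mem_nhdsWithin] with h hh
      simp only [mem_Ioi] at hh ⊢
      linarith
  have h4 := ((h2.comp h3).norm.pow 2)
  refine h4.congr' ?_
  filter_upwards [self_mem_nhdsWithin] with h hh
  have hh' : (0 : ℝ) < h := hh
  simp only [Function.comp, _root_.slope, vsub_eq_sub, add_sub_cancel_left, norm_smul, norm_inv,
    Real.norm_eq_abs, abs_of_pos hh']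
  rw [mul_pow, inv_pow]
  ring

/-- The velocity bound. -/
theorem Traj.vel_raw (Fr : Frame W m C) (V : Visc ν μ A M) (N : Base n ν T B) (hν : 0 < ν)
    (hT : 0 < T) (hF : ContinuousOn F (Icc 0 T)) {Φ : ℝ}
    (hΦ : ∀ h, 0 < h → h < T → ∫ s in (0 : ℝ)..(T - h), ‖F (s + h) - F s‖ ^ 2 ≤ Φ * h ^ 2)
    (S : Traj W m μ n T F E x x' z) {t : ℝ} (ht : t ∈ Icc 0 T) :
    ‖x' t‖ ^ 2 ≤ Real.exp (∫ s in (0 : ℝ)..t, 2 * braw C ν μ ‖z s‖)
      * (‖x' 0‖ ^ 2 + 2 / ν * phc B ν Φ (ec ν T ‖x 0‖ F)) := by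
  set P := phc B ν Φ (ec ν T ‖x 0‖ F) with hP
  -- on the half-open interval
  have hIco : ∀ t ∈ Ico 0 T, ‖x' t‖ ^ 2
      ≤ Real.exp (∫ s in (0 : ℝ)..t, 2 * braw C ν μ ‖z s‖) * (‖x' 0‖ ^ 2 + 2 / ν * P) := by
    intro t ht
    have l1 := S.slope_tendsto ht
    have l2 : Tendsto (fun h : ℝ => Real.exp (∫ s in (0 : ℝ)..t, 2 * braw C ν μ ‖z s‖)
        * (‖x (0 + h) - x 0‖ ^ 2 / h ^ 2 + 2 / ν * P)) (𝓝[>] 0)
        (𝓝 (Real.exp (∫ s in (0 : ℝ)..t, 2 * braw C ν μ ‖z s‖)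
          * (‖x' 0‖ ^ 2 + 2 / ν * P))) :=
      ((S.slope_tendsto (t := 0) ⟨le_rfl, hT⟩).add_const _).const_mul _
    refine le_of_tendsto_of_tendsto l1 l2 ?_
    have hlt : ∀ᶠ h : ℝ in 𝓝[>] 0, h < T - t := by
      have : Iio (T - t) ∈ 𝓝 (0 : ℝ) := Iio_mem_nhds (by linarith [ht.2])
      exact mem_nhdsWithin_of_mem_nhds this
    filter_upwards [hlt, self_mem_nhdsWithin] with h hh1 hh2
    have hh : (0 : ℝ) < h := hh2
    have hhT : h < T := by linarith [ht.1]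
    have k1 := S.shift Fr V N hν hF hΦ hh hhT (t := t) (r := t) ⟨ht.1, le_rfl⟩
      ⟨ht.1, by linarith⟩
    rw [← hP] at k1
    have k2 : 0 ≤ ∫ s in (0 : ℝ)..t, ν / 2 * ‖z (s + h) - z s‖ ^ 2 :=
      intervalIntegral.integral_nonneg ht.1 (fun s _ => by positivity)
    rw [zero_add, div_le_iff₀ (by positivity)]
    calc ‖x (t + h) - x t‖ ^ 2
        ≤ Real.exp (∫ s in (0 : ℝ)..t, 2 * braw C ν μ ‖z s‖) * (‖x h - x 0‖ ^ 2
          + 2 / ν * (P * h ^ 2)) := by linarith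
      _ = Real.exp (∫ s in (0 : ℝ)..t, 2 * braw C ν μ ‖z s‖)
            * (‖x h - x 0‖ ^ 2 / h ^ 2 + 2 / ν * P) * h ^ 2 := by
          field_simp
  rcases eq_or_lt_of_le ht.2 with h | h
  · subst h
    have hc : Tendsto (fun s => ‖x' s‖ ^ 2) (𝓝[<] t) (𝓝 (‖x' t‖ ^ 2)) := by
      have := (S.contx' t ⟨hT.le, le_rfl⟩).norm.pow 2
      exact this.mono_left (nhdsWithin_le_of_mem (Icc_mem_nhdsLT hT))
    have hbc : ContinuousOn (fun s => 2 * braw C ν μ ‖z s‖) (Icc 0 t) :=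
      continuousOn_const.mul (S.bcont V hν)
    have hI : Tendsto (fun r => Real.exp (∫ s in (0 : ℝ)..r, 2 * braw C ν μ ‖z s‖)
        * (‖x' 0‖ ^ 2 + 2 / ν * P)) (𝓝[<] t)
        (𝓝 (Real.exp (∫ s in (0 : ℝ)..t, 2 * braw C ν μ ‖z s‖) * (‖x' 0‖ ^ 2 + 2 / ν * P))) := by
      have h1 := (Real.continuous_exp.comp_continuousOn (prim_continuousOn hT.le hbc)) t
        ⟨hT.le, le_rfl⟩
      exact (h1.mono_left (nhdsWithin_le_of_mem (Icc_mem_nhdsLT hT))).mul_const _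
    refine le_of_tendsto_of_tendsto hc hI ?_
    filter_upwards [Ioo_mem_nhdsLT hT] with s hs
    exact hIco s ⟨hs.1.le, hs.2⟩
  · exact hIco t ⟨ht.1, h⟩

theorem Traj.vel0 (hE : E ≤ W.map (LinearMap.fst ℝ H K)) (hT : 0 ≤ T)
    (S : Traj W m μ n T F E x x' z) {h0 : H}
    (hc : ∀ p ∈ W, ⟪F 0 - (n 0 + μ ‖z 0‖) • z 0 + m (x 0), p.2⟫_ℝ = ⟪h0, p.1⟫_ℝ) :
    ‖x' 0‖ ≤ ‖h0‖ := by
  have h0T : (0 : ℝ) ∈ Icc 0 T := ⟨le_rfl, hT⟩
  obtain ⟨p, hp, hp1⟩ := hE (S.memE' 0 h0T)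
  have hp1' : p.1 = x' 0 := hp1
  have h1 := S.eqn 0 h0T (x' 0) (S.memE' 0 h0T) p.2 (by rw [← hp1']; exact hp)
  rw [hc p hp, hp1', real_inner_self_eq_norm_sq] at h1
  have h2 : ⟪h0, x' 0⟫_ℝ ≤ ‖h0‖ * ‖x' 0‖ := real_inner_le_norm _ _
  rcases eq_or_lt_of_le (norm_nonneg (x' 0)) with h | h
  · rw [← h]; exact norm_nonneg _
  · have : ‖x' 0‖ * ‖x' 0‖ ≤ ‖h0‖ * ‖x' 0‖ := by nlinarith
    exact le_of_mul_le_mul_right this h

theorem Traj.zbound (Fr : Frame W m C) (V : Visc ν μ A M) (N : Base n ν T B) (hν : 0 < ν)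
    (S : Traj W m μ n T F E x x' z) {t CF c1 X0 : ℝ} (ht : t ∈ Icc 0 T) (hF : ‖F t‖ ≤ CF)
    (h1 : ‖x' t‖ ≤ c1) (h2 : ‖x t‖ ≤ X0) :
    ‖z t‖ ^ 2 ≤ CF ^ 2 / ν ^ 2 + 2 * (c1 * X0) / ν := by
  have hp := S.power Fr ht
  have k1 : ⟪F t, z t⟫_ℝ ≤ CF * ‖z t‖ :=
    (real_inner_le_norm _ _).trans (by gcongr)
  have k2 : -(c1 * X0) ≤ ⟪x' t, x t⟫_ℝ := by
    have := abs_real_inner_le_norm (x' t) (x t)
    have h3 : ‖x' t‖ * ‖x t‖ ≤ c1 * X0 := by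
      have : 0 ≤ c1 := (norm_nonneg _).trans h1
      gcongr
    have h4 := neg_abs_le ⟪x' t, x t⟫_ℝ
    linarith
  have k3 : 0 ≤ μ ‖z t‖ * ‖z t‖ ^ 2 := mul_nonneg (V.nonneg _ (norm_nonneg _)) (by positivity)
  have k3' : ν * ‖z t‖ ^ 2 ≤ n t * ‖z t‖ ^ 2 := by
    have := N.low t ht
    gcongr
  have k4 : ν * ‖z t‖ ^ 2 ≤ CF * ‖z t‖ + c1 * X0 := by linarith
  have k5 : CF * ‖z t‖ ≤ ν / 2 * ‖z t‖ ^ 2 + CF ^ 2 / (2 * ν) := by
    have h : 0 ≤ (ν * ‖z t‖ - CF) ^ 2 / (2 * ν) := by positivity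
    have e : (ν * ‖z t‖ - CF) ^ 2 / (2 * ν)
        = ν / 2 * ‖z t‖ ^ 2 - CF * ‖z t‖ + CF ^ 2 / (2 * ν) := by field_simp; ring
    linarith
  have e : CF ^ 2 / ν ^ 2 + 2 * (c1 * X0) / ν = (CF ^ 2 / (2 * ν) + c1 * X0) / (ν / 2) := by
    field_simp
  rw [e, le_div_iff₀ (by positivity)]
  linarith

/-- Linear Gronwall inequality in integral form. -/
theorem gron_int {T : ℝ} (hT : 0 ≤ T) {ℓ w : ℝ → ℝ} {a : ℝ}
    (hℓ : ContinuousOn ℓ (Icc 0 T)) (hℓ0 : ∀ t ∈ Icc 0 T, 0 ≤ ℓ t) (hw : ContinuousOn w (Icc 0 T))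
    (hw0 : ∀ t ∈ Icc 0 T, 0 ≤ w t)
    (h : ∀ t ∈ Icc 0 T, ℓ t ≤ a + ∫ s in (0 : ℝ)..t, w s * ℓ s) {t : ℝ} (ht : t ∈ Icc 0 T) :
    ℓ t ≤ Real.exp (∫ s in (0 : ℝ)..T, w s) * a := by
  have hwl : ContinuousOn (fun s => w s * ℓ s) (Icc 0 T) := hw.mul hℓ
  rcases eq_or_lt_of_le hT with rfl | hT'
  · have h1 := h t ht
    have h2 : t = 0 := le_antisymm ht.2 ht.1
    subst h2
    simp at h1 ⊢
    exact h1
  -- extend the integrand to the whole line to have a derivative everywhere on the interval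
  let g : ℝ → ℝ := IccExtend hT (domRestrict (Icc 0 T) fun s => w s * ℓ s)
  have hgc : Continuous g := (continuousOn_iff_continuous_domRestrict.mp hwl).Icc_extend'
  have hgeq : ∀ s ∈ Icc 0 T, g s = w s * ℓ s := fun s hs => IccExtend_of_mem hT _ hs
  let Q : ℝ → ℝ := fun t => a + ∫ s in (0 : ℝ)..t, g s
  have hint : ∀ t ∈ Icc 0 T, ∫ s in (0 : ℝ)..t, g s = ∫ s in (0 : ℝ)..t, w s * ℓ s := by
    intro t ht
    refine intervalIntegral.integral_congr fun s hs => ?_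
    rw [uIcc_of_le ht.1] at hs
    exact hgeq s ⟨hs.1, hs.2.trans ht.2⟩
  have hQd : ∀ t ∈ Icc 0 T, HasDerivWithinAt Q (g t) (Icc 0 T) t := fun t _ =>
    ((intervalIntegral.integral_hasDerivAt_right (hgc.intervalIntegrable _ _)
      (hgc.stronglyMeasurableAtFilter _ _) hgc.continuousAt).const_add a).hasDerivWithinAt
  have hQ0 : ∀ t ∈ Icc 0 T, ℓ t ≤ Q t := fun t ht => by
    show ℓ t ≤ a + ∫ s in (0 : ℝ)..t, g s
    rw [hint t ht]; exact h t ht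
  have h1 := gron hT (q := Q) (q' := g) (β := w) (p := fun _ => 0) (r := fun _ => 0) hQd
    (fun t ht => (hℓ0 t ht).trans (hQ0 t ht)) hw hw0 continuousOn_const (fun _ _ => le_rfl)
    continuousOn_const (fun _ _ => le_rfl) (fun t ht => by
      rw [hgeq t ht, add_zero, add_zero]
      exact mul_le_mul_of_nonneg_left (hQ0 t ht) (hw0 t ht)) t ht
  simp only [intervalIntegral.integral_zero, add_zero] at h1
  have h2 : Q 0 = a := by simp [Q]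
  rw [h2] at h1
  exact (hQ0 t ht).trans h1

theorem lg_sq_le {y : ℝ} (hy : 0 ≤ y) : lg y ≤ Real.log (Real.exp 1 + 1 + y ^ 2) := by
  unfold lg
  have := Real.exp_pos 1
  refine Real.log_le_log (by linarith) ?_
  nlinarith [sq_nonneg (y - 1)]

/-- the uniform bound of the velocity. -/
theorem Traj.vel (Fr : Frame W m C) (V : Visc ν μ A M) (N : Base n ν T B) (hν : 0 < ν)
    (hT : 0 < T) (hF : ContinuousOn F (Icc 0 T)) {Φ : ℝ} (hΦ0 : 0 ≤ Φ)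
    (hΦ : ∀ h, 0 < h → h < T → ∫ s in (0 : ℝ)..(T - h), ‖F (s + h) - F s‖ ^ 2 ≤ Φ * h ^ 2)
    (S : Traj W m μ n T F E x x' z) {CF X0 e y0 : ℝ} (hCF : ∀ t ∈ Icc 0 T, ‖F t‖ ≤ CF)
    (he : ec ν T ‖x 0‖ F = e) (hX : ∀ t ∈ Icc 0 T, ‖x t‖ ≤ X0) (hy0 : ‖x' 0‖ ≤ y0)
    {t : ℝ} (ht : t ∈ Icc 0 T) :
    ‖x' t‖ ^ 2 ≤ Real.exp (Real.exp (16 * C ^ 2 * A * (T + e))
      * (Real.log (Real.exp 1 + 1 + CF ^ 2 / ν ^ 2 + 2 * X0 / ν)
        + Real.log (Real.exp 1 + (y0 ^ 2 + 2 / ν * phc B ν Φ e)))) := by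
  have hC := Fr.C0
  have hA := V.A0
  have hexp := Real.exp_pos 1
  have h0T : (0 : ℝ) ∈ Icc 0 T := ⟨le_rfl, hT.le⟩
  have he0 : 0 ≤ e := by rw [← he]; exact ec_nonneg hν hT.le _
  have hX0 : 0 ≤ X0 := (norm_nonneg _).trans (hX 0 h0T)
  have hP := phc_nonneg (B := B) hν hΦ0 he0
  set Y := y0 ^ 2 + 2 / ν * phc B ν Φ e with hY
  have hY0 : 0 ≤ Y := by positivity
  set b := Real.log (Real.exp 1 + 1 + CF ^ 2 / ν ^ 2 + 2 * X0 / ν) with hb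
  have hb0 : 0 ≤ b := by
    rw [hb]
    refine Real.log_nonneg ?_
    have : 0 ≤ CF ^ 2 / ν ^ 2 := by positivity
    have : 0 ≤ 2 * X0 / ν := by positivity
    linarith
  set ℓ : ℝ → ℝ := fun t => b + Real.log (Real.exp 1 + ‖x' t‖ ^ 2) with hℓ
  have hlog : ∀ t, 0 ≤ Real.log (Real.exp 1 + ‖x' t‖ ^ 2) := fun t => by
    refine Real.log_nonneg ?_
    have : (1 : ℝ) ≤ Real.exp 1 := Real.one_le_exp (by norm_num)
    nlinarith [sq_nonneg ‖x' t‖]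
  have hℓc : ContinuousOn ℓ (Icc 0 T) := by
    refine continuousOn_const.add (ContinuousOn.log (continuousOn_const.add
      (S.contx'.norm.pow 2)) fun t _ => ?_)
    positivity
  -- the logarithm of the gradient
  have hlz : ∀ t ∈ Icc 0 T, lg ‖z t‖ ≤ ℓ t := by
    intro t ht
    have k1 := S.zbound Fr V N hν ht (hCF t ht) le_rfl (hX t ht)
    have k2 : ‖x' t‖ ≤ 1 + ‖x' t‖ ^ 2 := by nlinarith [sq_nonneg (‖x' t‖ - 1)]
    refine (lg_sq_le (norm_nonneg _)).trans ?_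
    show _ ≤ b + Real.log (Real.exp 1 + ‖x' t‖ ^ 2)
    rw [hb, ← Real.log_mul (by positivity) (by positivity)]
    refine Real.log_le_log (by positivity) ?_
    have k3 : 0 ≤ CF ^ 2 / ν ^ 2 := by positivity
    have k4 : 0 ≤ 2 * X0 / ν := by positivity
    have k5 : 2 * (‖x' t‖ * X0) / ν ≤ 2 * X0 / ν * (1 + ‖x' t‖ ^ 2) := by
      have : 2 * (‖x' t‖ * X0) / ν = 2 * X0 / ν * ‖x' t‖ := by ring
      rw [this]
      gcongr
    have h1e : (1 : ℝ) ≤ Real.exp 1 := Real.one_le_exp (by norm_num)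
    calc Real.exp 1 + 1 + ‖z t‖ ^ 2
        ≤ Real.exp 1 + 1 + (CF ^ 2 / ν ^ 2 + 2 * X0 / ν * (1 + ‖x' t‖ ^ 2)) := by linarith
      _ ≤ (Real.exp 1 + 1 + CF ^ 2 / ν ^ 2 + 2 * X0 / ν) * (1 + ‖x' t‖ ^ 2) := by
          nlinarith [sq_nonneg ‖x' t‖, mul_nonneg k3 (sq_nonneg ‖x' t‖)]
      _ ≤ (Real.exp 1 + 1 + CF ^ 2 / ν ^ 2 + 2 * X0 / ν) * (Real.exp 1 + ‖x' t‖ ^ 2) := by
          gcongr
  set w : ℝ → ℝ := fun s => 16 * C ^ 2 * A * (1 + μ ‖z s‖ * ‖z s‖ ^ 2) with hw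
  have hμc := S.μcont V
  have hD : ContinuousOn (fun s => μ ‖z s‖ * ‖z s‖ ^ 2) (Icc 0 T) :=
    hμc.mul (S.contz.norm.pow 2)
  have hD0 : ∀ s, 0 ≤ μ ‖z s‖ * ‖z s‖ ^ 2 := fun s =>
    mul_nonneg (V.nonneg _ (norm_nonneg _)) (by positivity)
  have hwc : ContinuousOn w (Icc 0 T) := continuousOn_const.mul (continuousOn_const.add hD)
  have hw0 : ∀ s ∈ Icc 0 T, 0 ≤ w s := fun s _ => by
    have := hD0 s
    show 0 ≤ 16 * C ^ 2 * A * (1 + μ ‖z s‖ * ‖z s‖ ^ 2)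
    positivity
  have hint : ∀ t ∈ Icc 0 T, ℓ t ≤ (b + Real.log (Real.exp 1 + Y))
      + ∫ s in (0 : ℝ)..t, w s * ℓ s := by
    intro t ht
    have k1 := S.vel_raw Fr V N hν hT hF hΦ ht
    rw [he] at k1
    have hbc : ContinuousOn (fun s => 2 * braw C ν μ ‖z s‖) (Icc 0 T) :=
      continuousOn_const.mul (S.bcont V hν)
    set I := ∫ s in (0 : ℝ)..t, 2 * braw C ν μ ‖z s‖ with hI
    have hI0 : 0 ≤ I := intervalIntegral.integral_nonneg ht.1 fun s _ => by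
      have := braw_nonneg (C := C) V hν (norm_nonneg (z s))
      positivity
    have k2 : I ≤ ∫ s in (0 : ℝ)..t, w s * ℓ s := by
      refine intervalIntegral.integral_mono_on ht.1 (ii_of_cont hbc le_rfl ht.1 ht.2)
        (ii_of_cont (hwc.mul hℓc) le_rfl ht.1 ht.2) ?_
      intro s hs
      have hs' : s ∈ Icc 0 T := ⟨hs.1, hs.2.trans ht.2⟩
      have k3 := braw_le (C := C) V hν (norm_nonneg (z s))
      have k4 := hlz s hs'
      have k5 := hw0 s hs'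
      calc 2 * braw C ν μ ‖z s‖ ≤ 2 * (8 * C ^ 2 * A * (1 + μ ‖z s‖ * ‖z s‖ ^ 2) * lg ‖z s‖) := by
            gcongr
        _ = w s * lg ‖z s‖ := by rw [hw]; ring
        _ ≤ w s * ℓ s := by gcongr
    have k6 : Real.exp 1 + ‖x' t‖ ^ 2 ≤ Real.exp I * (Real.exp 1 + Y) := by
      have h1 : 1 ≤ Real.exp I := Real.one_le_exp hI0
      have h2 : ‖x' t‖ ^ 2 ≤ Real.exp I * Y := by
        refine k1.trans ?_
        rw [hY]
        gcongr
      nlinarith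
    have k7 : Real.log (Real.exp 1 + ‖x' t‖ ^ 2) ≤ I + Real.log (Real.exp 1 + Y) := by
      refine (Real.log_le_log (by positivity) k6).trans (le_of_eq ?_)
      rw [Real.log_mul (by positivity) (by positivity), Real.log_exp]
    show b + Real.log (Real.exp 1 + ‖x' t‖ ^ 2) ≤ _
    linarith
  have hlY : 0 ≤ Real.log (Real.exp 1 + Y) := by
    refine Real.log_nonneg ?_
    have : (1 : ℝ) ≤ Real.exp 1 := Real.one_le_exp (by norm_num)
    linarith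
  have h1 := gron_int hT.le hℓc (fun t _ => by
    show 0 ≤ b + Real.log (Real.exp 1 + ‖x' t‖ ^ 2)
    have := hlog t
    positivity) hwc hw0 hint ht
  have h2 : ∫ s in (0 : ℝ)..T, w s ≤ 16 * C ^ 2 * A * (T + e) := by
    have h3 := S.dissip Fr V N hν hT.le hF
    rw [he] at h3
    have hii : IntervalIntegrable (fun s => μ ‖z s‖ * ‖z s‖ ^ 2) volume 0 T :=
      ii_of_cont hD le_rfl hT.le le_rfl
    rw [hw, intervalIntegral.integral_const_mul, intervalIntegral.integral_add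
      intervalIntegrable_const hii]
    simp only [intervalIntegral.integral_const, sub_zero, smul_eq_mul, mul_one]
    gcongr
  have h3 : ℓ t ≤ Real.exp (16 * C ^ 2 * A * (T + e)) * (b + Real.log (Real.exp 1 + Y)) := by
    refine h1.trans ?_
    gcongr
  have h4 : Real.log (Real.exp 1 + ‖x' t‖ ^ 2)
      ≤ Real.exp (16 * C ^ 2 * A * (T + e)) * (b + Real.log (Real.exp 1 + Y)) := by
    have : ℓ t = b + Real.log (Real.exp 1 + ‖x' t‖ ^ 2) := rfl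
    linarith
  rw [Real.log_le_iff_le_exp (by positivity)] at h4
  linarith

theorem Traj.lipx (S : Traj W m μ n T F E x x' z) {c1 : ℝ} (h1 : ∀ t ∈ Icc 0 T, ‖x' t‖ ≤ c1)
    {a b : ℝ} (ha : a ∈ Icc 0 T) (hb : b ∈ Icc 0 T) : ‖x a - x b‖ ≤ c1 * |a - b| := by
  wlog hab : b ≤ a generalizing a b
  · rw [norm_sub_rev, abs_sub_comm]
    exact this hb ha (le_of_not_ge hab)
  have hsub : Icc b a ⊆ Icc 0 T := Icc_subset_Icc hb.1 ha.2
  have := norm_image_sub_le_of_norm_deriv_le_segment' (f := x) (f' := x') (C := c1)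
    (fun s hs => (S.deriv s (hsub hs)).mono hsub) (fun s hs => h1 s (hsub (Ico_subset_Icc_self hs)))
    a ⟨hab, le_rfl⟩
  rwa [abs_of_nonneg (by linarith)]

/-- bound of the coefficient. -/
noncomputable def bs (C A : ℝ) (μ : ℝ → ℝ) (s : ℝ) : ℝ := 8 * C ^ 2 * A * (1 + μ s * s ^ 2) * lg s

theorem braw_le_bs (V : Visc ν μ A M) (hν : 0 < ν) {s t : ℝ} (hs : 0 ≤ s) (hst : s ≤ t) :
    braw C ν μ s ≤ bs C A μ t := by
  have hA := V.A0
  have h1 := V.mono s t hs hst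
  have h2 := V.nonneg s hs
  have h3 : 0 ≤ μ t := h2.trans h1
  have h4 := lg_mono hs hst
  have h5 : 0 ≤ lg s := by have := lg_one_le hs; linarith
  refine (braw_le V hν hs).trans ?_
  unfold bs
  gcongr

/-- Equicontinuity of the gradient. -/
theorem Traj.holder (Fr : Frame W m C) (V : Visc ν μ A M) (N : Base n ν T B) (hν : 0 < ν)
    (S : Traj W m μ n T F E x x' z) {c1 s1 : ℝ} (h1 : ∀ t ∈ Icc 0 T, ‖x' t‖ ≤ c1)
    (h2 : ∀ t ∈ Icc 0 T, ‖z t‖ ≤ s1) {a b : ℝ} (ha : a ∈ Icc 0 T) (hb : b ∈ Icc 0 T) :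
    ‖z a - z b‖ ^ 2 ≤ 4 / ν * ((‖F a - F b‖ + B * |a - b| * s1) ^ 2 / ν
      + bs C A μ s1 * (c1 * |a - b|) ^ 2 + 2 * c1 * (c1 * |a - b|)) := by
  have hd := S.diff Fr V N hν ha hb
  have hl := S.lipx h1 ha hb
  have hs1 : 0 ≤ s1 := (norm_nonneg _).trans (h2 b hb)
  have k1 : braw C ν μ ‖z b‖ * ‖x a - x b‖ ^ 2 ≤ bs C A μ s1 * (c1 * |a - b|) ^ 2 := by
    have hb1 := braw_le_bs (C := C) V hν (norm_nonneg _) (h2 b hb)
    have hb0 := braw_nonneg (C := C) V hν (norm_nonneg (z b))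
    have hb2 : 0 ≤ bs C A μ s1 := hb0.trans hb1
    gcongr
  have k0 : rr n F z a b ^ 2 / ν ≤ (‖F a - F b‖ + B * |a - b| * s1) ^ 2 / ν := by
    have h3 : rr n F z a b ≤ ‖F a - F b‖ + B * |a - b| * s1 := by
      unfold rr
      have := N.lip a ha b hb
      have := N.B0
      have := h2 b hb
      gcongr
    have h4 : 0 ≤ rr n F z a b := by unfold rr; positivity
    gcongr
  have hc1 : 0 ≤ c1 := (norm_nonneg _).trans (h1 a ha)
  have k2 : -(2 * c1 * (c1 * |a - b|)) ≤ ⟪x' a - x' b, x a - x b⟫_ℝ := by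
    have h3 := neg_abs_le ⟪x' a - x' b, x a - x b⟫_ℝ
    have h4 := abs_real_inner_le_norm (x' a - x' b) (x a - x b)
    have h5 : ‖x' a - x' b‖ ≤ 2 * c1 := by
      have := norm_sub_le (x' a) (x' b)
      linarith [h1 a ha, h1 b hb]
    have h6 : ‖x' a - x' b‖ * ‖x a - x b‖ ≤ 2 * c1 * (c1 * |a - b|) := by gcongr
    linarith
  have e : 4 / ν * ((‖F a - F b‖ + B * |a - b| * s1) ^ 2 / ν
      + bs C A μ s1 * (c1 * |a - b|) ^ 2 + 2 * c1 * (c1 * |a - b|))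
      = ((‖F a - F b‖ + B * |a - b| * s1) ^ 2 / ν
      + bs C A μ s1 * (c1 * |a - b|) ^ 2 + 2 * c1 * (c1 * |a - b|)) / (ν / 4) := by field_simp
  rw [e, le_div_iff₀ (by positivity)]
  linarith

/-- The constant in the time regularity of the gradient. -/
noncomputable def zc (C A T e s1 ν c1 P : ℝ) : ℝ :=
  2 / ν * (Real.exp (16 * C ^ 2 * A * lg s1 * (T + e)) * (c1 ^ 2 + 2 / ν * P))

/-- Time regularity of the gradient. -/
theorem Traj.zshift (Fr : Frame W m C) (V : Visc ν μ A M) (N : Base n ν T B) (hν : 0 < ν)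
    (hT : 0 < T) (hF : ContinuousOn F (Icc 0 T)) {Φ : ℝ} (hΦ0 : 0 ≤ Φ)
    (hΦ : ∀ h, 0 < h → h < T → ∫ s in (0 : ℝ)..(T - h), ‖F (s + h) - F s‖ ^ 2 ≤ Φ * h ^ 2)
    (S : Traj W m μ n T F E x x' z) {c1 s1 : ℝ} (h1 : ∀ t ∈ Icc 0 T, ‖x' t‖ ≤ c1)
    (h2 : ∀ t ∈ Icc 0 T, ‖z t‖ ≤ s1) {h : ℝ} (hh : 0 < h) (hhT : h < T) :
    ∫ s in (0 : ℝ)..(T - h), ‖z (s + h) - z s‖ ^ 2
      ≤ zc C A T (ec ν T ‖x 0‖ F) s1 ν c1 (phc B ν Φ (ec ν T ‖x 0‖ F)) * h ^ 2 := by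
  have hC := Fr.C0
  have hA := V.A0
  set e := ec ν T ‖x 0‖ F with he
  have he0 : 0 ≤ e := ec_nonneg hν hT.le _
  set P := phc B ν Φ e with hP
  have hP0 : 0 ≤ P := phc_nonneg hν hΦ0 he0
  have hTh : 0 ≤ T - h := by linarith
  have k1 := S.shift Fr V N hν hF hΦ hh hhT (t := T - h) (r := T - h) ⟨hTh, le_rfl⟩
    ⟨hTh, le_rfl⟩
  rw [← he, ← hP] at k1
  have k3 : ‖x h - x 0‖ ^ 2 ≤ (c1 * h) ^ 2 := by
    have := S.lipx h1 (a := h) (b := 0) ⟨hh.le, hhT.le⟩ ⟨le_rfl, hT.le⟩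
    rw [sub_zero, abs_of_pos hh] at this
    gcongr
  rw [intervalIntegral.integral_const_mul] at k1
  have hs1 : 0 ≤ s1 := (norm_nonneg _).trans (h2 0 ⟨le_rfl, hT.le⟩)
  have hlg : 0 ≤ lg s1 := by have := lg_one_le hs1; linarith
  have k5 : ∫ s in (0 : ℝ)..(T - h), 2 * braw C ν μ ‖z s‖ ≤ 16 * C ^ 2 * A * lg s1 * (T + e) := by
    have hbc : ContinuousOn (fun s => 2 * braw C ν μ ‖z s‖) (Icc 0 T) :=
      continuousOn_const.mul (S.bcont V hν)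
    have hbn : ∀ s, 0 ≤ braw C ν μ ‖z s‖ := fun s => braw_nonneg V hν (norm_nonneg _)
    have l1 := ii_mono hbc (fun s _ => by have := hbn s; positivity) (t := T - h)
      ⟨hTh, by linarith⟩
    have hD : ContinuousOn (fun s => μ ‖z s‖ * ‖z s‖ ^ 2) (Icc 0 T) :=
      (S.μcont V).mul (S.contz.norm.pow 2)
    have hii : IntervalIntegrable (fun s => μ ‖z s‖ * ‖z s‖ ^ 2) volume 0 T :=
      ii_of_cont hD le_rfl hT.le le_rfl
    have l2 : ∫ s in (0 : ℝ)..T, 2 * braw C ν μ ‖z s‖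
        ≤ ∫ s in (0 : ℝ)..T, 16 * C ^ 2 * A * lg s1 * (1 + μ ‖z s‖ * ‖z s‖ ^ 2) := by
      refine intervalIntegral.integral_mono_on hT.le (ii_of_cont hbc le_rfl hT.le le_rfl)
        ((intervalIntegrable_const.add hii).const_mul _) ?_
      intro s hs
      have k6 := braw_le (C := C) V hν (norm_nonneg (z s))
      have k7 := lg_mono (norm_nonneg (z s)) (h2 s hs)
      have k8 : 0 ≤ μ ‖z s‖ * ‖z s‖ ^ 2 := mul_nonneg (V.nonneg _ (norm_nonneg _)) (by positivity)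
      calc 2 * braw C ν μ ‖z s‖
          ≤ 2 * (8 * C ^ 2 * A * (1 + μ ‖z s‖ * ‖z s‖ ^ 2) * lg ‖z s‖) := by gcongr
        _ ≤ 2 * (8 * C ^ 2 * A * (1 + μ ‖z s‖ * ‖z s‖ ^ 2) * lg s1) := by gcongr
        _ = _ := by ring
    have l3 := S.dissip Fr V N hν hT.le hF
    rw [← he] at l3
    have l4 : ∫ s in (0 : ℝ)..T, 16 * C ^ 2 * A * lg s1 * (1 + μ ‖z s‖ * ‖z s‖ ^ 2)
        = 16 * C ^ 2 * A * lg s1 * (T + ∫ s in (0 : ℝ)..T, μ ‖z s‖ * ‖z s‖ ^ 2) := by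
      rw [intervalIntegral.integral_const_mul, intervalIntegral.integral_add
        intervalIntegrable_const hii]
      simp only [intervalIntegral.integral_const, sub_zero, smul_eq_mul, mul_one]
    rw [l4] at l2
    refine l1.trans (l2.trans ?_)
    gcongr
  have k4 : ν / 2 * ∫ s in (0 : ℝ)..(T - h), ‖z (s + h) - z s‖ ^ 2
      ≤ Real.exp (16 * C ^ 2 * A * lg s1 * (T + e)) * ((c1 * h) ^ 2 + 2 / ν * (P * h ^ 2)) := by
    have h2 : 0 ≤ ‖x (T - h + h) - x (T - h)‖ ^ 2 := by positivity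
    calc ν / 2 * ∫ s in (0 : ℝ)..(T - h), ‖z (s + h) - z s‖ ^ 2
        ≤ Real.exp (∫ s in (0 : ℝ)..(T - h), 2 * braw C ν μ ‖z s‖) * (‖x h - x 0‖ ^ 2
          + 2 / ν * (P * h ^ 2)) := by linarith
      _ ≤ _ := by gcongr
  have e' : zc C A T e s1 ν c1 P * h ^ 2
      = Real.exp (16 * C ^ 2 * A * lg s1 * (T + e)) * ((c1 * h) ^ 2 + 2 / ν * (P * h ^ 2))
        / (ν / 2) := by
    unfold zc
    field_simp
  rw [e', le_div_iff₀ (by positivity)]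
  linarith

end H772R2.NSG
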