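import Mathlib
import Pool.Agent.H772R2.NSG.Sln
import Pool.Agent.H772R2.NSR.Exist

/-!
Existence of strong solutions of the closed-loop equation with variable base viscosity.
-/

set_option linter.unusedSectionVars false

open MeasureTheory Set Filter Topology Metric
open scoped InnerProductSpace NNReal

namespace H772R2.NSG

open H772R2.NSR (Frame grad_unique GalSp mem_dom exists_galSp ec ec_nonneg)

variable {H K : Type*} [NormedAddCommGroup H] [InnerProductSpace ℝ H] [CompleteSpace H]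
  [NormedAddCommGroup K] [InnerProductSpace ℝ K] [CompleteSpace K]

variable {W : Submodule ℝ (H × K)} {m : H → K} {C : ℝ}
  {ν A M T B : ℝ} {μ n : ℝ → ℝ} {F : ℝ → K}

theorem exists_sln (Fr : Frame W m C) (V : Visc ν μ A M) (N : Base n ν T B) (hν : 0 < ν)
    (hT : 0 < T)
    (hF : ContinuousOn F (Icc 0 T)) {Φ : ℝ} (hΦ0 : 0 ≤ Φ)
    (hΦ : ∀ h, 0 < h → h < T → ∫ s in (0 : ℝ)..(T - h), ‖F (s + h) - F s‖ ^ 2 ≤ Φ * h ^ 2)
    (hcomp : ∀ R : ℝ, TotallyBounded {v : H | ∃ z, (v, z) ∈ W ∧ ‖z‖ ≤ R})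
    {x0 : H} {z0 : K} (h0 : (x0, z0) ∈ W) {g0 : H}
    (hc : ∀ p ∈ W, ⟪F 0 - (n 0 + μ ‖z0‖) • z0 + m x0, p.2⟫_ℝ = ⟪g0, p.1⟫_ℝ) :
    ∃ (u u' : ℝ → H) (z : ℝ → K) (c1 c2 : ℝ), u 0 = x0 ∧
      Sln W m μ n T F u u' z c1 c2 (ec ν T ‖x0‖ F) := by
  have h0T : (0 : ℝ) ∈ Icc 0 T := ⟨le_rfl, hT.le⟩
  have hdom : x0 ∈ W.map (LinearMap.fst ℝ H K) := mem_dom h0
  have hex : ∀ i : GalSp W x0, ∃ (x x' : ℝ → H) (z : ℝ → K), Traj W m μ n T F i.1 x x' z ∧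
      x 0 = x0 := by
    rintro ⟨E, h1, h2, h3⟩
    have := h1
    exact exists_traj Fr V N hν hT.le hF h2 h3
  choose X X' Z hS hX0 using hex
  have : Nonempty (GalSp W x0) := ⟨(exists_galSp hdom hdom).choose⟩
  set U : Ultrafilter (GalSp W x0) := Ultrafilter.of atTop with hU
  have hE : ∀ p ∈ W, ∀ᶠ i in U, p.1 ∈ (i : GalSp W x0).1 := by
    intro p hp
    obtain ⟨E0, hE0⟩ := exists_galSp (x0 := x0) hdom (mem_dom hp)
    have h1 : ∀ᶠ i in (atTop : Filter (GalSp W x0)), E0 ≤ i := eventually_ge_atTop E0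
    have h2 : ∀ᶠ i in U, E0 ≤ i := (Ultrafilter.of_le atTop) h1
    filter_upwards [h2] with i hi
    exact hi hE0
  -- bounds
  obtain ⟨CF, hCF⟩ : ∃ CF : ℝ, ∀ t ∈ Icc 0 T, ‖F t‖ ≤ CF := by
    obtain ⟨B0, h⟩ := (isCompact_Icc.image_of_continuousOn hF).isBounded.exists_norm_le
    exact ⟨B0, fun t ht => h _ ⟨t, ht, rfl⟩⟩
  set e := ec ν T ‖x0‖ F with he
  have he0 : 0 ≤ e := ec_nonneg hν hT.le _
  set X0 : ℝ := Real.sqrt (2 * e) with hX0def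
  have hX0sq : X0 ^ 2 = 2 * e := Real.sq_sqrt (by positivity)
  have hX00 : 0 ≤ X0 := Real.sqrt_nonneg _
  have hxb : ∀ i, ∀ t ∈ Icc 0 T, ‖X i t‖ ≤ X0 := by
    intro i t ht
    have k1 := (hS i).xbound Fr V N hν hF ht
    rw [hX0 i] at k1
    have k3 : ‖X i t‖ ^ 2 ≤ X0 ^ 2 := by rw [hX0sq]; exact k1
    exact (pow_le_pow_iff_left₀ (norm_nonneg _) (Real.sqrt_nonneg _) (by norm_num)).mp k3
  have hy0 : ∀ i, ‖X' i 0‖ ≤ ‖g0‖ := by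
    intro i
    have hz : Z i 0 = z0 := grad_unique Fr (by
      have := (hS i).mem 0 h0T
      rwa [hX0 i] at this) h0
    exact (hS i).vel0 i.2.2.1 hT.le (by rw [hz, hX0 i]; exact hc)
  obtain ⟨c1, hc10, hvel⟩ : ∃ c1 : ℝ, 0 ≤ c1 ∧ ∀ i, ∀ t ∈ Icc 0 T, ‖X' i t‖ ≤ c1 := by
    refine ⟨Real.sqrt (Real.exp (Real.exp (16 * C ^ 2 * A * (T + e))
      * (Real.log (Real.exp 1 + 1 + CF ^ 2 / ν ^ 2 + 2 * X0 / ν)
        + Real.log (Real.exp 1 + (‖g0‖ ^ 2 + 2 / ν * phc B ν Φ e))))), Real.sqrt_nonneg _, ?_⟩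
    intro i t ht
    refine Real.le_sqrt_of_sq_le ?_
    exact (hS i).vel Fr V N hν hT hF hΦ0 hΦ hCF (by rw [hX0 i]) (hxb i) (hy0 i) ht
  set s1 : ℝ := Real.sqrt (CF ^ 2 / ν ^ 2 + 2 * (c1 * X0) / ν) with hs1
  have hs1sq : s1 ^ 2 = CF ^ 2 / ν ^ 2 + 2 * (c1 * X0) / ν := Real.sq_sqrt (by positivity)
  have hzb : ∀ i, ∀ t ∈ Icc 0 T, ‖Z i t‖ ≤ s1 := by
    intro i t ht
    have k1 := (hS i).zbound Fr V N hν ht (hCF t ht) (hvel i t ht) (hxb i t ht)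
    rw [← hs1sq] at k1
    exact (pow_le_pow_iff_left₀ (norm_nonneg _) (Real.sqrt_nonneg _) (by norm_num)).mp k1
  have hfam : Fam W m μ n T F (fun i : GalSp W x0 => i.1) X X' Z c1 s1 :=
    ⟨hS, hvel, hzb⟩
  obtain ⟨u, u', z, hu0, hsln⟩ := hfam.limit Fr V N hν hT hF hΦ0 hΦ U hE hcomp hX0
  exact ⟨u, u', z, c1, _, hu0, hsln⟩

end H772R2.NSG
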