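import Mathlib
import Pool.Agent.H772R2.NSG.Gal
import Pool.Agent.H772R2.NSR.Mu

/-!
The viscosity `μ(s) = κ (φ(max s S) - φ(S))`, `φ(s) = s^{1/2} (log (e + s))^{-1/4}`.
-/

set_option linter.unusedSectionVars false

open MeasureTheory Set Filter Topology Metric
open scoped InnerProductSpace NNReal

namespace H772R2.NSG

theorem lg_ratio {s t : ℝ} (hs : 0 ≤ s) (hst : s ≤ t) : s * lg t ≤ t * lg s := by
  rcases eq_or_lt_of_le (hs.trans hst) with h | h
  · have : s = 0 := by linarith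
    rw [this, ← h]
  · have he := Real.exp_pos 1
    set θ := s / t with hθ
    have hθ0 : 0 ≤ θ := by positivity
    have hθ1 : θ ≤ 1 := by rw [hθ, div_le_one h]; exact hst
    have h1 := strictConcaveOn_log_Ioi.concaveOn.2
      (show Real.exp 1 ∈ Ioi (0 : ℝ) from he) (show Real.exp 1 + t ∈ Ioi (0 : ℝ) by
        simp only [mem_Ioi]; linarith) (by linarith : (0 : ℝ) ≤ 1 - θ) hθ0 (by ring)
    simp only [smul_eq_mul, Real.log_exp, mul_one] at h1
    have e1 : (1 - θ) * Real.exp 1 + θ * (Real.exp 1 + t) = Real.exp 1 + s := by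
      have : θ * t = s := by rw [hθ]; field_simp
      linarith
    rw [e1] at h1
    have h2 : θ * lg t ≤ lg s := by
      unfold lg
      linarith
    calc s * lg t = t * (θ * lg t) := by rw [hθ]; field_simp
      _ ≤ t * lg s := by gcongr

/-- the fourth root of the logarithm. -/
noncomputable def lr (s : ℝ) : ℝ := Real.sqrt (Real.sqrt (lg s))

theorem lr_pow {s : ℝ} (hs : 0 ≤ s) : lr s ^ 4 = lg s := by
  have h1 := lg_one_le hs
  have : lr s ^ 4 = (lr s ^ 2) ^ 2 := by ring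
  rw [this, lr, Real.sq_sqrt (Real.sqrt_nonneg _), Real.sq_sqrt (by linarith)]

theorem lr_one_le {s : ℝ} (hs : 0 ≤ s) : 1 ≤ lr s := by
  unfold lr
  rw [Real.one_le_sqrt, Real.one_le_sqrt]
  exact lg_one_le hs

theorem lr_mono {s t : ℝ} (hs : 0 ≤ s) (hst : s ≤ t) : lr s ≤ lr t :=
  Real.sqrt_le_sqrt (Real.sqrt_le_sqrt (lg_mono hs hst))

/-- the profile. -/
noncomputable def ph (s : ℝ) : ℝ := Real.sqrt s / lr s

theorem ph_nonneg (s : ℝ) : 0 ≤ ph s := by
  unfold ph lr; positivity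

theorem ph_pow {s : ℝ} (hs : 0 ≤ s) : ph s ^ 4 * lg s = s ^ 2 := by
  have h1 := lg_one_le hs
  have h2 : (Real.sqrt s) ^ 4 = s ^ 2 := by
    have : (Real.sqrt s) ^ 4 = ((Real.sqrt s) ^ 2) ^ 2 := by ring
    rw [this, Real.sq_sqrt hs]
  unfold ph
  rw [div_pow, h2, lr_pow hs]
  field_simp

theorem ph_le_sqrt {s : ℝ} (hs : 0 ≤ s) : ph s ≤ Real.sqrt s := by
  unfold ph
  exact div_le_self (Real.sqrt_nonneg _) (lr_one_le hs)

theorem ph_mono {s t : ℝ} (hs : 0 ≤ s) (hst : s ≤ t) : ph s ≤ ph t := by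
  have ht : 0 ≤ t := hs.trans hst
  have h1 := lg_one_le hs
  have h2 := lg_one_le ht
  have h3 := ph_pow hs
  have h4 := ph_pow ht
  have h5 := lg_ratio hs hst
  have h6 : ph s ^ 4 ≤ ph t ^ 4 := by
    have e1 : ph s ^ 4 = s ^ 2 / lg s := by rw [← h3]; field_simp
    have e2 : ph t ^ 4 = t ^ 2 / lg t := by rw [← h4]; field_simp
    rw [e1, e2, div_le_div_iff₀ (by linarith) (by linarith)]
    calc s ^ 2 * lg t = s * (s * lg t) := by ring
      _ ≤ s * (t * lg s) := by gcongr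
      _ ≤ t * (t * lg s) := by gcongr
      _ = t ^ 2 * lg s := by ring
  exact (pow_le_pow_iff_left₀ (ph_nonneg _) (ph_nonneg _) (by norm_num)).mp h6

theorem ph_sub {s t : ℝ} (hs : 0 ≤ s) (hst : s ≤ t) : ph t - ph s ≤ Real.sqrt t - Real.sqrt s := by
  have ht : 0 ≤ t := hs.trans hst
  have h1 := lr_one_le hs
  have h2 := lr_one_le ht
  have h3 := lr_mono hs hst
  have h4 : Real.sqrt s ≤ Real.sqrt t := Real.sqrt_le_sqrt hst
  have h0 := Real.sqrt_nonneg s
  unfold ph
  have h5 : Real.sqrt s / lr t ≤ Real.sqrt s / lr s := by gcongr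
  have h6 : Real.sqrt t / lr t - Real.sqrt s / lr t ≤ Real.sqrt t - Real.sqrt s := by
    rw [← sub_div]
    exact div_le_self (by linarith) h2
  linarith

/-- the additional viscosity. -/
noncomputable def mug (κ S s : ℝ) : ℝ := κ * (ph (max s S) - ph S)

theorem mug_nonneg {κ S : ℝ} (hκ : 0 ≤ κ) (hS : 0 ≤ S) (s : ℝ) : 0 ≤ mug κ S s :=
  mul_nonneg hκ (sub_nonneg.mpr (ph_mono hS (le_max_right _ _)))

theorem mug_zero {κ S s : ℝ} (h : s ≤ S) : mug κ S s = 0 := by
  unfold mug; rw [max_eq_right h]; simp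

theorem mug_of_gt {κ S s : ℝ} (h : S ≤ s) : mug κ S s = κ * (ph s - ph S) := by
  unfold mug; rw [max_eq_left h]

theorem mug_le {κ S s : ℝ} (hκ : 0 ≤ κ) : mug κ S s ≤ κ * ph s := by
  have h1 := ph_nonneg s
  rcases le_total s S with h | h
  · rw [mug_zero h]; positivity
  · rw [mug_of_gt h]
    have := ph_nonneg S
    gcongr
    linarith

theorem visc_mug {κ S ν : ℝ} (hκ : 0 < κ) (hS : 0 < S) (hν : 0 < ν) :
    Visc ν (mug κ S) (65536 * S ^ 4 / ν ^ 3 + 16 / κ ^ 4) (κ * (2 * Real.sqrt S)⁻¹) where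
  A0 := by positivity
  M0 := by positivity
  nonneg := fun s _ => mug_nonneg hκ.le hS.le s
  mono := fun s t _ hst => by
    unfold mug
    have h1 : ph (max s S) ≤ ph (max t S) :=
      ph_mono (hS.le.trans (le_max_right _ _)) (max_le_max_right S hst)
    gcongr
  lip := fun s t _ _ => by
    wlog hst : s ≤ t generalizing s t
    · rw [abs_sub_comm, abs_sub_comm s t]
      exact this t s ‹_› ‹_› (le_of_not_ge hst)
    unfold mug
    rw [← mul_sub, abs_mul, abs_of_pos hκ, mul_assoc]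
    refine mul_le_mul_of_nonneg_left ?_ hκ.le
    have e : ph (max s S) - ph S - (ph (max t S) - ph S) = ph (max s S) - ph (max t S) := by ring
    have h0 : 0 ≤ max s S := hS.le.trans (le_max_right _ _)
    have hm : max s S ≤ max t S := max_le_max_right S hst
    have h1 := ph_mono h0 hm
    have h2 := ph_sub h0 hm
    have h3 := H772R2.NSR.sqrt_lip hS (le_max_right t S) (le_max_right s S)
    have h4 : Real.sqrt (max s S) ≤ Real.sqrt (max t S) := Real.sqrt_le_sqrt hm
    rw [abs_of_nonneg (by linarith)] at h3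
    rw [e, abs_of_nonpos (by linarith)]
    have h5 : |max t S - max s S| ≤ |s - t| := by
      have := abs_max_sub_max_le_abs t s S
      rwa [abs_sub_comm t s] at this
    calc -(ph (max s S) - ph (max t S)) ≤ Real.sqrt (max t S) - Real.sqrt (max s S) := by linarith
      _ ≤ (2 * Real.sqrt S)⁻¹ * |max t S - max s S| := h3
      _ ≤ (2 * Real.sqrt S)⁻¹ * |s - t| := mul_le_mul_of_nonneg_left h5 (by positivity)
  key := fun s hs => by
    have h0 := mug_nonneg (S := S) hκ.le hS.le s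
    have hB : 0 ≤ mug κ S s * s ^ 2 := by positivity
    have hlg := lg_one_le hs
    rcases le_total s (16 * S) with h | h
    · have h1 : s ^ 4 ≤ 65536 * S ^ 4 := by
        calc s ^ 4 ≤ (16 * S) ^ 4 := by gcongr
          _ = 65536 * S ^ 4 := by ring
      calc s ^ 4 ≤ 65536 * S ^ 4 := h1
        _ = (65536 * S ^ 4 / ν ^ 3) * ν ^ 3 * 1 * 1 := by field_simp
        _ ≤ (65536 * S ^ 4 / ν ^ 3 + 16 / κ ^ 4) * (ν + mug κ S s) ^ 3 * (1 + mug κ S s * s ^ 2)
            * lg s := by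
          have h5 : 65536 * S ^ 4 / ν ^ 3 ≤ 65536 * S ^ 4 / ν ^ 3 + 16 / κ ^ 4 := by
            have : 0 ≤ 16 / κ ^ 4 := by positivity
            linarith
          have h6 : ν ^ 3 ≤ (ν + mug κ S s) ^ 3 := by gcongr; linarith
          have h7 : (1 : ℝ) ≤ 1 + mug κ S s * s ^ 2 := by linarith
          gcongr
    · have hsS : S ≤ s := by linarith
      have hpS := ph_nonneg S
      have hps := ph_nonneg s
      have h2 : 2 * ph S ≤ ph s := by
        have h3 := lg_ratio hS.le hsS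
        have hlS := lg_one_le hS.le
        have e1 : ph s ^ 4 = s ^ 2 / lg s := by rw [← ph_pow hs]; field_simp
        have e2 : ph S ^ 4 = S ^ 2 / lg S := by rw [← ph_pow hS.le]; field_simp
        have h4 : (2 * ph S) ^ 4 ≤ ph s ^ 4 := by
          rw [mul_pow, e1, e2]
          have : (2 : ℝ) ^ 4 * (S ^ 2 / lg S) = (16 * S ^ 2) / lg S := by ring
          rw [this, div_le_div_iff₀ (by linarith) (by linarith)]
          calc 16 * S ^ 2 * lg s = 16 * S * (S * lg s) := by ring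
            _ ≤ 16 * S * (s * lg S) := by gcongr
            _ ≤ s * (s * lg S) := by gcongr
            _ = s ^ 2 * lg S := by ring
        exact (pow_le_pow_iff_left₀ (by positivity) hps (by norm_num)).mp h4
      have h1 : κ * ph s / 2 ≤ mug κ S s := by
        rw [mug_of_gt hsS]
        nlinarith
      have hs4 : ph s ^ 4 * lg s = s ^ 2 := ph_pow hs
      have hpos : 0 ≤ κ * ph s / 2 := by positivity
      calc s ^ 4 = (16 / κ ^ 4) * ((κ * ph s / 2) ^ 3) * ((κ * ph s / 2) * s ^ 2) * lg s := by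
            have : (16 / κ ^ 4) * ((κ * ph s / 2) ^ 3) * ((κ * ph s / 2) * s ^ 2) * lg s
                = (ph s ^ 4 * lg s) * s ^ 2 := by
              field_simp; ring
            rw [this, hs4]; ring
        _ ≤ (65536 * S ^ 4 / ν ^ 3 + 16 / κ ^ 4) * (ν + mug κ S s) ^ 3 * (1 + mug κ S s * s ^ 2)
            * lg s := by
          have h3 : κ * ph s / 2 ≤ ν + mug κ S s := by linarith
          have h4 : κ * ph s / 2 * s ^ 2 ≤ 1 + mug κ S s * s ^ 2 := by
            have : κ * ph s / 2 * s ^ 2 ≤ mug κ S s * s ^ 2 := by gcongr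
            linarith
          have h5 : 16 / κ ^ 4 ≤ 65536 * S ^ 4 / ν ^ 3 + 16 / κ ^ 4 := by
            have : 0 ≤ 65536 * S ^ 4 / ν ^ 3 := by positivity
            linarith
          have h6 : 0 ≤ ν + mug κ S s := by linarith
          refine mul_le_mul_of_nonneg_right ?_ (by linarith)
          exact mul_le_mul (mul_le_mul h5 (pow_le_pow_left₀ hpos h3 3) (by positivity)
            (by positivity)) h4 (by positivity) (by positivity)

theorem mug_pow_le {κ S s : ℝ} (hκ : 0 ≤ κ) (hS : 0 ≤ S) (hs : 0 ≤ s) :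
    mug κ S s ^ 4 * lg s ≤ κ ^ 4 * s ^ 2 := by
  have h0 := mug_nonneg (S := S) hκ hS s
  have h1 := mug_le (S := S) (s := s) hκ
  have hlg := lg_one_le hs
  calc mug κ S s ^ 4 * lg s ≤ (κ * ph s) ^ 4 * lg s := by gcongr
    _ = κ ^ 4 * (ph s ^ 4 * lg s) := by ring
    _ = κ ^ 4 * s ^ 2 := by rw [ph_pow hs]

/-- the cost in the fifth power of the viscosity. -/
theorem cost5 {d S s : ℝ} (hd : 0 < d) (hd1 : d ≤ 1) (hS : 1 ≤ S) (hs : 0 ≤ s) :
    (mug (d ^ 2 / 2) S s) ^ 5 * lg (mug (d ^ 2 / 2) S s) ≤ d * (mug (d ^ 2 / 2) S s * s ^ 2) := by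
  have hκ0 : 0 ≤ d ^ 2 / 2 := by positivity
  have h0 := mug_nonneg (S := S) hκ0 (by linarith) s
  rcases le_total s S with h | h
  · rw [mug_zero h]
    simp
  · have h1 := mug_le (S := S) (s := s) hκ0
    have hs1 : 1 ≤ s := hS.trans h
    have h2 : mug (d ^ 2 / 2) S s ≤ s := by
      refine h1.trans ?_
      have h3 : ph s ≤ s := by
        refine (ph_le_sqrt hs).trans ?_
        rw [Real.sqrt_le_left hs]
        nlinarith
      have h4 : d ^ 2 / 2 ≤ 1 := by nlinarith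
      calc d ^ 2 / 2 * ph s ≤ 1 * s := by gcongr; exact ph_nonneg _
        _ = s := one_mul s
    have h3 := lg_mono h0 h2
    have h4 := mug_pow_le (S := S) hκ0 (by linarith) hs
    calc (mug (d ^ 2 / 2) S s) ^ 5 * lg (mug (d ^ 2 / 2) S s)
        ≤ (mug (d ^ 2 / 2) S s) ^ 5 * lg s := by gcongr
      _ = mug (d ^ 2 / 2) S s * ((mug (d ^ 2 / 2) S s) ^ 4 * lg s) := by ring
      _ ≤ mug (d ^ 2 / 2) S s * ((d ^ 2 / 2) ^ 4 * s ^ 2) := by gcongr
      _ = (d ^ 2 / 2) ^ 4 * (mug (d ^ 2 / 2) S s * s ^ 2) := by ring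
      _ ≤ d * (mug (d ^ 2 / 2) S s * s ^ 2) := by
          have h5 : (d ^ 2 / 2) ^ 4 ≤ d := by
            have h6 : d ^ 8 ≤ d := by
              calc d ^ 8 ≤ d ^ 1 := pow_le_pow_of_le_one hd.le hd1 (by norm_num)
                _ = d := pow_one d
            calc (d ^ 2 / 2) ^ 4 = d ^ 8 / 16 := by ring
              _ ≤ d := by
                have : 0 ≤ d ^ 8 := by positivity
                linarith
          gcongr

/-- the cost in the power `5/3`. -/
theorem cost53 {d S s : ℝ} (hd : 0 < d) (hd1 : d ≤ 1) (hS : 0 < S) (hs : 0 ≤ s) :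
    (mug (d ^ 2 / 2) S s * s) ^ (5 / 3 : ℝ) * lg (mug (d ^ 2 / 2) S s * s) ^ (1 / 6 : ℝ)
      ≤ d * (mug (d ^ 2 / 2) S s * s ^ 2) := by
  have hκ0 : 0 ≤ d ^ 2 / 2 := by positivity
  have h0 := mug_nonneg (S := S) hκ0 hS.le s
  set a := mug (d ^ 2 / 2) S s with ha
  have hx0 : 0 ≤ a * s := by positivity
  have hlx := lg_one_le hx0
  have hlg := lg_one_le hs
  have hA : 0 ≤ (a * s) ^ (5 / 3 : ℝ) * lg (a * s) ^ (1 / 6 : ℝ) := by positivity
  have hB : 0 ≤ d * (a * s ^ 2) := by positivity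
  refine (pow_le_pow_iff_left₀ hA hB (by norm_num : (6 : ℕ) ≠ 0)).mp ?_
  have e1 : ((a * s) ^ (5 / 3 : ℝ)) ^ 6 = (a * s) ^ 10 := by
    rw [← Real.rpow_natCast, ← Real.rpow_mul hx0, ← Real.rpow_natCast]
    norm_num
  have e2 : (lg (a * s) ^ (1 / 6 : ℝ)) ^ 6 = lg (a * s) := by
    rw [← Real.rpow_natCast, ← Real.rpow_mul (by linarith)]
    norm_num
  rw [mul_pow, e1, e2]
  have h2 : lg (a * s) ≤ 2 * lg s := by
    have he := Real.exp_pos 1
    have he1 : (1 : ℝ) ≤ Real.exp 1 := Real.one_le_exp (by norm_num)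
    have h3 : a * s ≤ s + s ^ 2 := by
      have h4 : a ≤ Real.sqrt s := by
        refine (mug_le (S := S) (s := s) hκ0).trans ?_
        have h5 : d ^ 2 / 2 ≤ 1 := by nlinarith
        calc d ^ 2 / 2 * ph s ≤ 1 * ph s := by gcongr; exact ph_nonneg _
          _ = ph s := one_mul _
          _ ≤ Real.sqrt s := ph_le_sqrt hs
      have h6 : Real.sqrt s ≤ 1 + s := by
        rw [Real.sqrt_le_left (by linarith)]
        nlinarith
      calc a * s ≤ (1 + s) * s := by gcongr; linarith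
        _ = s + s ^ 2 := by ring
    have h7 : Real.exp 1 + a * s ≤ (Real.exp 1 + s) ^ 2 := by nlinarith
    unfold lg
    calc Real.log (Real.exp 1 + a * s) ≤ Real.log ((Real.exp 1 + s) ^ 2) :=
          Real.log_le_log (by positivity) h7
      _ = 2 * Real.log (Real.exp 1 + s) := by rw [Real.log_pow]; norm_num
  have h4 := mug_pow_le (S := S) hκ0 hS.le hs
  rw [← ha] at h4
  calc (a * s) ^ 10 * lg (a * s) ≤ (a * s) ^ 10 * (2 * lg s) := by gcongr
    _ = 2 * a ^ 6 * s ^ 10 * (a ^ 4 * lg s) := by ring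
    _ ≤ 2 * a ^ 6 * s ^ 10 * ((d ^ 2 / 2) ^ 4 * s ^ 2) := by gcongr
    _ = (d ^ 8 / 8) * (a * s ^ 2) ^ 6 := by ring
    _ ≤ d ^ 6 * (a * s ^ 2) ^ 6 := by
        have h6 : d ^ 8 ≤ d ^ 6 := pow_le_pow_of_le_one hd.le hd1 (by norm_num)
        have h7 : 0 ≤ d ^ 8 := by positivity
        have h8 : d ^ 8 / 8 ≤ d ^ 6 := by linarith
        gcongr
    _ = (d * (a * s ^ 2)) ^ 6 := by ring

end H772R2.NSG
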