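import Mathlib
import Pool.Agent.H772R2.NSG.Abs

/-!
Leray-Hopf solutions and strong solutions in the abstract frame.
-/

set_option linter.unusedSectionVars false

open MeasureTheory Set Filter Topology Metric
open scoped InnerProductSpace NNReal ENNReal

namespace H772R2.NSG

open H772R2.NSR (Frame grad_unique prim_cont ii_of_cont ii_mono young4 ae_deriv_of_prim
  hasDerivAt_prim memLp_ii)

variable {H K : Type*} [NormedAddCommGroup H] [InnerProductSpace ℝ H] [CompleteSpace H]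
  [NormedAddCommGroup K] [InnerProductSpace ℝ K] [CompleteSpace K]
variable {Y : Type*} [NormedAddCommGroup Y] [InnerProductSpace ℝ Y] [CompleteSpace Y]

variable {W : Submodule ℝ (H × K)} {m : H → K} {C : ℝ}
  {ν T : ℝ}

instance fin_Ioc (T : ℝ) : IsFiniteMeasure (volume.restrict (Ioc 0 T) : Measure ℝ) := by
  rw [isFiniteMeasure_restrict]; simp

theorem ii_of_int {f : ℝ → Y} (hf : Integrable f (volume.restrict (Ioc 0 T))) {a b : ℝ}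
    (ha : 0 ≤ a) (hab : a ≤ b) (hb : b ≤ T) : IntervalIntegrable f volume a b := by
  rw [intervalIntegrable_iff_integrableOn_Ioc_of_le hab]
  exact hf.mono_measure (Measure.restrict_mono (Ioc_subset_Ioc ha hb) le_rfl)

theorem int_inner {μ : Measure ℝ} {f g : ℝ → Y} (hf : MemLp f 2 μ) (hg : MemLp g 2 μ) :
    Integrable (fun s => ⟪f s, g s⟫_ℝ) μ := by
  have hf2 := (memLp_two_iff_integrable_sq_norm hf.aestronglyMeasurable).mp hf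
  have hg2 := (memLp_two_iff_integrable_sq_norm hg.aestronglyMeasurable).mp hg
  refine (hf2.add hg2).mono' (hf.aestronglyMeasurable.inner hg.aestronglyMeasurable) ?_
  refine Eventually.of_forall fun s => ?_
  have h1 : ‖⟪f s, g s⟫_ℝ‖ ≤ ‖f s‖ * ‖g s‖ := norm_inner_le_norm _ _
  have h2 : 0 ≤ (‖f s‖ - ‖g s‖) ^ 2 := sq_nonneg _
  have h3 := norm_nonneg (f s)
  have h4 := norm_nonneg (g s)
  show ‖⟪f s, g s⟫_ℝ‖ ≤ ‖f s‖ ^ 2 + ‖g s‖ ^ 2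
  nlinarith

theorem int_smul {μ : Measure ℝ} {n : ℝ → ℝ} {g : ℝ → Y} (hf : MemLp n 2 μ) (hg : MemLp g 2 μ) :
    Integrable (fun s => n s • g s) μ := by
  have hf2 := (memLp_two_iff_integrable_sq_norm hf.aestronglyMeasurable).mp hf
  have hg2 := (memLp_two_iff_integrable_sq_norm hg.aestronglyMeasurable).mp hg
  refine (hf2.add hg2).mono' (hf.aestronglyMeasurable.smul hg.aestronglyMeasurable) ?_
  refine Eventually.of_forall fun s => ?_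
  have h2 : 0 ≤ (‖n s‖ - ‖g s‖) ^ 2 := sq_nonneg _
  have h3 := norm_nonneg (n s)
  have h4 := norm_nonneg (g s)
  show ‖n s • g s‖ ≤ ‖n s‖ ^ 2 + ‖g s‖ ^ 2
  rw [norm_smul]
  nlinarith

/-- Coefficients: viscosity and force. -/
structure Coef (ν T : ℝ) (n : ℝ → ℝ) (F : ℝ → K) : Prop where
  n2 : MemLp n 2 (volume.restrict (Ioc 0 T))
  low : ∀ᵐ s ∂(volume.restrict (Ioc 0 T)), ν ≤ n s
  F2 : MemLp F 2 (volume.restrict (Ioc 0 T))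

/-- Leray-Hopf solutions. -/
structure LH (W : Submodule ℝ (H × K)) (m : H → K) (T : ℝ) (n : ℝ → ℝ) (F : ℝ → K) (x0 : H)
    (u : ℝ → H) (z : ℝ → K) : Prop where
  init : u 0 = x0
  meas : AEStronglyMeasurable u (volume.restrict (Ioc 0 T))
  mmeas : AEStronglyMeasurable (fun s => m (u s)) (volume.restrict (Ioc 0 T))
  mem : ∀ᵐ s ∂(volume.restrict (Ioc 0 T)), (u s, z s) ∈ W
  z2 : MemLp z 2 (volume.restrict (Ioc 0 T))
  dis : Integrable (fun s => n s * ‖z s‖ ^ 2) (volume.restrict (Ioc 0 T))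
  weak : ∀ p ∈ W, ∀ t ∈ Icc 0 T, ⟪u t - x0, p.1⟫_ℝ
    = ∫ s in (0 : ℝ)..t, ⟪F s - n s • z s + m (u s), p.2⟫_ℝ
  energy : ∀ t ∈ Icc 0 T, ‖u t‖ ^ 2 / 2 + ∫ s in (0 : ℝ)..t, n s * ‖z s‖ ^ 2
    ≤ ‖x0‖ ^ 2 / 2 + ∫ s in (0 : ℝ)..t, ⟪F s, z s⟫_ℝ

/-- Strong solutions. -/
structure St (W : Submodule ℝ (H × K)) (m : H → K) (T : ℝ) (n : ℝ → ℝ) (F : ℝ → K) (x0 : H)
    (u : ℝ → H) (z : ℝ → K) (u1 : ℝ → H) (z1 : ℝ → K) (Z : ℝ) : Prop where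
  init : u 0 = x0
  mem : ∀ t ∈ Icc 0 T, (u t, z t) ∈ W
  u1i : MemLp u1 2 (volume.restrict (Ioc 0 T))
  z1i : MemLp z1 2 (volume.restrict (Ioc 0 T))
  pu : ∀ a b, 0 ≤ a → a ≤ b → b ≤ T → u b - u a = ∫ s in a..b, u1 s
  pz : ∀ a b, 0 ≤ a → a ≤ b → b ≤ T → z b - z a = ∫ s in a..b, z1 s
  mem1 : ∀ᵐ s ∂(volume.restrict (Ioc 0 T)), (u1 s, z1 s) ∈ W
  nc : ContinuousOn n (Icc 0 T)
  Fc : ContinuousOn F (Icc 0 T)
  weak : ∀ p ∈ W, ∀ t ∈ Icc 0 T, ⟪u t - x0, p.1⟫_ℝ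
    = ∫ s in (0 : ℝ)..t, ⟪F s - n s • z s + m (u s), p.2⟫_ℝ
  energy : ∀ t ∈ Icc 0 T, ‖u t‖ ^ 2 / 2 + ∫ s in (0 : ℝ)..t, n s * ‖z s‖ ^ 2
    = ‖x0‖ ^ 2 / 2 + ∫ s in (0 : ℝ)..t, ⟪F s, z s⟫_ℝ
  bz : ∀ t ∈ Icc 0 T, ‖z t‖ ≤ Z

/-- The energy defect. -/
noncomputable def dft (n : ℝ → ℝ) (F : ℝ → K) (x0 : H) (u : ℝ → H) (z : ℝ → K) (t : ℝ) : ℝ :=
  ‖x0‖ ^ 2 / 2 + (∫ s in (0 : ℝ)..t, ⟪F s, z s⟫_ℝ) - ‖u t‖ ^ 2 / 2
    - ∫ s in (0 : ℝ)..t, n s * ‖z s‖ ^ 2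

theorem norm_m_le (Fr : Frame W m C) {p : H × K} (hp : p ∈ W) : ‖m p.1‖ ≤ C * ‖p.2‖ ^ 2 := by
  have h1 := Fr.quart p hp
  have h2 := Fr.poinc p hp
  have hC := Fr.C0
  have h3 : ‖m p.1‖ ^ 2 ≤ (C * ‖p.2‖ ^ 2) ^ 2 := by
    calc ‖m p.1‖ ^ 2 ≤ C * (‖p.1‖ * ‖p.2‖ ^ 3) := h1
      _ ≤ C * ((C * ‖p.2‖) * ‖p.2‖ ^ 3) := by gcongr
      _ = (C * ‖p.2‖ ^ 2) ^ 2 := by ring
  exact (pow_le_pow_iff_left₀ (norm_nonneg _) (by positivity) (by norm_num)).mp h3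

section lh

variable {n : ℝ → ℝ} {F : ℝ → K} {x0 : H} {u : ℝ → H} {z : ℝ → K}

theorem LH.mi (Fr : Frame W m C) (L : LH W m T n F x0 u z) :
    Integrable (fun s => m (u s)) (volume.restrict (Ioc 0 T)) := by
  have hz2 := (memLp_two_iff_integrable_sq_norm L.z2.aestronglyMeasurable).mp L.z2
  refine (hz2.const_mul C).mono' L.mmeas ?_
  filter_upwards [L.mem] with s hs
  exact norm_m_le Fr hs

theorem LH.Gi (Fr : Frame W m C) (Co : Coef ν T n F) (L : LH W m T n F x0 u z) :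
    Integrable (fun s => F s - n s • z s + m (u s)) (volume.restrict (Ioc 0 T)) :=
  ((Co.F2.integrable (by norm_num)).sub (int_smul Co.n2 L.z2)).add (L.mi Fr)

theorem LH.Fzi (Co : Coef ν T n F) (L : LH W m T n F x0 u z) :
    Integrable (fun s => ⟪F s, z s⟫_ℝ) (volume.restrict (Ioc 0 T)) :=
  int_inner Co.F2 L.z2

theorem LH.bdd (hν : 0 ≤ ν) (Co : Coef ν T n F) (L : LH W m T n F x0 u z) :
    ∃ M, ∀ t ∈ Icc 0 T, ‖u t‖ ≤ M := by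
  have hi := L.Fzi Co
  set B := ‖x0‖ ^ 2 / 2 + ∫ s in Ioc 0 T, ‖⟪F s, z s⟫_ℝ‖ with hB
  refine ⟨Real.sqrt (2 * B), fun t ht => ?_⟩
  refine Real.le_sqrt_of_sq_le ?_
  have h1 := L.energy t ht
  have h2 : 0 ≤ ∫ s in (0 : ℝ)..t, n s * ‖z s‖ ^ 2 := by
    rw [intervalIntegral.integral_of_le ht.1]
    refine setIntegral_nonneg_of_ae_restrict ?_
    have := ae_mono (Measure.restrict_mono (Ioc_subset_Ioc_right ht.2) le_rfl) Co.low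
    filter_upwards [this] with s hs
    have : 0 ≤ n s := hν.trans hs
    positivity
  have h3 : ∫ s in (0 : ℝ)..t, ⟪F s, z s⟫_ℝ ≤ ∫ s in Ioc 0 T, ‖⟪F s, z s⟫_ℝ‖ := by
    rw [intervalIntegral.integral_of_le ht.1]
    calc ∫ s in Ioc 0 t, ⟪F s, z s⟫_ℝ ≤ ‖∫ s in Ioc 0 t, ⟪F s, z s⟫_ℝ‖ := Real.le_norm_self _
      _ ≤ ∫ s in Ioc 0 t, ‖⟪F s, z s⟫_ℝ‖ := norm_integral_le_integral_norm _
      _ ≤ _ := setIntegral_mono_set hi.norm (Eventually.of_forall fun s => norm_nonneg _)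
          (Ioc_subset_Ioc_right ht.2).eventuallyLE
  linarith

end lh

end H772R2.NSG
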