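import Mathlib
import Pool.Agent.H772R2.NSG.LH

/-!
The cross identity between a Leray-Hopf solution and a strong solution.
-/

set_option linter.unusedSectionVars false

open MeasureTheory Set Filter Topology Metric
open scoped InnerProductSpace NNReal ENNReal

namespace H772R2.NSG

open H772R2.NSR (Frame grad_unique prim_cont ii_of_cont ii_mono young4 ae_deriv_of_prim
  hasDerivAt_prim memLp_ii)

variable {H K : Type*} [NormedAddCommGroup H] [InnerProductSpace ℝ H] [CompleteSpace H]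
  [NormedAddCommGroup K] [InnerProductSpace ℝ K] [CompleteSpace K]
variable {Y : Type*} [NormedAddCommGroup Y] [InnerProductSpace ℝ Y] [CompleteSpace Y]

variable {W : Submodule ℝ (H × K)} {m : H → K} {C : ℝ}
  {ν T : ℝ}

/-- Integration by parts. -/
theorem by_parts {G z1 zb : ℝ → Y} (hG : Integrable G (volume.restrict (Ioc 0 T)))
    (h1 : Integrable z1 (volume.restrict (Ioc 0 T)))
    (hz : ∀ a b, 0 ≤ a → a ≤ b → b ≤ T → zb b - zb a = ∫ s in a..b, z1 s)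
    (hzc : ContinuousOn zb (Icc 0 T)) {t : ℝ} (ht : t ∈ Icc 0 T) :
    ∫ s in (0 : ℝ)..t, ⟪G s, zb t⟫_ℝ = (∫ s in (0 : ℝ)..t, ⟪G s, zb s⟫_ℝ)
      + ∫ r in (0 : ℝ)..t, ⟪∫ s in (0 : ℝ)..r, G s, z1 r⟫_ℝ := by
  have hG' : Integrable G (volume.restrict (Ioc 0 t)) :=
    hG.mono_measure (Measure.restrict_mono (Ioc_subset_Ioc_right ht.2) le_rfl)
  have h1' : Integrable z1 (volume.restrict (Ioc 0 t)) :=
    h1.mono_measure (Measure.restrict_mono (Ioc_subset_Ioc_right ht.2) le_rfl)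
  set μ : Measure ℝ := volume.restrict (Ioc 0 t) with hμ
  let f : ℝ → ℝ → ℝ := fun s r => {q : ℝ × ℝ | q.1 < q.2}.indicator
    (fun q => ⟪G q.1, z1 q.2⟫_ℝ) (s, r)
  have hms : MeasurableSet {q : ℝ × ℝ | q.1 < q.2} := measurableSet_lt measurable_fst measurable_snd
  have hfi : Integrable (Function.uncurry f) (μ.prod μ) := by
    have k1 : Integrable (fun q : ℝ × ℝ => ‖G q.1‖ * ‖z1 q.2‖) (μ.prod μ) :=
      hG'.norm.mul_prod h1'.norm
    have k2 : AEStronglyMeasurable (fun q : ℝ × ℝ => ⟪G q.1, z1 q.2⟫_ℝ) (μ.prod μ) :=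
      (hG'.aestronglyMeasurable.comp_fst).inner (h1'.aestronglyMeasurable.comp_snd)
    have k3 : Integrable (fun q : ℝ × ℝ => ⟪G q.1, z1 q.2⟫_ℝ) (μ.prod μ) :=
      k1.mono' k2 (Eventually.of_forall fun q => norm_inner_le_norm _ _)
    exact k3.indicator hms
  have hswap := integral_integral_swap hfi
  -- left side
  have eL : ∫ s, ∫ r, f s r ∂μ ∂μ = ∫ s in Ioc 0 t, ⟪G s, zb t - zb s⟫_ℝ := by
    refine setIntegral_congr_fun measurableSet_Ioc fun s hs => ?_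
    have e1 : ∫ r, f s r ∂μ = ∫ r in Ioc s t, ⟪G s, z1 r⟫_ℝ := by
      have : ∀ r, f s r = (Ioi s).indicator (fun r => ⟪G s, z1 r⟫_ℝ) r := fun r => by
        simp only [f, indicator, mem_ofPred_eq, mem_Ioi]
      simp_rw [this]
      rw [integral_indicator measurableSet_Ioi, hμ, Measure.restrict_restrict measurableSet_Ioi]
      congr 2
      ext r
      simp only [mem_inter_iff, mem_Ioi, mem_Ioc]
      exact ⟨fun h => ⟨h.1, h.2.2⟩, fun h => ⟨h.1, hs.1.trans h.1, h.2⟩⟩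
    show ∫ r, f s r ∂μ = _
    rw [e1, hz s t hs.1.le hs.2 ht.2, intervalIntegral.integral_of_le hs.2]
    exact (integral_inner (𝕜 := ℝ) (h1'.mono_measure (Measure.restrict_mono
      (Ioc_subset_Ioc_left hs.1.le) le_rfl)) (G s))
  have eR : ∫ r, ∫ s, f s r ∂μ ∂μ = ∫ r in Ioc 0 t, ⟪∫ s in (0 : ℝ)..r, G s, z1 r⟫_ℝ := by
    refine setIntegral_congr_fun measurableSet_Ioc fun r hr => ?_
    have e1 : ∫ s, f s r ∂μ = ∫ s in Ioo 0 r, ⟪G s, z1 r⟫_ℝ := by
      have : ∀ s, f s r = (Iio r).indicator (fun s => ⟪G s, z1 r⟫_ℝ) s := fun s => by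
        simp only [f, indicator, mem_ofPred_eq, mem_Iio]
      simp_rw [this]
      rw [integral_indicator measurableSet_Iio, hμ, Measure.restrict_restrict measurableSet_Iio]
      congr 2
      ext s
      simp only [mem_inter_iff, mem_Iio, mem_Ioc, mem_Ioo]
      exact ⟨fun h => ⟨h.2.1, h.1⟩, fun h => ⟨h.2, h.1, h.2.le.trans hr.2⟩⟩
    show ∫ s, f s r ∂μ = _
    rw [e1, intervalIntegral.integral_of_le hr.1.le, integral_Ioc_eq_integral_Ioo]
    have hG'' : IntegrableOn G (Ioo 0 r) volume := hG'.mono_measure (Measure.restrict_mono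
      ((Ioo_subset_Ioc_self).trans (Ioc_subset_Ioc_right hr.2)) le_rfl)
    have := integral_inner (𝕜 := ℝ) hG'' (z1 r)
    rw [real_inner_comm, ← this]
    exact integral_congr_ae (Eventually.of_forall fun s => real_inner_comm _ _)
  rw [eL, eR] at hswap
  have hzt : IntegrableOn (fun s => ⟪G s, zb t⟫_ℝ) (Ioc 0 t) volume := hG'.inner_const _
  have hzs : IntegrableOn (fun s => ⟪G s, zb s⟫_ℝ) (Ioc 0 t) volume := by
    obtain ⟨B, hB⟩ := (isCompact_Icc.image_of_continuousOn hzc).isBounded.exists_norm_le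
    have hzm : AEStronglyMeasurable zb μ :=
      (hzc.mono ((Ioc_subset_Ioc_right ht.2).trans Ioc_subset_Icc_self)).aestronglyMeasurable
        measurableSet_Ioc
    refine (hG'.norm.mul_const B).mono' (hG'.aestronglyMeasurable.inner hzm) ?_
    filter_upwards [ae_restrict_mem measurableSet_Ioc] with s hs
    refine (norm_inner_le_norm _ _).trans ?_
    gcongr
    exact hB _ ⟨s, ⟨hs.1.le, hs.2.trans ht.2⟩, rfl⟩
  rw [intervalIntegral.integral_of_le ht.1, intervalIntegral.integral_of_le ht.1,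
    intervalIntegral.integral_of_le ht.1, ← hswap, ← integral_add hzs]
  · refine setIntegral_congr_fun measurableSet_Ioc fun s _ => ?_
    show _ = ⟪G s, zb s⟫_ℝ + ⟪G s, zb t - zb s⟫_ℝ
    rw [inner_sub_right]; ring
  · refine (hzt.sub hzs).congr (Eventually.of_forall fun s => ?_)
    show ⟪G s, zb t⟫_ℝ - ⟪G s, zb s⟫_ℝ = ⟪G s, zb t - zb s⟫_ℝ
    rw [inner_sub_right]

section rel

variable {n nb : ℝ → ℝ} {F Fb : ℝ → K} {x0 xb0 : H} {u ub ub1 : ℝ → H} {z zb zb1 : ℝ → K} {Z : ℝ}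

theorem St.uc (S : St W m T nb Fb xb0 ub zb ub1 zb1 Z) : ContinuousOn ub (Icc 0 T) :=
  prim_cont S.u1i S.pu

theorem St.zc (S : St W m T nb Fb xb0 ub zb ub1 zb1 Z) : ContinuousOn zb (Icc 0 T) :=
  prim_cont S.z1i S.pz

theorem St.mc (Fr : Frame W m C) (S : St W m T nb Fb xb0 ub zb ub1 zb1 Z) :
    ContinuousOn (fun s => m (ub s)) (Icc 0 T) := by
  intro t ht
  rw [ContinuousWithinAt, tendsto_iff_norm_sub_tendsto_zero]
  have h1 : Tendsto (fun s => C * (‖ub s - ub t‖ * ‖zb s - zb t‖ ^ 3 * (Z + Z) ^ 4))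
      (𝓝[Icc 0 T] t) (𝓝 (C * (0 * 0 ^ 3 * (Z + Z) ^ 4))) :=
    (((tendsto_iff_norm_sub_tendsto_zero.mp (S.uc t ht)).mul
      ((tendsto_iff_norm_sub_tendsto_zero.mp (S.zc t ht)).pow 3)).mul_const _).const_mul _
  have e0 : C * (0 * 0 ^ 3 * (Z + Z) ^ 4) = 0 := by ring
  rw [e0] at h1
  rw [Metric.tendsto_nhds]
  intro ε hε
  filter_upwards [h1.eventually (gt_mem_nhds (pow_pos hε 4)), self_mem_nhdsWithin] with s hs hsI
  rw [dist_zero_right, norm_norm]
  have h2 := Fr.lips _ (S.mem s hsI) _ (S.mem t ht)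
  have h3 := S.bz s hsI
  have h4 := S.bz t ht
  have hC := Fr.C0
  refine lt_of_pow_lt_pow_left₀ 4 hε.le (lt_of_le_of_lt h2 (lt_of_le_of_lt ?_ hs))
  gcongr

theorem St.gc (Fr : Frame W m C) (S : St W m T nb Fb xb0 ub zb ub1 zb1 Z) :
    ContinuousOn (fun s => Fb s - nb s • zb s + m (ub s)) (Icc 0 T) :=
  (S.Fc.sub (S.nc.smul S.zc)).add (S.mc Fr)

theorem St.deriv_weak (Fr : Frame W m C) (hT : 0 < T)
    (S : St W m T nb Fb xb0 ub zb ub1 zb1 Z) :
    ∀ᵐ s ∂(volume.restrict (Ioc 0 T)), ∀ p ∈ W,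
      ⟪ub1 s, p.1⟫_ℝ = ⟪Fb s - nb s • zb s + m (ub s), p.2⟫_ℝ := by
  have hne : ∀ᵐ s ∂(volume.restrict (Ioc 0 T)), s ≠ T := by
    refine ae_restrict_of_ae ?_
    simp [ae_iff, measure_singleton]
  filter_upwards [ae_deriv_of_prim hT (memLp_ii hT.le S.u1i) S.pu,
    ae_restrict_mem measurableSet_Ioc, hne] with s hd hs hsT p hp
  have hs' : s ∈ Ioo 0 T := ⟨hs.1, lt_of_le_of_ne hs.2 hsT⟩
  have h1 : HasDerivAt (fun t => ⟪ub t, p.1⟫_ℝ) ⟪ub1 s, p.1⟫_ℝ s := by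
    have := hd.inner ℝ (hasDerivAt_const s p.1)
    simpa using this
  have h2 : HasDerivAt (fun t => ⟪xb0, p.1⟫_ℝ + ∫ r in (0 : ℝ)..t,
      ⟪Fb r - nb r • zb r + m (ub r), p.2⟫_ℝ) ⟪Fb s - nb s • zb s + m (ub s), p.2⟫_ℝ s :=
    (hasDerivAt_prim (β := fun r => ⟪Fb r - nb r • zb r + m (ub r), p.2⟫_ℝ)
      ((S.gc Fr).inner continuousOn_const) hs').const_add _
  refine h1.unique (h2.congr_of_eventuallyEq ?_)
  filter_upwards [Icc_mem_nhds hs'.1 hs'.2] with t ht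
  rw [← S.weak p hp t ht, inner_sub_left]
  ring

theorem cross (Fr : Frame W m C) (hT : 0 < T) (Co : Coef ν T n F)
    (L : LH W m T n F x0 u z) (S : St W m T nb Fb xb0 ub zb ub1 zb1 Z) {t : ℝ}
    (ht : t ∈ Icc 0 T) :
    ⟪u t, ub t⟫_ℝ = ⟪x0, xb0⟫_ℝ + (∫ s in (0 : ℝ)..t, ⟪Fb s - nb s • zb s + m (ub s), z s⟫_ℝ)
      + ∫ s in (0 : ℝ)..t, ⟪F s - n s • z s + m (u s), zb s⟫_ℝ := by
  have hGi := L.Gi Fr Co
  have hsub : (volume.restrict (Ioc 0 t) : Measure ℝ) ≤ volume.restrict (Ioc 0 T) :=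
    Measure.restrict_mono (Ioc_subset_Ioc_right ht.2) le_rfl
  have h1 := L.weak _ (S.mem t ht) t ht
  rw [by_parts hGi (S.z1i.integrable (by norm_num)) S.pz S.zc ht] at h1
  have h2 : ∫ r in (0 : ℝ)..t, ⟪∫ s in (0 : ℝ)..r, (F s - n s • z s + m (u s)), zb1 r⟫_ℝ
      = ∫ r in (0 : ℝ)..t, (⟪Fb r - nb r • zb r + m (ub r), z r⟫_ℝ - ⟪x0, ub1 r⟫_ℝ) := by
    rw [intervalIntegral.integral_of_le ht.1, intervalIntegral.integral_of_le ht.1]
    refine integral_congr_ae ?_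
    filter_upwards [ae_restrict_mem measurableSet_Ioc, ae_mono hsub S.mem1,
      ae_mono hsub (S.deriv_weak Fr hT), ae_mono hsub L.mem] with r hr k1 k2 k3
    have hrT : r ∈ Icc 0 T := ⟨hr.1.le, hr.2.trans ht.2⟩
    have e1 := L.weak _ k1 r hrT
    have e2 := k2 _ k3
    have hGr : IntegrableOn (fun s => F s - n s • z s + m (u s)) (Ioc 0 r) volume :=
      hGi.mono_measure (Measure.restrict_mono (Ioc_subset_Ioc_right hrT.2) le_rfl)
    have e3 : ∫ s in (0 : ℝ)..r, ⟪F s - n s • z s + m (u s), zb1 r⟫_ℝ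
        = ⟪∫ s in (0 : ℝ)..r, (F s - n s • z s + m (u s)), zb1 r⟫_ℝ := by
      rw [intervalIntegral.integral_of_le hr.1.le, intervalIntegral.integral_of_le hr.1.le]
      have := integral_inner (𝕜 := ℝ) hGr (zb1 r)
      rw [real_inner_comm, ← this]
      exact integral_congr_ae (Eventually.of_forall fun s => real_inner_comm _ _)
    simp only at e1 e2 ⊢
    rw [← e3, ← e1, ← e2, inner_sub_left, real_inner_comm (u r) (ub1 r)]
  have hGz : IntervalIntegrable (fun r => ⟪Fb r - nb r • zb r + m (ub r), z r⟫_ℝ) volume 0 t := by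
    refine ii_of_int (T := T) ?_ le_rfl ht.1 ht.2
    refine int_inner ?_ L.z2
    obtain ⟨B, hB⟩ := (isCompact_Icc.image_of_continuousOn (S.gc Fr)).isBounded.exists_norm_le
    refine MemLp.of_bound (((S.gc Fr).mono Ioc_subset_Icc_self).aestronglyMeasurable
      measurableSet_Ioc) B ?_
    filter_upwards [ae_restrict_mem measurableSet_Ioc] with s hs
    exact hB _ ⟨s, Ioc_subset_Icc_self hs, rfl⟩
  have hxi : IntervalIntegrable (fun r => ⟪x0, ub1 r⟫_ℝ) volume 0 t :=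
    ii_of_int (T := T) ((S.u1i.integrable (by norm_num)).const_inner _) le_rfl ht.1 ht.2
  have h3 : ∫ r in (0 : ℝ)..t, ⟪x0, ub1 r⟫_ℝ = ⟪x0, ub t - ub 0⟫_ℝ := by
    rw [S.pu 0 t le_rfl ht.1 ht.2, intervalIntegral.integral_of_le ht.1,
      intervalIntegral.integral_of_le ht.1]
    exact integral_inner (𝕜 := ℝ) ((S.u1i.integrable (by norm_num)).mono_measure hsub) x0
  rw [h2, intervalIntegral.integral_sub hGz hxi, h3, S.init] at h1
  simp only [inner_sub_left, inner_sub_right] at h1 ⊢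
  linarith

end rel

end H772R2.NSG
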