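import Mathlib
import Pool.Agent.H772R2.NSG.Cross

/-!
Relative energy inequality and stability near strong solutions.
-/

set_option linter.unusedSectionVars false

open MeasureTheory Set Filter Topology Metric
open scoped InnerProductSpace NNReal ENNReal

namespace H772R2.NSG

open H772R2.NSR (Frame grad_unique prim_cont ii_of_cont ii_mono young4 ae_deriv_of_prim
  hasDerivAt_prim memLp_ii)

variable {H K : Type*} [NormedAddCommGroup H] [InnerProductSpace ℝ H] [CompleteSpace H]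
  [NormedAddCommGroup K] [InnerProductSpace ℝ K] [CompleteSpace K]

variable {W : Submodule ℝ (H × K)} {m : H → K} {C : ℝ}
  {ν T : ℝ}

/-- the constant of the Gronwall inequality. -/
noncomputable def cc (C ν Z : ℝ) : ℝ := 64 * C ^ 2 * Z ^ 4 / ν ^ 3

theorem cc_nonneg (hν : 0 < ν) {Z : ℝ} : 0 ≤ cc C ν Z := by unfold cc; positivity

theorem pointwise (Fr : Frame W m C) (hν : 0 < ν) {v vb : H} {z zb f fb : K} {a ab Z : ℝ}
    (hp : (v, z) ∈ W) (hq : (vb, zb) ∈ W) (ha : ν ≤ a) (hZ : ‖zb‖ ≤ Z) :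
    ⟪f, z⟫_ℝ - a * ‖z‖ ^ 2 + ⟪fb, zb⟫_ℝ - ab * ‖zb‖ ^ 2 - ⟪fb - ab • zb + m vb, z⟫_ℝ
      - ⟪f - a • z + m v, zb⟫_ℝ
      ≤ -(ν / 2) * ‖z - zb‖ ^ 2 + (2 / ν * ‖f - fb‖ ^ 2 + 2 / ν * Z ^ 2 * (a - ab) ^ 2)
        + cc C ν Z * ‖v - vb‖ ^ 2 := by
  have hZ0 : 0 ≤ Z := (norm_nonneg _).trans hZ
  have hC := Fr.C0
  have o1 : ⟪m v, z⟫_ℝ = 0 := Fr.ortho _ hp
  have o2 : ⟪m vb, zb⟫_ℝ = 0 := Fr.ortho _ hq
  have an : ⟪m v - m vb, z - zb⟫_ℝ = -⟪m (v - vb), zb⟫_ℝ := Fr.anti _ hp _ hq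
  have e : ⟪f, z⟫_ℝ - a * ‖z‖ ^ 2 + ⟪fb, zb⟫_ℝ - ab * ‖zb‖ ^ 2 - ⟪fb - ab • zb + m vb, z⟫_ℝ
      - ⟪f - a • z + m v, zb⟫_ℝ
      = -a * ‖z - zb‖ ^ 2 + ⟪f - fb, z - zb⟫_ℝ - (a - ab) * ⟪zb, z - zb⟫_ℝ
        - ⟪m (v - vb), zb⟫_ℝ := by
    have e1 : ‖z - zb‖ ^ 2 = ‖z‖ ^ 2 - 2 * ⟪z, zb⟫_ℝ + ‖zb‖ ^ 2 := norm_sub_sq_real z zb
    rw [e1, ← sub_eq_zero]
    have an' : -⟪m (v - vb), zb⟫_ℝ = ⟪m v, z⟫_ℝ - ⟪m vb, z⟫_ℝ - ⟪m v, zb⟫_ℝ + ⟪m vb, zb⟫_ℝ := by
      rw [← an]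
      simp only [inner_sub_left, inner_sub_right]; ring
    have an'' : ⟪m (v - vb), zb⟫_ℝ = ⟪m vb, z⟫_ℝ + ⟪m v, zb⟫_ℝ := by
      rw [o1, o2] at an'; linarith
    rw [an'']
    simp only [inner_sub_left, inner_sub_right, inner_add_left, real_inner_smul_left,
      real_inner_self_eq_norm_sq]
    rw [real_inner_comm z zb]
    ring
  rw [e]
  set X := ‖z - zb‖ with hX
  have hX0 : 0 ≤ X := norm_nonneg _
  have b1 : ⟪f - fb, z - zb⟫_ℝ ≤ ν / 8 * X ^ 2 + 2 / ν * ‖f - fb‖ ^ 2 := by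
    have h1 : ⟪f - fb, z - zb⟫_ℝ ≤ ‖f - fb‖ * X := real_inner_le_norm _ _
    have h2 : 0 ≤ (ν * X - 4 * ‖f - fb‖) ^ 2 / (8 * ν) := by positivity
    have h3 : (ν * X - 4 * ‖f - fb‖) ^ 2 / (8 * ν)
        = ν / 8 * X ^ 2 - ‖f - fb‖ * X + 2 / ν * ‖f - fb‖ ^ 2 := by field_simp; ring
    linarith
  have b2 : -((a - ab) * ⟪zb, z - zb⟫_ℝ) ≤ ν / 8 * X ^ 2 + 2 / ν * Z ^ 2 * (a - ab) ^ 2 := by
    have h1 : |⟪zb, z - zb⟫_ℝ| ≤ Z * X :=
      (abs_real_inner_le_norm _ _).trans (by gcongr)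
    have h0 : -((a - ab) * ⟪zb, z - zb⟫_ℝ) ≤ |a - ab| * (Z * X) := by
      calc -((a - ab) * ⟪zb, z - zb⟫_ℝ) ≤ |(a - ab) * ⟪zb, z - zb⟫_ℝ| := neg_le_abs _
        _ = |a - ab| * |⟪zb, z - zb⟫_ℝ| := abs_mul _ _
        _ ≤ _ := by gcongr
    have h2 : 0 ≤ (ν * X - 4 * (|a - ab| * Z)) ^ 2 / (8 * ν) := by positivity
    have h3 : (ν * X - 4 * (|a - ab| * Z)) ^ 2 / (8 * ν)
        = ν / 8 * X ^ 2 - |a - ab| * (Z * X) + 2 / ν * Z ^ 2 * |a - ab| ^ 2 := by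
      field_simp; ring
    rw [sq_abs] at h3
    linarith
  have b3 : -⟪m (v - vb), zb⟫_ℝ ≤ ν / 4 * X ^ 2 + cc C ν Z * ‖v - vb‖ ^ 2 := by
    have h1 : -⟪m (v - vb), zb⟫_ℝ ≤ ‖m (v - vb)‖ * Z := by
      calc -⟪m (v - vb), zb⟫_ℝ ≤ |⟪m (v - vb), zb⟫_ℝ| := neg_le_abs _
        _ ≤ ‖m (v - vb)‖ * ‖zb‖ := abs_real_inner_le_norm _ _
        _ ≤ _ := by gcongr
    have hmem : (v - vb, z - zb) ∈ W := W.sub_mem hp hq
    have h2 := Fr.quart _ hmem
    simp only at h2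
    have h3 : (‖m (v - vb)‖ * Z) ^ 4 ≤ (C ^ 2 * Z ^ 4) * (X ^ 2) ^ 3 * ‖v - vb‖ ^ 2 := by
      calc (‖m (v - vb)‖ * Z) ^ 4 = (‖m (v - vb)‖ ^ 2) ^ 2 * Z ^ 4 := by ring
        _ ≤ (C * (‖v - vb‖ * X ^ 3)) ^ 2 * Z ^ 4 := by gcongr
        _ = _ := by ring
    have h4 := young4 (D := ‖m (v - vb)‖ * Z) (X := X ^ 2) (Y := ‖v - vb‖ ^ 2)
      (κ := C ^ 2 * Z ^ 4) (θ := ν / 4) (by positivity) (by positivity) (by positivity)
      (by positivity) (by positivity) h3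
    have e5 : C ^ 2 * Z ^ 4 * ‖v - vb‖ ^ 2 / (ν / 4) ^ 3 = cc C ν Z * ‖v - vb‖ ^ 2 := by
      unfold cc; field_simp; ring
    rw [e5] at h4
    linarith
  have b4 : -a * X ^ 2 ≤ -ν * X ^ 2 := by nlinarith [sq_nonneg X]
  linarith

theorem mem_cont {Y : Type*} [NormedAddCommGroup Y] {f : ℝ → Y} {p : ℝ≥0∞}
    (hf : ContinuousOn f (Icc 0 T)) : MemLp f p (volume.restrict (Ioc 0 T)) := by
  obtain ⟨B, hB⟩ := (isCompact_Icc.image_of_continuousOn hf).isBounded.exists_norm_le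
  refine MemLp.of_bound ((hf.mono Ioc_subset_Icc_self).aestronglyMeasurable
    measurableSet_Ioc) B ?_
  filter_upwards [ae_restrict_mem measurableSet_Ioc] with s hs
  exact hB _ ⟨s, Ioc_subset_Icc_self hs, rfl⟩

section rel

variable {n nb : ℝ → ℝ} {F Fb : ℝ → K} {x0 xb0 : H} {u ub ub1 : ℝ → H} {z zb zb1 : ℝ → K} {Z : ℝ}

theorem rel_energy (Fr : Frame W m C) (hν : 0 < ν) (hT : 0 < T) (Co : Coef ν T n F)
    (L : LH W m T n F x0 u z) (S : St W m T nb Fb xb0 ub zb ub1 zb1 Z) {t : ℝ}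
    (ht : t ∈ Icc 0 T) :
    ‖u t - ub t‖ ^ 2 / 2 + (ν / 2) * (∫ s in (0 : ℝ)..t, ‖z s - zb s‖ ^ 2) + dft n F x0 u z t
      ≤ ‖x0 - xb0‖ ^ 2 / 2
        + (∫ s in (0 : ℝ)..t, (2 / ν * ‖F s - Fb s‖ ^ 2 + 2 / ν * Z ^ 2 * (n s - nb s) ^ 2))
        + cc C ν Z * ∫ s in (0 : ℝ)..t, ‖u s - ub s‖ ^ 2 := by
  have hsub : (volume.restrict (Ioc 0 t) : Measure ℝ) ≤ volume.restrict (Ioc 0 T) :=
    Measure.restrict_mono (Ioc_subset_Ioc_right ht.2) le_rfl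
  have hcr := cross Fr hT Co L S ht
  have hen := S.energy t ht
  have hZ0 : 0 ≤ Z := (norm_nonneg _).trans (S.bz t ht)
  -- measurability and integrability of all terms
  have mzb := mem_cont (p := 2) S.zc
  have mub := mem_cont (p := 2) S.uc
  have mFb := mem_cont (p := 2) S.Fc
  have mnb := mem_cont (p := 2) S.nc
  have mGb := mem_cont (p := 2) (S.gc Fr)
  obtain ⟨M, hM⟩ := L.bdd hν.le Co
  have mu : MemLp u 2 (volume.restrict (Ioc 0 T)) := by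
    refine MemLp.of_bound L.meas M ?_
    filter_upwards [ae_restrict_mem measurableSet_Ioc] with s hs
    exact hM s (Ioc_subset_Icc_self hs)
  have j1 : Integrable (fun s => ⟪F s, z s⟫_ℝ) (volume.restrict (Ioc 0 T)) := L.Fzi Co
  have j2 := L.dis
  have j3 : Integrable (fun s => ⟪Fb s, zb s⟫_ℝ) (volume.restrict (Ioc 0 T)) := int_inner mFb mzb
  have j4 : Integrable (fun s => nb s * ‖zb s‖ ^ 2) (volume.restrict (Ioc 0 T)) := by
    have : ContinuousOn (fun s => nb s * ‖zb s‖ ^ 2) (Icc 0 T) := S.nc.mul (S.zc.norm.pow 2)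
    exact (mem_cont (p := 1) this).integrable le_rfl
  have j5 : Integrable (fun s => ⟪Fb s - nb s • zb s + m (ub s), z s⟫_ℝ)
      (volume.restrict (Ioc 0 T)) := int_inner mGb L.z2
  have j6 : Integrable (fun s => ⟪F s - n s • z s + m (u s), zb s⟫_ℝ)
      (volume.restrict (Ioc 0 T)) := by
    refine ((L.Gi Fr Co).norm.mul_const Z).mono'
      ((L.Gi Fr Co).aestronglyMeasurable.inner mzb.aestronglyMeasurable) ?_
    filter_upwards [ae_restrict_mem measurableSet_Ioc] with s hs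
    refine (norm_inner_le_norm _ _).trans ?_
    gcongr
    exact S.bz s (Ioc_subset_Icc_self hs)
  have j7 : Integrable (fun s => ‖z s - zb s‖ ^ 2) (volume.restrict (Ioc 0 T)) :=
    (memLp_two_iff_integrable_sq_norm (L.z2.sub mzb).aestronglyMeasurable).mp (L.z2.sub mzb)
  have j8 : Integrable (fun s => ‖F s - Fb s‖ ^ 2) (volume.restrict (Ioc 0 T)) :=
    (memLp_two_iff_integrable_sq_norm (Co.F2.sub mFb).aestronglyMeasurable).mp (Co.F2.sub mFb)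
  have j9 : Integrable (fun s => (n s - nb s) ^ 2) (volume.restrict (Ioc 0 T)) := by
    have := (memLp_two_iff_integrable_sq_norm (Co.n2.sub mnb).aestronglyMeasurable).mp
      (Co.n2.sub mnb)
    refine this.congr (Eventually.of_forall fun s => ?_)
    show ‖n s - nb s‖ ^ 2 = (n s - nb s) ^ 2
    rw [Real.norm_eq_abs, sq_abs]
  have j10 : Integrable (fun s => ‖u s - ub s‖ ^ 2) (volume.restrict (Ioc 0 T)) :=
    (memLp_two_iff_integrable_sq_norm (mu.sub mub).aestronglyMeasurable).mp (mu.sub mub)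
  have ii : ∀ {f : ℝ → ℝ}, Integrable f (volume.restrict (Ioc 0 T)) →
      IntervalIntegrable f volume 0 t := fun hf => ii_of_int hf le_rfl ht.1 ht.2
  have i1 := ii j1
  have i2 := ii j2
  have i3 := ii j3
  have i4 := ii j4
  have i5 := ii j5
  have i6 := ii j6
  have i7 := ii j7
  have i8 := ii j8
  have i9 := ii j9
  have i10 := ii j10
  -- the pointwise inequality integrated
  have key : ∫ s in (0 : ℝ)..t, (⟪F s, z s⟫_ℝ - n s * ‖z s‖ ^ 2 + ⟪Fb s, zb s⟫_ℝ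
        - nb s * ‖zb s‖ ^ 2 - ⟪Fb s - nb s • zb s + m (ub s), z s⟫_ℝ
        - ⟪F s - n s • z s + m (u s), zb s⟫_ℝ)
      ≤ ∫ s in (0 : ℝ)..t, (-(ν / 2) * ‖z s - zb s‖ ^ 2 + (2 / ν * ‖F s - Fb s‖ ^ 2
        + 2 / ν * Z ^ 2 * (n s - nb s) ^ 2) + cc C ν Z * ‖u s - ub s‖ ^ 2) := by
    refine intervalIntegral.integral_mono_ae_restrict ht.1
      (((((i1.sub i2).add i3).sub i4).sub i5).sub i6)
      (((i7.const_mul _).add ((i8.const_mul _).add (i9.const_mul _))).add (i10.const_mul _)) ?_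
    have hsub' : (volume.restrict (Icc 0 t) : Measure ℝ) ≤ volume.restrict (Ioc 0 T) := by
      rw [← restrict_Ioc_eq_restrict_Icc]; exact hsub
    filter_upwards [ae_mono hsub' L.mem, ae_mono hsub' Co.low,
      ae_restrict_mem measurableSet_Icc] with s k1 k2 k3
    have hs : s ∈ Icc 0 T := ⟨k3.1, k3.2.trans ht.2⟩
    exact pointwise Fr hν k1 (S.mem s hs) k2 (S.bz s hs)
  rw [intervalIntegral.integral_sub ((((i1.sub i2).add i3).sub i4).sub i5) i6,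
    intervalIntegral.integral_sub (((i1.sub i2).add i3).sub i4) i5,
    intervalIntegral.integral_sub ((i1.sub i2).add i3) i4,
    intervalIntegral.integral_add (i1.sub i2) i3,
    intervalIntegral.integral_sub i1 i2,
    intervalIntegral.integral_add ((i7.const_mul _).add ((i8.const_mul _).add (i9.const_mul _)))
      (i10.const_mul _),
    intervalIntegral.integral_add (i7.const_mul _) ((i8.const_mul _).add (i9.const_mul _)),
    intervalIntegral.integral_const_mul, intervalIntegral.integral_const_mul] at key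
  have e1 : ‖u t - ub t‖ ^ 2 = ‖u t‖ ^ 2 - 2 * ⟪u t, ub t⟫_ℝ + ‖ub t‖ ^ 2 := norm_sub_sq_real _ _
  have e2 : ‖x0 - xb0‖ ^ 2 = ‖x0‖ ^ 2 - 2 * ⟪x0, xb0⟫_ℝ + ‖xb0‖ ^ 2 := norm_sub_sq_real _ _
  rw [e1, e2, hcr]
  unfold dft
  linarith

/-- the distance of the data. -/
noncomputable def gap (ν T Z : ℝ) (n nb : ℝ → ℝ) (F Fb : ℝ → K) (x0 xb0 : H) : ℝ :=
  ‖x0 - xb0‖ ^ 2 / 2 + ∫ s in Ioc 0 T, (2 / ν * ‖F s - Fb s‖ ^ 2
    + 2 / ν * Z ^ 2 * (n s - nb s) ^ 2)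

/-- the constant of stability. -/
noncomputable def stc (C ν T Z : ℝ) : ℝ :=
  (2 + 2 / ν) * (1 + cc C ν Z * T * (2 * Real.exp (2 * cc C ν Z * T)))
    + 2 * Real.exp (2 * cc C ν Z * T)

theorem stc_nonneg (hν : 0 < ν) (hT : 0 < T) {Z : ℝ} : 0 ≤ stc C ν T Z := by
  have := cc_nonneg (C := C) hν (Z := Z)
  unfold stc
  positivity

theorem gap_nonneg (hν : 0 < ν) : 0 ≤ gap ν T Z n nb F Fb x0 xb0 := by
  unfold gap
  refine add_nonneg (by positivity) (integral_nonneg fun s => ?_)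
  show 0 ≤ 2 / ν * ‖F s - Fb s‖ ^ 2 + 2 / ν * Z ^ 2 * (n s - nb s) ^ 2
  positivity

theorem stab (Fr : Frame W m C) (hν : 0 < ν) (hT : 0 < T) (Co : Coef ν T n F)
    (L : LH W m T n F x0 u z) (S : St W m T nb Fb xb0 ub zb ub1 zb1 Z) :
    (∀ t ∈ Icc 0 T, ‖u t - ub t‖ ^ 2 ≤ stc C ν T Z * gap ν T Z n nb F Fb x0 xb0) ∧
    (∫ s in Ioc 0 T, ‖z s - zb s‖ ^ 2) ≤ stc C ν T Z * gap ν T Z n nb F Fb x0 xb0 ∧
    ∀ t ∈ Icc 0 T, dft n F x0 u z t ≤ stc C ν T Z * gap ν T Z n nb F Fb x0 xb0 := by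
  set c := cc C ν Z with hc
  set A := gap ν T Z n nb F Fb x0 xb0 with hA
  have hc0 : 0 ≤ c := cc_nonneg hν
  have hA0 : 0 ≤ A := gap_nonneg hν
  have mFb := mem_cont (p := 2) S.Fc
  have mnb := mem_cont (p := 2) S.nc
  have j8 : Integrable (fun s => ‖F s - Fb s‖ ^ 2) (volume.restrict (Ioc 0 T)) :=
    (memLp_two_iff_integrable_sq_norm (Co.F2.sub mFb).aestronglyMeasurable).mp (Co.F2.sub mFb)
  have j9 : Integrable (fun s => (n s - nb s) ^ 2) (volume.restrict (Ioc 0 T)) := by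
    have := (memLp_two_iff_integrable_sq_norm (Co.n2.sub mnb).aestronglyMeasurable).mp
      (Co.n2.sub mnb)
    refine this.congr (Eventually.of_forall fun s => ?_)
    show ‖n s - nb s‖ ^ 2 = (n s - nb s) ^ 2
    rw [Real.norm_eq_abs, sq_abs]
  have jA : Integrable (fun s => 2 / ν * ‖F s - Fb s‖ ^ 2 + 2 / ν * Z ^ 2 * (n s - nb s) ^ 2)
      (volume.restrict (Ioc 0 T)) := (j8.const_mul _).add (j9.const_mul _)
  have hA1 : ∀ t ∈ Icc 0 T, ‖x0 - xb0‖ ^ 2 / 2 + (∫ s in (0 : ℝ)..t,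
      (2 / ν * ‖F s - Fb s‖ ^ 2 + 2 / ν * Z ^ 2 * (n s - nb s) ^ 2)) ≤ A := by
    intro t ht
    rw [hA, intervalIntegral.integral_of_le ht.1]
    unfold gap
    refine add_le_add le_rfl ?_
    refine setIntegral_mono_set jA (Eventually.of_forall fun s => ?_)
      (Ioc_subset_Ioc_right ht.2).eventuallyLE
    show 0 ≤ 2 / ν * ‖F s - Fb s‖ ^ 2 + 2 / ν * Z ^ 2 * (n s - nb s) ^ 2
    positivity
  obtain ⟨M, hM⟩ := L.bdd hν.le Co
  have mu : MemLp u 2 (volume.restrict (Ioc 0 T)) := by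
    refine MemLp.of_bound L.meas M ?_
    filter_upwards [ae_restrict_mem measurableSet_Ioc] with s hs
    exact hM s (Ioc_subset_Icc_self hs)
  have mub := mem_cont (p := 2) S.uc
  have j10 : Integrable (fun s => ‖u s - ub s‖ ^ 2) (volume.restrict (Ioc 0 T)) :=
    (memLp_two_iff_integrable_sq_norm (mu.sub mub).aestronglyMeasurable).mp (mu.sub mub)
  have hd0 : ∀ t ∈ Icc 0 T, 0 ≤ dft n F x0 u z t := fun t ht => by
    unfold dft
    linarith [L.energy t ht]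
  have hI0 : ∀ t ∈ Icc 0 T, 0 ≤ ∫ s in (0 : ℝ)..t, ‖z s - zb s‖ ^ 2 := fun t ht =>
    intervalIntegral.integral_nonneg ht.1 fun s _ => by positivity
  -- Gronwall
  let Q : ℝ → ℝ := fun t => 2 * A + 2 * c * ∫ s in (0 : ℝ)..t, ‖u s - ub s‖ ^ 2
  have hQ1 : ∀ t ∈ Icc 0 T, ‖u t - ub t‖ ^ 2 ≤ Q t := fun t ht => by
    have h1 := rel_energy Fr hν hT Co L S ht
    have h2 := hA1 t ht
    have h3 := hd0 t ht
    have h4 : 0 ≤ (ν / 2) * ∫ s in (0 : ℝ)..t, ‖z s - zb s‖ ^ 2 :=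
      mul_nonneg (by positivity) (hI0 t ht)
    show _ ≤ 2 * A + 2 * c * _
    linarith
  have hQ0 : ∀ t ∈ Icc 0 T, 0 ≤ Q t := fun t ht => (sq_nonneg _).trans (hQ1 t ht)
  have hQc : ContinuousOn Q (Icc 0 T) := by
    have : ContinuousOn (fun t => ∫ s in (0 : ℝ)..t, ‖u s - ub s‖ ^ 2) (Icc 0 T) := by
      have hi : IntegrableOn (fun s => ‖u s - ub s‖ ^ 2) (uIcc 0 T) volume := by
        rw [uIcc_of_le hT.le, integrableOn_Icc_iff_integrableOn_Ioc]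
        exact j10
      have := intervalIntegral.continuousOn_primitive_interval hi
      rwa [uIcc_of_le hT.le] at this
    exact continuousOn_const.add (continuousOn_const.mul this)
  have hQle : ∀ t ∈ Icc 0 T, Q t ≤ Real.exp (2 * c * T) * (2 * A) := by
    intro t ht
    have := gron_int hT.le hQc hQ0 (w := fun _ => 2 * c) continuousOn_const
      (fun _ _ => by positivity) (a := 2 * A) (fun t ht => by
        show 2 * A + 2 * c * (∫ s in (0 : ℝ)..t, ‖u s - ub s‖ ^ 2) ≤ _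
        rw [intervalIntegral.integral_const_mul]
        gcongr
        refine intervalIntegral.integral_mono_on ht.1 (ii_of_int j10 le_rfl ht.1 ht.2)
          (ContinuousOn.intervalIntegrable (by
            rw [uIcc_of_le ht.1]; exact hQc.mono (Icc_subset_Icc_right ht.2))) ?_
        intro s hs
        exact hQ1 s ⟨hs.1, hs.2.trans ht.2⟩) ht
    rw [intervalIntegral.integral_const, smul_eq_mul, sub_zero] at this
    have e : T * (2 * c) = 2 * c * T := by ring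
    rwa [e] at this
  have hS : 2 * Real.exp (2 * c * T) ≤ stc C ν T Z := by
    unfold stc
    rw [← hc]
    have : 0 ≤ (2 + 2 / ν) * (1 + c * T * (2 * Real.exp (2 * c * T))) := by positivity
    linarith
  have hy : ∀ t ∈ Icc 0 T, ‖u t - ub t‖ ^ 2 ≤ 2 * Real.exp (2 * c * T) * A := fun t ht =>
    ((hQ1 t ht).trans (hQle t ht)).trans (le_of_eq (by ring))
  have hyI : ∀ t ∈ Icc 0 T, ∫ s in (0 : ℝ)..t, ‖u s - ub s‖ ^ 2
      ≤ T * (2 * Real.exp (2 * c * T) * A) := by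
    intro t ht
    calc ∫ s in (0 : ℝ)..t, ‖u s - ub s‖ ^ 2
        ≤ ∫ s in (0 : ℝ)..t, 2 * Real.exp (2 * c * T) * A :=
          intervalIntegral.integral_mono_on ht.1 (ii_of_int j10 le_rfl ht.1 ht.2)
            intervalIntegrable_const (fun s hs => hy s ⟨hs.1, hs.2.trans ht.2⟩)
      _ = t * (2 * Real.exp (2 * c * T) * A) := by
          rw [intervalIntegral.integral_const, smul_eq_mul, sub_zero]
      _ ≤ _ := by gcongr; exact ht.2
  have hall : ∀ t ∈ Icc 0 T, (ν / 2) * (∫ s in (0 : ℝ)..t, ‖z s - zb s‖ ^ 2)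
      + dft n F x0 u z t ≤ (1 + c * T * (2 * Real.exp (2 * c * T))) * A := by
    intro t ht
    have h1 := rel_energy Fr hν hT Co L S ht
    have h2 := hA1 t ht
    have h3 := hyI t ht
    have h4 : c * (∫ s in (0 : ℝ)..t, ‖u s - ub s‖ ^ 2)
        ≤ c * (T * (2 * Real.exp (2 * c * T) * A)) := by gcongr
    have h5 : 0 ≤ ‖u t - ub t‖ ^ 2 / 2 := by positivity
    nlinarith
  refine ⟨fun t ht => (hy t ht).trans (by gcongr), ?_, fun t ht => ?_⟩
  · have hTT : T ∈ Icc 0 T := ⟨hT.le, le_rfl⟩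
    have h1 := hall T hTT
    have h2 := hd0 T hTT
    rw [intervalIntegral.integral_of_le hT.le] at h1
    have h3 : ∫ s in Ioc 0 T, ‖z s - zb s‖ ^ 2
        ≤ (2 / ν) * ((1 + c * T * (2 * Real.exp (2 * c * T))) * A) := by
      rw [← div_le_iff₀' (by positivity)]
      have : (∫ s in Ioc 0 T, ‖z s - zb s‖ ^ 2) / (2 / ν)
          = ν / 2 * ∫ s in Ioc 0 T, ‖z s - zb s‖ ^ 2 := by field_simp
      rw [this]; linarith
    refine h3.trans ?_
    rw [← mul_assoc]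
    gcongr
    unfold stc
    rw [← hc]
    have : 0 ≤ 2 * (1 + c * T * (2 * Real.exp (2 * c * T))) := by positivity
    have : 0 ≤ 2 * Real.exp (2 * c * T) := by positivity
    nlinarith
  · have h1 := hall t ht
    have h2 : 0 ≤ (ν / 2) * ∫ s in (0 : ℝ)..t, ‖z s - zb s‖ ^ 2 :=
      mul_nonneg (by positivity) (hI0 t ht)
    refine (by linarith : dft n F x0 u z t
      ≤ (1 + c * T * (2 * Real.exp (2 * c * T))) * A).trans ?_
    gcongr
    unfold stc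
    rw [← hc]
    have : 0 ≤ (1 + 2 / ν) * (1 + c * T * (2 * Real.exp (2 * c * T))) := by positivity
    have : 0 ≤ 2 * Real.exp (2 * c * T) := by positivity
    nlinarith

end rel

end H772R2.NSG
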