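import Mathlib
import Pool.Agent.H772R2.NSG.Rel

/-!
Convergence in `L²` of Hilbert space valued functions.
-/

set_option linter.unusedSectionVars false

open MeasureTheory Set Filter Topology Metric
open scoped InnerProductSpace NNReal ENNReal

namespace H772R2.NSG

variable {Y : Type*} [NormedAddCommGroup Y] [InnerProductSpace ℝ Y]
variable {α : Type*} [MeasurableSpace α] {μ : Measure α}

theorem toLp_norm_sq {f : α → Y} (hf : MemLp f 2 μ) :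
    ‖hf.toLp f‖ ^ 2 = ∫ s, ‖f s‖ ^ 2 ∂μ := by
  rw [← real_inner_self_eq_norm_sq, L2.inner_def]
  refine integral_congr_ae ?_
  filter_upwards [hf.coeFn_toLp] with s hs
  rw [hs, real_inner_self_eq_norm_sq]

theorem toLp_sub_norm_sq {f g : α → Y} (hf : MemLp f 2 μ) (hg : MemLp g 2 μ) :
    ‖hf.toLp f - hg.toLp g‖ ^ 2 = ∫ s, ‖f s - g s‖ ^ 2 ∂μ := by
  rw [← MemLp.toLp_sub hf hg, toLp_norm_sq (hf.sub hg)]
  rfl

theorem lp_sub_norm_sq (f g : Lp Y 2 μ) : ‖f - g‖ ^ 2 = ∫ s, ‖f s - g s‖ ^ 2 ∂μ := by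
  have := toLp_sub_norm_sq (Lp.memLp f) (Lp.memLp g)
  rwa [Lp.toLp_coeFn, Lp.toLp_coeFn] at this

theorem toLp_inner {f g : α → Y} (hf : MemLp f 2 μ) (hg : MemLp g 2 μ) :
    ⟪hf.toLp f, hg.toLp g⟫_ℝ = ∫ s, ⟪f s, g s⟫_ℝ ∂μ := by
  rw [L2.inner_def]
  refine integral_congr_ae ?_
  filter_upwards [hf.coeFn_toLp, hg.coeFn_toLp] with s h1 h2
  rw [h1, h2]

theorem toLp_tendsto {f : ℕ → α → Y} {g : α → Y} (hf : ∀ k, MemLp (f k) 2 μ) (hg : MemLp g 2 μ)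
    (h : Tendsto (fun k => ∫ s, ‖f k s - g s‖ ^ 2 ∂μ) atTop (𝓝 0)) :
    Tendsto (fun k => (hf k).toLp (f k)) atTop (𝓝 (hg.toLp g)) := by
  rw [tendsto_iff_norm_sub_tendsto_zero]
  have h1 : Tendsto (fun k => Real.sqrt (∫ s, ‖f k s - g s‖ ^ 2 ∂μ)) atTop (𝓝 (Real.sqrt 0)) :=
    (Real.continuous_sqrt.tendsto 0).comp h
  rw [Real.sqrt_zero] at h1
  refine h1.congr fun k => ?_
  rw [← toLp_sub_norm_sq (hf k) hg, Real.sqrt_sq (norm_nonneg _)]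

theorem tend_inner {f g : ℕ → α → Y} {f0 g0 : α → Y} (hf : ∀ k, MemLp (f k) 2 μ)
    (hf0 : MemLp f0 2 μ) (hg : ∀ k, MemLp (g k) 2 μ) (hg0 : MemLp g0 2 μ)
    (h1 : Tendsto (fun k => ∫ s, ‖f k s - f0 s‖ ^ 2 ∂μ) atTop (𝓝 0))
    (h2 : Tendsto (fun k => ∫ s, ‖g k s - g0 s‖ ^ 2 ∂μ) atTop (𝓝 0)) :
    Tendsto (fun k => ∫ s, ⟪f k s, g k s⟫_ℝ ∂μ) atTop (𝓝 (∫ s, ⟪f0 s, g0 s⟫_ℝ ∂μ)) := by
  have := (toLp_tendsto hf hf0 h1).inner (𝕜 := ℝ) (toLp_tendsto hg hg0 h2)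
  rw [toLp_inner] at this
  refine this.congr fun k => ?_
  rw [toLp_inner]

theorem ae_subseq {f : ℕ → α → Y} {g : α → Y} (hf : ∀ k, MemLp (f k) 2 μ) (hg : MemLp g 2 μ)
    (h : Tendsto (fun k => ∫ s, ‖f k s - g s‖ ^ 2 ∂μ) atTop (𝓝 0)) :
    ∃ ns : ℕ → ℕ, StrictMono ns ∧ ∀ᵐ s ∂μ, Tendsto (fun i => f (ns i) s) atTop (𝓝 (g s)) := by
  have h1 : Tendsto (fun k => eLpNorm (f k - g) 2 μ) atTop (𝓝 0) := by
    have h2 : Tendsto (fun k => ENNReal.ofReal (Real.sqrt (∫ s, ‖f k s - g s‖ ^ 2 ∂μ))) atTop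
        (𝓝 (ENNReal.ofReal (Real.sqrt 0))) :=
      (ENNReal.continuous_ofReal.tendsto _).comp ((Real.continuous_sqrt.tendsto 0).comp h)
    rw [Real.sqrt_zero, ENNReal.ofReal_zero] at h2
    refine h2.congr fun k => ?_
    rw [MemLp.eLpNorm_eq_integral_rpow_norm (by norm_num) (by norm_num) ((hf k).sub hg)]
    simp [Real.sqrt_eq_rpow]
  exact (tendstoInMeasure_of_tendsto_eLpNorm (by norm_num)
    (fun k => (hf k).aestronglyMeasurable) hg.aestronglyMeasurable h1).exists_seq_tendsto_ae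

theorem int_norm_sq_tendsto_mono {μ' : Measure α} (hμ : μ' ≤ μ) {f : ℕ → α → Y} {g : α → Y}
    (hf : ∀ k, MemLp (f k) 2 μ) (hg : MemLp g 2 μ)
    (h : Tendsto (fun k => ∫ s, ‖f k s - g s‖ ^ 2 ∂μ) atTop (𝓝 0)) :
    Tendsto (fun k => ∫ s, ‖f k s - g s‖ ^ 2 ∂μ') atTop (𝓝 0) := by
  refine squeeze_zero (fun k => integral_nonneg fun s => by positivity) (fun k => ?_) h
  refine integral_mono_measure hμ (Eventually.of_forall fun s => by positivity) ?_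
  exact (memLp_two_iff_integrable_sq_norm ((hf k).sub hg).aestronglyMeasurable).mp
    ((hf k).sub hg)

end H772R2.NSG
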