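import Mathlib
import Pool.Agent.H772R2.NSG.L2c

/-!
Limits of strong solutions are Leray-Hopf solutions.
-/

set_option linter.unusedSectionVars false

open MeasureTheory Set Filter Topology Metric
open scoped InnerProductSpace NNReal ENNReal

namespace H772R2.NSG

open H772R2.NSR (Frame grad_unique prim_cont ii_of_cont ii_mono young4 ae_deriv_of_prim
  hasDerivAt_prim memLp_ii)

variable {H K : Type*} [NormedAddCommGroup H] [InnerProductSpace ℝ H] [CompleteSpace H]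
  [NormedAddCommGroup K] [InnerProductSpace ℝ K] [CompleteSpace K]

variable {W : Submodule ℝ (H × K)} {m : H → K} {C : ℝ}
  {ν T : ℝ}

/-- bound of the difference of the nonlinear terms. -/
theorem m_sub_le (Fr : Frame W m C) {p q : H × K} (hp : p ∈ W) (hq : q ∈ W) {η : ℝ}
    (hη : ‖p.1 - q.1‖ ≤ η) :
    ‖m p.1 - m q.1‖ ≤ Real.sqrt (Real.sqrt (C * η)) * (1 + 2 * (‖p.2‖ ^ 2 + ‖q.2‖ ^ 2)) := by
  have hC := Fr.C0
  have hη0 : 0 ≤ η := (norm_nonneg _).trans hη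
  have h1 := Fr.lips p hp q hq
  set s := ‖p.2‖ + ‖q.2‖ with hs
  have hs0 : 0 ≤ s := by positivity
  have h2 : ‖p.2 - q.2‖ ≤ s := norm_sub_le _ _
  have h3 : s ^ 2 ≤ 2 * (‖p.2‖ ^ 2 + ‖q.2‖ ^ 2) := by
    rw [hs]; nlinarith [sq_nonneg (‖p.2‖ - ‖q.2‖)]
  have h4 : s ^ 7 ≤ (1 + s ^ 2) ^ 4 := by
    have : 0 ≤ (s ^ 4 - s ^ 3) ^ 2 := sq_nonneg _
    nlinarith [pow_nonneg hs0 2, pow_nonneg hs0 4, pow_nonneg hs0 6, pow_nonneg hs0 8]
  have h5 : ‖m p.1 - m q.1‖ ^ 4 ≤ (Real.sqrt (Real.sqrt (C * η)) * (1 + s ^ 2)) ^ 4 := by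
    have e1 : (Real.sqrt (Real.sqrt (C * η))) ^ 4 = C * η := by
      have : (Real.sqrt (Real.sqrt (C * η))) ^ 4 = ((Real.sqrt (Real.sqrt (C * η))) ^ 2) ^ 2 := by
        ring
      rw [this, Real.sq_sqrt (Real.sqrt_nonneg _), Real.sq_sqrt (by positivity)]
    rw [mul_pow, e1]
    calc ‖m p.1 - m q.1‖ ^ 4 ≤ C * (‖p.1 - q.1‖ * ‖p.2 - q.2‖ ^ 3 * s ^ 4) := h1
      _ ≤ C * (η * s ^ 3 * s ^ 4) := by gcongr
      _ = C * η * s ^ 7 := by ring
      _ ≤ _ := by gcongr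
  have h6 := (pow_le_pow_iff_left₀ (norm_nonneg _) (by positivity) (by norm_num)).mp h5
  refine h6.trans ?_
  gcongr

/-- Cauchy-Schwarz. -/
theorem cs {μ : Measure ℝ} {a b : ℝ → ℝ} (ha : MemLp a 2 μ) (hb : MemLp b 2 μ) :
    ∫ s, a s * b s ∂μ ≤ Real.sqrt (∫ s, ‖a s‖ ^ 2 ∂μ) * Real.sqrt (∫ s, ‖b s‖ ^ 2 ∂μ) := by
  have h1 := real_inner_le_norm (ha.toLp a) (hb.toLp b)
  rw [toLp_inner] at h1
  have e1 : ‖ha.toLp a‖ = Real.sqrt (∫ s, ‖a s‖ ^ 2 ∂μ) := by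
    rw [← toLp_norm_sq ha, Real.sqrt_sq (norm_nonneg _)]
  have e2 : ‖hb.toLp b‖ = Real.sqrt (∫ s, ‖b s‖ ^ 2 ∂μ) := by
    rw [← toLp_norm_sq hb, Real.sqrt_sq (norm_nonneg _)]
  rw [e1, e2] at h1
  refine le_trans (le_of_eq ?_) h1
  refine integral_congr_ae (Eventually.of_forall fun s => ?_)
  show a s * b s = ⟪a s, b s⟫_ℝ
  simp [mul_comm]

variable {n : ℝ → ℝ} {F : ℝ → K} {x0 : H} {nn : ℕ → ℝ → ℝ} {FF : ℕ → ℝ → K} {xx : ℕ → H}
  {uu uu1 : ℕ → ℝ → H} {zz zz1 : ℕ → ℝ → K} {ZZ : ℕ → ℝ}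

theorem limit (Fr : Frame W m C) (hν : 0 < ν) (hT : 0 < T)
    (S : ∀ k, St W m T (nn k) (FF k) (xx k) (uu k) (zz k) (uu1 k) (zz1 k) (ZZ k))
    (hlow : ∀ k, ∀ t ∈ Icc 0 T, 0 ≤ nn k t)
    (Co : Coef ν T n F)
    (hn : Tendsto (fun k => ∫ s in Ioc 0 T, ‖nn k s - n s‖ ^ 2) atTop (𝓝 0))
    (hF : Tendsto (fun k => ∫ s in Ioc 0 T, ‖FF k s - F s‖ ^ 2) atTop (𝓝 0))
    (hx : Tendsto xx atTop (𝓝 x0))
    (hu : ∀ ε > 0, ∃ N, ∀ j ≥ N, ∀ k ≥ N, ∀ t ∈ Icc 0 T, ‖uu j t - uu k t‖ ≤ ε)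
    (hz : ∀ ε > 0, ∃ N, ∀ j ≥ N, ∀ k ≥ N, ∫ s in Ioc 0 T, ‖zz j s - zz k s‖ ^ 2 ≤ ε) :
    ∃ (u : ℝ → H) (z : ℝ → K), LH W m T n F x0 u z ∧
      (∀ t ∈ Icc 0 T, u t ∈ closure {x : H | ∃ y, (x, y) ∈ W}) ∧ ContinuousOn u (Icc 0 T) ∧
      (∀ ε > 0, ∃ N, ∀ k ≥ N, ∀ t ∈ Icc 0 T, ‖uu k t - u t‖ ≤ ε) ∧
      Tendsto (fun k => ∫ s in Ioc 0 T, ‖zz k s - z s‖ ^ 2) atTop (𝓝 0) := by
  have h0T : (0 : ℝ) ∈ Icc 0 T := ⟨le_rfl, hT.le⟩
  have hTT : T ∈ Icc 0 T := ⟨hT.le, le_rfl⟩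
  have hC := Fr.C0
  -- the limit of the velocities
  have hcau : ∀ t ∈ Icc 0 T, CauchySeq (fun k => uu k t) := by
    intro t ht
    rw [Metric.cauchySeq_iff]
    intro ε hε
    obtain ⟨N, hN⟩ := hu (ε / 2) (by positivity)
    refine ⟨N, fun j hj k hk => ?_⟩
    rw [dist_eq_norm]
    linarith [hN j hj k hk t ht]
  let u : ℝ → H := fun t => limUnder atTop (fun k => uu k t)
  have hlim : ∀ t ∈ Icc 0 T, Tendsto (fun k => uu k t) atTop (𝓝 (u t)) := fun t ht =>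
    tendsto_nhds_limUnder (cauchySeq_tendsto_of_complete (hcau t ht))
  have hunif : ∀ ε > 0, ∃ N, ∀ k ≥ N, ∀ t ∈ Icc 0 T, ‖uu k t - u t‖ ≤ ε := by
    intro ε hε
    obtain ⟨N, hN⟩ := hu ε hε
    refine ⟨N, fun k hk t ht => ?_⟩
    have h1 : Tendsto (fun j => ‖uu k t - uu j t‖) atTop (𝓝 ‖uu k t - u t‖) :=
      ((hlim t ht).const_sub _).norm
    refine le_of_tendsto h1 ?_
    filter_upwards [eventually_ge_atTop N] with j hj
    exact hN k hk j hj t ht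
  have hTU : TendstoUniformlyOn uu u atTop (Icc 0 T) := by
    rw [Metric.tendstoUniformlyOn_iff]
    intro ε hε
    obtain ⟨N, hN⟩ := hunif (ε / 2) (by positivity)
    filter_upwards [eventually_ge_atTop N] with k hk t ht
    rw [dist_comm, dist_eq_norm]
    linarith [hN k hk t ht]
  have huc : ContinuousOn u (Icc 0 T) :=
    hTU.continuousOn (Frequently.of_forall fun k => (S k).uc)
  -- the limit of the gradients
  have hzm : ∀ k, MemLp (zz k) 2 (volume.restrict (Ioc 0 T)) := fun k => mem_cont (S k).zc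
  have hnm : ∀ k, MemLp (nn k) 2 (volume.restrict (Ioc 0 T)) := fun k => mem_cont (S k).nc
  have hFm : ∀ k, MemLp (FF k) 2 (volume.restrict (Ioc 0 T)) := fun k => mem_cont (S k).Fc
  have hcz : CauchySeq (fun k => (hzm k).toLp (zz k)) := by
    rw [Metric.cauchySeq_iff]
    intro ε hε
    obtain ⟨N, hN⟩ := hz ((ε / 2) ^ 2) (by positivity)
    refine ⟨N, fun j hj k hk => ?_⟩
    rw [dist_eq_norm]
    have h1 := hN j hj k hk
    rw [← toLp_sub_norm_sq (hzm j) (hzm k)] at h1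
    have h2 := (pow_le_pow_iff_left₀ (norm_nonneg _) (by positivity) (by norm_num)).mp h1
    linarith
  obtain ⟨ζ, hζ⟩ := cauchySeq_tendsto_of_complete hcz
  let z : ℝ → K := ζ
  have hzlp : MemLp z 2 (volume.restrict (Ioc 0 T)) := Lp.memLp ζ
  have hzt : Tendsto (fun k => ∫ s in Ioc 0 T, ‖zz k s - z s‖ ^ 2) atTop (𝓝 0) := by
    have h1 := (tendsto_iff_norm_sub_tendsto_zero.mp hζ).pow 2
    rw [zero_pow (by norm_num)] at h1
    refine h1.congr fun k => ?_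
    have h2 := toLp_sub_norm_sq (hzm k) hzlp
    rw [← h2]
    congr 3
    exact (Lp.toLp_coeFn ζ _).symm
  -- almost everywhere convergence along a subsequence
  obtain ⟨a1, ha1, hb1⟩ := ae_subseq hzm hzlp hzt
  obtain ⟨a2, ha2, hb2⟩ := ae_subseq (fun k => hnm (a1 k)) Co.n2 (hn.comp ha1.tendsto_atTop)
  let φ : ℕ → ℕ := fun i => a1 (a2 i)
  have hφ : Tendsto φ atTop atTop := ha1.tendsto_atTop.comp ha2.tendsto_atTop
  have hzae : ∀ᵐ s ∂(volume.restrict (Ioc 0 T)), Tendsto (fun i => zz (φ i) s) atTop (𝓝 (z s)) := by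
    filter_upwards [hb1] with s hs
    exact hs.comp ha2.tendsto_atTop
  have hnae : ∀ᵐ s ∂(volume.restrict (Ioc 0 T)), Tendsto (fun i => nn (φ i) s) atTop (𝓝 (n s)) :=
    hb2
  have hmem : ∀ᵐ s ∂(volume.restrict (Ioc 0 T)), (u s, z s) ∈ W := by
    filter_upwards [hzae, ae_restrict_mem measurableSet_Ioc] with s hs hsI
    have hsI' := Ioc_subset_Icc_self hsI
    have h1 : Tendsto (fun i => (uu (φ i) s, zz (φ i) s)) atTop (𝓝 (u s, z s)) :=
      ((hlim s hsI').comp hφ).prodMk_nhds hs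
    exact Fr.closedW.mem_of_tendsto h1 (Eventually.of_forall fun i => (S _).mem s hsI')
  -- bounds of the gradients
  obtain ⟨Bz, hBz⟩ : ∃ B : ℝ, ∀ k, ∫ s in Ioc 0 T, ‖zz k s‖ ^ 2 ≤ B := by
    obtain ⟨B, hB⟩ := hcz.norm_bddAbove
    refine ⟨B ^ 2, fun k => ?_⟩
    rw [← toLp_norm_sq (hzm k)]
    have : ‖(hzm k).toLp (zz k)‖ ≤ B := hB ⟨k, rfl⟩
    gcongr
  have hBz0 : 0 ≤ Bz := (integral_nonneg fun s => by positivity).trans (hBz 0)
  have hz2i : Integrable (fun s => ‖z s‖ ^ 2) (volume.restrict (Ioc 0 T)) :=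
    (memLp_two_iff_integrable_sq_norm hzlp.aestronglyMeasurable).mp hzlp
  have hzk2i : ∀ k, Integrable (fun s => ‖zz k s‖ ^ 2) (volume.restrict (Ioc 0 T)) := fun k =>
    (memLp_two_iff_integrable_sq_norm (hzm k).aestronglyMeasurable).mp (hzm k)
  -- the nonlinear term
  have hmae : ∀ᵐ s ∂(volume.restrict (Ioc 0 T)),
      Tendsto (fun i => m (uu (φ i) s)) atTop (𝓝 (m (u s))) := by
    filter_upwards [hzae, hmem, ae_restrict_mem measurableSet_Ioc] with s hs hsm hsI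
    have hsI' := Ioc_subset_Icc_self hsI
    rw [tendsto_iff_norm_sub_tendsto_zero]
    have k1 : Tendsto (fun i => ‖uu (φ i) s - u s‖) atTop (𝓝 0) :=
      tendsto_iff_norm_sub_tendsto_zero.mp ((hlim s hsI').comp hφ)
    have k2 : Tendsto (fun i => Real.sqrt (Real.sqrt (C * ‖uu (φ i) s - u s‖))
        * (1 + 2 * (‖zz (φ i) s‖ ^ 2 + ‖z s‖ ^ 2))) atTop
        (𝓝 (Real.sqrt (Real.sqrt (C * 0)) * (1 + 2 * (‖z s‖ ^ 2 + ‖z s‖ ^ 2)))) := by
      refine Tendsto.mul ?_ ?_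
      · exact (Real.continuous_sqrt.tendsto _).comp
          ((Real.continuous_sqrt.tendsto _).comp (k1.const_mul C))
      · exact (((hs.norm.pow 2).add_const _).const_mul 2).const_add 1
    rw [mul_zero, Real.sqrt_zero, Real.sqrt_zero, zero_mul] at k2
    refine squeeze_zero (fun i => norm_nonneg _) (fun i => ?_) k2
    exact m_sub_le Fr (p := (uu (φ i) s, zz (φ i) s)) (q := (u s, z s)) ((S _).mem s hsI') hsm le_rfl
  have hmm : AEStronglyMeasurable (fun s => m (u s)) (volume.restrict (Ioc 0 T)) :=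
    aestronglyMeasurable_of_tendsto_ae atTop
      (fun i => (mem_cont (p := 2) ((S (φ i)).mc Fr)).aestronglyMeasurable) hmae
  have hmu : MemLp u 2 (volume.restrict (Ioc 0 T)) := mem_cont huc
  have hmL1 : Tendsto (fun k => ∫ s in Ioc 0 T, ‖m (uu k s) - m (u s)‖) atTop (𝓝 0) := by
    rw [Metric.tendsto_nhds]
    intro ε hε
    set D := T + 2 * (Bz + ∫ s in Ioc 0 T, ‖z s‖ ^ 2) with hD
    have hI0 : 0 ≤ ∫ s in Ioc 0 T, ‖z s‖ ^ 2 := integral_nonneg fun s => by positivity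
    have hD0 : 0 < D := by positivity
    set η := (ε / (2 * D)) ^ 4 / C with hη
    have hη0 : 0 < η := by positivity
    obtain ⟨N, hN⟩ := hunif η hη0
    filter_upwards [eventually_ge_atTop N] with k hk
    have e1 : Real.sqrt (Real.sqrt (C * η)) = ε / (2 * D) := by
      have : C * η = ((ε / (2 * D)) ^ 2) ^ 2 := by rw [hη]; field_simp; try ring
      rw [this, Real.sqrt_sq (by positivity), Real.sqrt_sq (by positivity)]
    have h1 : ∫ s in Ioc 0 T, ‖m (uu k s) - m (u s)‖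
        ≤ ∫ s in Ioc 0 T, (ε / (2 * D)) * (1 + 2 * (‖zz k s‖ ^ 2 + ‖z s‖ ^ 2)) := by
      refine integral_mono_of_nonneg (Eventually.of_forall fun s => norm_nonneg _) ?_ ?_
      · exact ((integrable_const _).add (((hzk2i k).add hz2i).const_mul 2)).const_mul _
      · filter_upwards [hmem, ae_restrict_mem measurableSet_Ioc] with s hsm hsI
        have hsI' := Ioc_subset_Icc_self hsI
        have := m_sub_le Fr (p := (uu k s, zz k s)) (q := (u s, z s)) ((S _).mem s hsI') hsm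
          (hN k hk s hsI')
        rwa [e1] at this
    have h2 : ∫ s in Ioc 0 T, (ε / (2 * D)) * (1 + 2 * (‖zz k s‖ ^ 2 + ‖z s‖ ^ 2))
        ≤ (ε / (2 * D)) * D := by
      have q1 : Integrable (fun s => ‖zz k s‖ ^ 2 + ‖z s‖ ^ 2) (volume.restrict (Ioc 0 T)) :=
        (hzk2i k).add hz2i
      have q2 : Integrable (fun s => 2 * (‖zz k s‖ ^ 2 + ‖z s‖ ^ 2)) (volume.restrict (Ioc 0 T)) :=
        q1.const_mul 2
      rw [integral_const_mul, integral_add (integrable_const _) q2,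
        integral_const_mul, integral_add (hzk2i k) hz2i]
      have e3 : ∫ _ in Ioc 0 T, (1 : ℝ) = T := by simp [hT.le]
      rw [e3]
      have := hBz k
      gcongr
      rw [hD]
      linarith
    have h3 : 0 ≤ ∫ s in Ioc 0 T, ‖m (uu k s) - m (u s)‖ :=
      integral_nonneg fun s => norm_nonneg _
    rw [Real.dist_eq, sub_zero, abs_of_nonneg h3]
    have e4 : (ε / (2 * D)) * D = ε / 2 := by field_simp
    rw [e4] at h2
    linarith
  -- the limit of the equations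
  have hweak : ∀ p ∈ W, ∀ t ∈ Icc 0 T, ⟪u t - x0, p.1⟫_ℝ
      = ∫ s in (0 : ℝ)..t, ⟪F s - n s • z s + m (u s), p.2⟫_ℝ := by
    intro p hp t ht
    have hsub : (volume.restrict (Ioc 0 t) : Measure ℝ) ≤ volume.restrict (Ioc 0 T) :=
      Measure.restrict_mono (Ioc_subset_Ioc_right ht.2) le_rfl
    have hml : ∀ {Y : Type} [NormedAddCommGroup Y] {f : ℝ → Y},
        MemLp f 2 (volume.restrict (Ioc 0 T)) → MemLp f 2 (volume.restrict (Ioc 0 t)) :=
      fun h => h.mono_measure hsub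
    have l1 : Tendsto (fun k => ⟪uu k t - xx k, p.1⟫_ℝ) atTop (𝓝 ⟪u t - x0, p.1⟫_ℝ) :=
      ((hlim t ht).sub hx).inner tendsto_const_nhds
    -- three integrals
    have c1 : Tendsto (fun k => ∫ s in Ioc 0 t, ⟪FF k s, p.2⟫_ℝ) atTop
        (𝓝 (∫ s in Ioc 0 t, ⟪F s, p.2⟫_ℝ)) := by
      refine tend_inner (f := FF) (g := fun _ _ => p.2) (g0 := fun _ => p.2)
        (fun k => (hFm k).mono_measure hsub) (Co.F2.mono_measure hsub) (fun _ => memLp_const _)
        (memLp_const _) (int_norm_sq_tendsto_mono hsub hFm Co.F2 hF) ?_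
      simp
    have hzp : ∀ k, MemLp (fun s => ⟪zz k s, p.2⟫_ℝ) 2 (volume.restrict (Ioc 0 T)) := fun k =>
      (hzm k).inner_const _
    have hzp0 : MemLp (fun s => ⟪z s, p.2⟫_ℝ) 2 (volume.restrict (Ioc 0 T)) := hzlp.inner_const _
    have hzpt : Tendsto (fun k => ∫ s in Ioc 0 T, ‖⟪zz k s, p.2⟫_ℝ - ⟪z s, p.2⟫_ℝ‖ ^ 2) atTop
        (𝓝 0) := by
      have h1 := hzt.mul_const (‖p.2‖ ^ 2)
      rw [zero_mul] at h1
      refine squeeze_zero (fun k => integral_nonneg fun s => by positivity) (fun k => ?_) h1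
      rw [← integral_mul_const]
      refine integral_mono_of_nonneg (Eventually.of_forall fun s => by positivity) ?_
        (Eventually.of_forall fun s => ?_)
      · exact ((memLp_two_iff_integrable_sq_norm
          ((hzm k).sub hzlp).aestronglyMeasurable).mp ((hzm k).sub hzlp)).mul_const _
      · show ‖⟪zz k s, p.2⟫_ℝ - ⟪z s, p.2⟫_ℝ‖ ^ 2 ≤ ‖zz k s - z s‖ ^ 2 * ‖p.2‖ ^ 2
        rw [← inner_sub_left, ← mul_pow]
        gcongr
        exact norm_inner_le_norm _ _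
    have c2 : Tendsto (fun k => ∫ s in Ioc 0 t, ⟪nn k s, ⟪zz k s, p.2⟫_ℝ⟫_ℝ) atTop
        (𝓝 (∫ s in Ioc 0 t, ⟪n s, ⟪z s, p.2⟫_ℝ⟫_ℝ)) :=
      tend_inner (fun k => (hnm k).mono_measure hsub) (Co.n2.mono_measure hsub)
        (fun k => (hzp k).mono_measure hsub) (hzp0.mono_measure hsub)
        (int_norm_sq_tendsto_mono hsub hnm Co.n2 hn)
        (int_norm_sq_tendsto_mono hsub hzp hzp0 hzpt)
    have hmki : ∀ k, Integrable (fun s => m (uu k s)) (volume.restrict (Ioc 0 T)) := fun k =>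
      (mem_cont (p := 1) ((S k).mc Fr)).integrable le_rfl
    have hmi : Integrable (fun s => m (u s)) (volume.restrict (Ioc 0 T)) := by
      refine (hz2i.const_mul C).mono' hmm ?_
      filter_upwards [hmem] with s hs
      exact norm_m_le Fr hs
    have c3 : Tendsto (fun k => ∫ s in Ioc 0 t, ⟪m (uu k s), p.2⟫_ℝ) atTop
        (𝓝 (∫ s in Ioc 0 t, ⟪m (u s), p.2⟫_ℝ)) := by
      rw [tendsto_iff_norm_sub_tendsto_zero]
      have h1 := hmL1.mul_const ‖p.2‖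
      rw [zero_mul] at h1
      refine squeeze_zero (fun k => norm_nonneg _) (fun k => ?_) h1
      rw [← integral_sub (((hmki k).inner_const _).mono_measure hsub)
        ((hmi.inner_const _).mono_measure hsub), ← integral_mul_const]
      calc ‖∫ s in Ioc 0 t, (⟪m (uu k s), p.2⟫_ℝ - ⟪m (u s), p.2⟫_ℝ)‖
          ≤ ∫ s in Ioc 0 t, ‖⟪m (uu k s), p.2⟫_ℝ - ⟪m (u s), p.2⟫_ℝ‖ :=
            norm_integral_le_integral_norm _
        _ ≤ ∫ s in Ioc 0 t, ‖m (uu k s) - m (u s)‖ * ‖p.2‖ := by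
            refine integral_mono_of_nonneg (Eventually.of_forall fun s => norm_nonneg _)
              (((hmki k).sub hmi).norm.mul_const _ |>.mono_measure hsub)
              (Eventually.of_forall fun s => ?_)
            show ‖⟪m (uu k s), p.2⟫_ℝ - ⟪m (u s), p.2⟫_ℝ‖ ≤ _
            rw [← inner_sub_left]
            exact norm_inner_le_norm _ _
        _ ≤ ∫ s in Ioc 0 T, ‖m (uu k s) - m (u s)‖ * ‖p.2‖ := by
            refine setIntegral_mono_set (((hmki k).sub hmi).norm.mul_const _)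
              (Eventually.of_forall fun s => ?_) (Ioc_subset_Ioc_right ht.2).eventuallyLE
            show 0 ≤ ‖m (uu k s) - m (u s)‖ * ‖p.2‖
            positivity
    have l2 : Tendsto (fun k => ∫ s in (0 : ℝ)..t, ⟪FF k s - nn k s • zz k s + m (uu k s), p.2⟫_ℝ)
        atTop (𝓝 (∫ s in (0 : ℝ)..t, ⟪F s - n s • z s + m (u s), p.2⟫_ℝ)) := by
      have e : ∀ (a : ℝ → ℝ) (b c d : ℝ → K), Integrable b (volume.restrict (Ioc 0 T)) →
          Integrable (fun s => a s • c s) (volume.restrict (Ioc 0 T)) →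
          Integrable d (volume.restrict (Ioc 0 T)) →
          ∫ s in (0 : ℝ)..t, ⟪b s - a s • c s + d s, p.2⟫_ℝ
            = (∫ s in Ioc 0 t, ⟪b s, p.2⟫_ℝ) - (∫ s in Ioc 0 t, ⟪a s, ⟪c s, p.2⟫_ℝ⟫_ℝ)
              + ∫ s in Ioc 0 t, ⟪d s, p.2⟫_ℝ := by
        intro a b c d hb hc hd
        have q1 : Integrable (fun s => ⟪b s, p.2⟫_ℝ) (volume.restrict (Ioc 0 t)) :=
          (hb.inner_const _).mono_measure hsub
        have q2 : Integrable (fun s => ⟪a s, ⟪c s, p.2⟫_ℝ⟫_ℝ) (volume.restrict (Ioc 0 t)) := by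
          refine ((hc.inner_const p.2).mono_measure hsub).congr (Eventually.of_forall fun s => ?_)
          show ⟪a s • c s, p.2⟫_ℝ = ⟪a s, ⟪c s, p.2⟫_ℝ⟫_ℝ
          rw [real_inner_smul_left]; simp [mul_comm]
        have q3 : Integrable (fun s => ⟪d s, p.2⟫_ℝ) (volume.restrict (Ioc 0 t)) :=
          (hd.inner_const _).mono_measure hsub
        have q12 : Integrable (fun s => ⟪b s, p.2⟫_ℝ - ⟪a s, ⟪c s, p.2⟫_ℝ⟫_ℝ)
            (volume.restrict (Ioc 0 t)) := q1.sub q2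
        rw [intervalIntegral.integral_of_le ht.1, ← integral_sub q1 q2, ← integral_add q12 q3]
        refine integral_congr_ae (Eventually.of_forall fun s => ?_)
        show ⟪b s - a s • c s + d s, p.2⟫_ℝ = ⟪b s, p.2⟫_ℝ - ⟪a s, ⟪c s, p.2⟫_ℝ⟫_ℝ + ⟪d s, p.2⟫_ℝ
        rw [inner_add_left, inner_sub_left, real_inner_smul_left]
        simp [mul_comm]
      have e0 := e n F z (fun s => m (u s)) (Co.F2.integrable (by norm_num))
        (int_smul Co.n2 hzlp) hmi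
      rw [e0]
      refine ((c1.sub c2).add c3).congr fun k => ?_
      exact (e (nn k) (FF k) (zz k) (fun s => m (uu k s)) ((hFm k).integrable (by norm_num))
        (int_smul (hnm k) (hzm k)) (hmki k)).symm
    refine tendsto_nhds_unique l1 (l2.congr fun k => ?_)
    exact ((S k).weak p hp t ht).symm
  -- the energy
  have hE : ∀ t ∈ Icc 0 T,
      (∫⁻ s in Ioc 0 t, ENNReal.ofReal (n s * ‖z s‖ ^ 2))
        ≤ ENNReal.ofReal (‖x0‖ ^ 2 / 2 + (∫ s in (0 : ℝ)..t, ⟪F s, z s⟫_ℝ) - ‖u t‖ ^ 2 / 2) ∧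
      0 ≤ ‖x0‖ ^ 2 / 2 + (∫ s in (0 : ℝ)..t, ⟪F s, z s⟫_ℝ) - ‖u t‖ ^ 2 / 2 := by
    intro t ht
    have hsub : (volume.restrict (Ioc 0 t) : Measure ℝ) ≤ volume.restrict (Ioc 0 T) :=
      Measure.restrict_mono (Ioc_subset_Ioc_right ht.2) le_rfl
    have c1 : Tendsto (fun k => ∫ s in (0 : ℝ)..t, ⟪FF k s, zz k s⟫_ℝ) atTop
        (𝓝 (∫ s in (0 : ℝ)..t, ⟪F s, z s⟫_ℝ)) := by
      simp_rw [intervalIntegral.integral_of_le ht.1]
      exact tend_inner (fun k => (hFm k).mono_measure hsub) (Co.F2.mono_measure hsub)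
        (fun k => (hzm k).mono_measure hsub) (hzlp.mono_measure hsub)
        (int_norm_sq_tendsto_mono hsub hFm Co.F2 hF)
        (int_norm_sq_tendsto_mono hsub hzm hzlp hzt)
    have c2 : Tendsto (fun k => ∫ s in (0 : ℝ)..t, nn k s * ‖zz k s‖ ^ 2) atTop
        (𝓝 (‖x0‖ ^ 2 / 2 + (∫ s in (0 : ℝ)..t, ⟪F s, z s⟫_ℝ) - ‖u t‖ ^ 2 / 2)) := by
      have h1 := (((hx.norm.pow 2).div_const 2).add c1).sub (((hlim t ht).norm.pow 2).div_const 2)
      refine h1.congr fun k => ?_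
      have := (S k).energy t ht
      linarith
    have hge : ∀ k, 0 ≤ ∫ s in (0 : ℝ)..t, nn k s * ‖zz k s‖ ^ 2 := fun k =>
      intervalIntegral.integral_nonneg ht.1 fun s hs => by
        have := hlow k s ⟨hs.1, hs.2.trans ht.2⟩
        positivity
    refine ⟨?_, ge_of_tendsto' c2 hge⟩
    have c3 : Tendsto (fun i => ENNReal.ofReal (∫ s in (0 : ℝ)..t, nn (φ i) s * ‖zz (φ i) s‖ ^ 2))
        atTop (𝓝 (ENNReal.ofReal
          (‖x0‖ ^ 2 / 2 + (∫ s in (0 : ℝ)..t, ⟪F s, z s⟫_ℝ) - ‖u t‖ ^ 2 / 2))) :=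
      (ENNReal.continuous_ofReal.tendsto _).comp (c2.comp hφ)
    have c4 : ∀ k, ENNReal.ofReal (∫ s in (0 : ℝ)..t, nn k s * ‖zz k s‖ ^ 2)
        = ∫⁻ s in Ioc 0 t, ENNReal.ofReal (nn k s * ‖zz k s‖ ^ 2) := by
      intro k
      rw [intervalIntegral.integral_of_le ht.1]
      refine ofReal_integral_eq_lintegral_ofReal ?_ ?_
      · have : ContinuousOn (fun s => nn k s * ‖zz k s‖ ^ 2) (Icc 0 T) :=
          (S k).nc.mul ((S k).zc.norm.pow 2)
        exact ((mem_cont (p := 1) this).integrable le_rfl).mono_measure hsub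
      · filter_upwards [ae_restrict_mem measurableSet_Ioc] with s hs
        have := hlow k s ⟨hs.1.le, hs.2.trans ht.2⟩
        show 0 ≤ nn k s * ‖zz k s‖ ^ 2
        positivity
    simp_rw [c4] at c3
    rw [← c3.liminf_eq]
    refine le_trans (le_of_eq ?_) (lintegral_liminf_le' fun i => ?_)
    · refine lintegral_congr_ae ?_
      filter_upwards [ae_mono hsub hzae, ae_mono hsub hnae] with s k1 k2
      exact ((ENNReal.continuous_ofReal.tendsto _).comp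
        (k2.mul (k1.norm.pow 2))).liminf_eq.symm
    · exact (((hnm (φ i)).aestronglyMeasurable.mul
        ((hzm (φ i)).aestronglyMeasurable.norm.pow 2)).mono_measure hsub).aemeasurable.ennreal_ofReal
  have hnn : ∀ᵐ s ∂(volume.restrict (Ioc 0 T)), 0 ≤ n s * ‖z s‖ ^ 2 := by
    filter_upwards [Co.low] with s hs
    have : 0 ≤ n s := hν.le.trans hs
    positivity
  have hdis : Integrable (fun s => n s * ‖z s‖ ^ 2) (volume.restrict (Ioc 0 T)) := by
    refine ⟨Co.n2.aestronglyMeasurable.mul (hzlp.aestronglyMeasurable.norm.pow 2), ?_⟩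
    rw [hasFiniteIntegral_iff_ofReal hnn]
    exact lt_of_le_of_lt (hE T hTT).1 ENNReal.ofReal_lt_top
  have hcl : ∀ t ∈ Icc 0 T, u t ∈ closure {x : H | ∃ y, (x, y) ∈ W} := fun t ht =>
    mem_closure_of_tendsto (hlim t ht) (Eventually.of_forall fun k => ⟨zz k t, (S k).mem t ht⟩)
  refine ⟨u, z, ⟨?_, hmu.aestronglyMeasurable, hmm, hmem, hzlp, hdis, hweak, ?_⟩, hcl, huc,
    hunif, hzt⟩
  · have h1 := hlim 0 h0T
    refine tendsto_nhds_unique h1 (hx.congr fun k => ?_)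
    exact (S k).init.symm
  · intro t ht
    have hsub : (volume.restrict (Ioc 0 t) : Measure ℝ) ≤ volume.restrict (Ioc 0 T) :=
      Measure.restrict_mono (Ioc_subset_Ioc_right ht.2) le_rfl
    obtain ⟨h1, h2⟩ := hE t ht
    rw [← ofReal_integral_eq_lintegral_ofReal (hdis.mono_measure hsub) (ae_mono hsub hnn),
      ENNReal.ofReal_le_ofReal_iff h2] at h1
    rw [intervalIntegral.integral_of_le ht.1 (f := fun s => n s * ‖z s‖ ^ 2)]
    linarith

end H772R2.NSG
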