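import Mathlib
import Pool.Agent.H772R2.NSG.Limit

/-!
Density of the coefficients with strong solutions.
-/

set_option linter.unusedSectionVars false

open MeasureTheory Set Filter Topology Metric
open scoped InnerProductSpace NNReal ENNReal ContDiff

namespace H772R2.NSG

open H772R2.NSR (Frame grad_unique prim_cont ii_of_cont ii_mono young4 ae_deriv_of_prim
  hasDerivAt_prim memLp_ii exists_weak_deriv')

variable {H K : Type*} [NormedAddCommGroup H] [InnerProductSpace ℝ H] [CompleteSpace H]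
  [NormedAddCommGroup K] [InnerProductSpace ℝ K] [CompleteSpace K]
variable {Y : Type*} [NormedAddCommGroup Y] [InnerProductSpace ℝ Y] [CompleteSpace Y]

variable {W : Submodule ℝ (H × K)} {m : H → K} {C : ℝ}
  {ν T : ℝ}

theorem eLpNorm_five_le {μ : Measure ℝ} {f : ℝ → Y} (hf : MemLp f 5 μ) {η : ℝ} (hη : 0 ≤ η)
    (h : ∫ s, ‖f s‖ ^ 5 ∂μ ≤ η ^ 5) : eLpNorm f 5 μ ≤ ENNReal.ofReal η := by
  rw [MemLp.eLpNorm_eq_integral_rpow_norm (by norm_num) (by norm_num) hf]
  refine ENNReal.ofReal_le_ofReal ?_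
  have e1 : ((5 : ℝ≥0∞).toReal) = ((5 : ℕ) : ℝ) := by norm_num
  rw [e1]
  simp_rw [Real.rpow_natCast]
  have e2 : η = (η ^ 5) ^ (((5 : ℕ) : ℝ)⁻¹) := by
    rw [← Real.rpow_natCast, ← Real.rpow_mul hη]
    norm_num
  rw [e2]
  exact Real.rpow_le_rpow (integral_nonneg fun s => by positivity) h (by norm_num)

/-- the cut-off at time `0`. -/
noncomputable def chi (δ t : ℝ) : ℝ := max 0 (1 - t / δ)

theorem chi_nonneg (δ t : ℝ) : 0 ≤ chi δ t := le_max_left _ _

theorem chi_le {δ t : ℝ} (hδ : 0 < δ) (ht : 0 ≤ t) : chi δ t ≤ 1 := by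
  unfold chi
  refine max_le zero_le_one ?_
  have : 0 ≤ t / δ := by positivity
  linarith

theorem chi_zero {δ : ℝ} : chi δ 0 = 1 := by simp [chi]

theorem chi_of_ge {δ t : ℝ} (hδ : 0 < δ) (ht : δ < t) : chi δ t = 0 := by
  unfold chi
  refine max_eq_left ?_
  have : 1 ≤ t / δ := by rw [le_div_iff₀ hδ]; linarith
  linarith

theorem chi_lip {δ : ℝ} (hδ : 0 < δ) (s t : ℝ) : |chi δ s - chi δ t| ≤ |s - t| / δ := by
  unfold chi
  calc |max 0 (1 - s / δ) - max 0 (1 - t / δ)| ≤ |(1 - s / δ) - (1 - t / δ)| := by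
        have := abs_max_sub_max_le_max (0 : ℝ) (1 - s / δ) 0 (1 - t / δ)
        simpa using this
    _ = |s - t| / δ := by
        have : (1 - s / δ) - (1 - t / δ) = (t - s) / δ := by ring
        rw [this, abs_div, abs_of_pos hδ, abs_sub_comm]

theorem chi_cont (δ : ℝ) : Continuous (chi δ) := by unfold chi; fun_prop

theorem cut (hT : 0 < T) {f : ℝ → Y} {B M : ℝ} (hB : 0 ≤ B) (hM : 0 ≤ M)
    (hf : ∀ s ∈ Icc 0 T, ∀ t ∈ Icc 0 T, ‖f s - f t‖ ≤ B * |s - t|)
    (hfM : ∀ t ∈ Icc 0 T, ‖f t‖ ≤ M) (b : Y) {η : ℝ} (hη : 0 < η) :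
    ∃ (g : ℝ → Y) (B2 : ℝ), g 0 = b ∧ 0 ≤ B2 ∧
      (∀ s ∈ Icc 0 T, ∀ t ∈ Icc 0 T, ‖g s - g t‖ ≤ B2 * |s - t|) ∧
      (∀ t ∈ Icc 0 T, ∃ θ ∈ Icc (0 : ℝ) 1, g t = (1 - θ) • f t + θ • b) ∧
      ContinuousOn g (Icc 0 T) ∧
      eLpNorm (g - f) 5 (volume.restrict (Ioc 0 T)) ≤ ENNReal.ofReal η := by
  set D := ‖b‖ + M with hD
  have hD0 : 0 ≤ D := by positivity
  set δ := η ^ 5 / (D ^ 5 + 1) with hδ
  have hδ0 : 0 < δ := by positivity
  have hfc : ContinuousOn f (Icc 0 T) := by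
    refine LipschitzOnWith.continuousOn (K := B.toNNReal) ?_
    refine LipschitzOnWith.of_dist_le_mul fun a ha b hb => ?_
    rw [dist_eq_norm, Real.dist_eq, Real.coe_toNNReal _ hB]
    exact hf a ha b hb
  let g : ℝ → Y := fun t => (1 - chi δ t) • f t + chi δ t • b
  have hgc : ContinuousOn g (Icc 0 T) :=
    ((continuous_const.sub (chi_cont δ)).continuousOn.smul hfc).add
      ((chi_cont δ).continuousOn.smul continuousOn_const)
  have hb' : ∀ t ∈ Icc 0 T, ‖b - f t‖ ≤ D := fun t ht =>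
    (norm_sub_le _ _).trans (by rw [hD]; gcongr; exact hfM t ht)
  refine ⟨g, B + D / δ, ?_, by positivity, ?_, ?_, hgc, ?_⟩
  · simp [g, chi_zero]
  · intro s hs t ht
    have e : g s - g t = (1 - chi δ s) • (f s - f t) + (chi δ s - chi δ t) • (b - f t) := by
      simp only [g, smul_sub, sub_smul, one_smul]; abel
    rw [e]
    have h1 := chi_nonneg δ s
    have h2 := chi_le hδ0 hs.1
    have h3 := chi_lip hδ0 s t
    calc ‖(1 - chi δ s) • (f s - f t) + (chi δ s - chi δ t) • (b - f t)‖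
        ≤ |1 - chi δ s| * ‖f s - f t‖ + |chi δ s - chi δ t| * ‖b - f t‖ := by
          refine (norm_add_le _ _).trans (le_of_eq ?_)
          rw [norm_smul, norm_smul, Real.norm_eq_abs, Real.norm_eq_abs]
      _ ≤ 1 * (B * |s - t|) + (|s - t| / δ) * D := by
          gcongr
          · rw [abs_of_nonneg (by linarith)]; linarith
          · exact hf s hs t ht
          · exact hb' t ht
      _ = _ := by field_simp
  · intro t ht
    exact ⟨chi δ t, ⟨chi_nonneg δ t, chi_le hδ0 ht.1⟩, rfl⟩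
  · have hgf : ContinuousOn (g - f) (Icc 0 T) := hgc.sub hfc
    refine eLpNorm_five_le (mem_cont hgf) hη.le ?_
    have h1 : ∫ s in Ioc 0 T, ‖(g - f) s‖ ^ 5
        ≤ ∫ s in Ioc 0 T, (Ioc 0 δ).indicator (fun _ => D ^ 5) s := by
      refine integral_mono_of_nonneg (Eventually.of_forall fun s => by positivity) ?_ ?_
      · exact (integrable_const _).indicator measurableSet_Ioc
      · filter_upwards [ae_restrict_mem measurableSet_Ioc] with s hs
        have hs' := Ioc_subset_Icc_self hs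
        have e : (g - f) s = chi δ s • (b - f s) := by
          simp only [g, Pi.sub_apply, smul_sub, sub_smul, one_smul]; abel
        rw [e, norm_smul, Real.norm_eq_abs, abs_of_nonneg (chi_nonneg δ s)]
        by_cases hsδ : s ≤ δ
        · rw [indicator_of_mem (show s ∈ Ioc 0 δ from ⟨hs.1, hsδ⟩)]
          have : chi δ s * ‖b - f s‖ ≤ 1 * D := by
            gcongr
            · exact chi_le hδ0 hs.1.le
            · exact hb' s hs'
          rw [one_mul] at this
          have h0 := chi_nonneg δ s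
          gcongr
        · rw [chi_of_ge hδ0 (not_le.mp hsδ), indicator_of_notMem (fun h => hsδ h.2)]
          simp
    refine h1.trans ?_
    rw [integral_indicator measurableSet_Ioc, Measure.restrict_restrict measurableSet_Ioc,
      setIntegral_const, smul_eq_mul]
    have h2 : volume.real (Ioc 0 δ ∩ Ioc 0 T) ≤ δ := by
      calc volume.real (Ioc 0 δ ∩ Ioc 0 T) ≤ volume.real (Ioc 0 δ) :=
            measureReal_mono inter_subset_left (by simp)
        _ = δ := by simp [hδ0.le]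
    calc volume.real (Ioc 0 δ ∩ Ioc 0 T) * D ^ 5 ≤ δ * D ^ 5 := by gcongr
      _ ≤ δ * (D ^ 5 + 1) := by gcongr; linarith
      _ = η ^ 5 := by rw [hδ]; field_simp

theorem lg_nonneg {s : ℝ} (hs : 0 ≤ s) : 1 ≤ lg s := lg_one_le hs

/-- `L⁵` controls `L^p`. -/
theorem eLpNorm_le_five {p : ℝ≥0∞} (hp : p ≤ 5) {f : ℝ → Y}
    (hf : AEStronglyMeasurable f (volume.restrict (Ioc 0 T))) :
    eLpNorm f p (volume.restrict (Ioc 0 T)) ≤ eLpNorm f 5 (volume.restrict (Ioc 0 T))
      * (volume.restrict (Ioc 0 T) : Measure ℝ) univ ^ (1 / p.toReal - 1 / (5 : ℝ≥0∞).toReal) :=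
  eLpNorm_le_eLpNorm_mul_rpow_measure_univ hp hf

theorem strong_near (Fr : Frame W m C) (hν : 0 < ν) (hT : 0 < T)
    (hcomp : ∀ R : ℝ, TotallyBounded {v : H | ∃ z, (v, z) ∈ W ∧ ‖z‖ ≤ R})
    {F F1 : ℝ → K} (hF1 : MemLp F1 2 (volume.restrict (Ioc 0 T)))
    (hF : ∀ a b, 0 ≤ a → a ≤ b → b ≤ T → F b - F a = ∫ s in a..b, F1 s)
    {x0 : H} {z0 : K} (h0 : (x0, z0) ∈ W) {g0 : H} {a : ℝ} (ha : ν ≤ a)
    (hc : ∀ p ∈ W, ⟪F 0 - a • z0 + m x0, p.2⟫_ℝ = ⟪g0, p.1⟫_ℝ)
    {p : ℝ≥0∞} (hp1 : 1 ≤ p) (hp5 : p ≤ 5) {n : ℝ → ℝ}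
    (hn : MemLp n p (volume.restrict (Ioc 0 T)))
    (hlow : ∀ᵐ s ∂(volume.restrict (Ioc 0 T)), ν ≤ n s) {ε : ℝ} (hε : 0 < ε) :
    ∃ (nb : ℝ → ℝ) (ub ub1 : ℝ → H) (zb zb1 : ℝ → K) (Z : ℝ),
      St W m T nb F x0 ub zb ub1 zb1 Z ∧ (∀ t ∈ Icc 0 T, ν ≤ nb t) ∧
      eLpNorm (nb - n) p (volume.restrict (Ioc 0 T)) ≤ ENNReal.ofReal ε := by
  have hptop : p ≠ ⊤ := ne_top_of_le_ne_top (by norm_num) hp5
  have hp0 : 0 < p.toReal := ENNReal.toReal_pos (by
    intro h; rw [h] at hp1; exact absurd hp1 (by norm_num)) hptop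
  -- the constant of the embedding
  set κ : ℝ≥0∞ := (volume.restrict (Ioc 0 T) : Measure ℝ) univ
    ^ (1 / p.toReal - 1 / (5 : ℝ≥0∞).toReal) with hκ
  have hκtop : κ ≠ ⊤ := by
    rw [hκ]
    refine ENNReal.rpow_ne_top_of_nonneg ?_ (measure_ne_top _ _)
    have : p.toReal ≤ (5 : ℝ≥0∞).toReal := ENNReal.toReal_mono (by norm_num) hp5
    have := one_div_le_one_div_of_le hp0 this
    linarith
  set κr : ℝ := κ.toReal with hκr
  have hκr0 : 0 ≤ κr := ENNReal.toReal_nonneg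
  have hκe : κ = ENNReal.ofReal κr := (ENNReal.ofReal_toReal hκtop).symm
  set η : ℝ := ε / (3 * (κr + 1)) with hη
  have hη0 : 0 < η := by positivity
  have hfive : ∀ f : ℝ → ℝ, AEStronglyMeasurable f (volume.restrict (Ioc 0 T)) →
      eLpNorm f 5 (volume.restrict (Ioc 0 T)) ≤ ENNReal.ofReal η →
      eLpNorm f p (volume.restrict (Ioc 0 T)) ≤ ENNReal.ofReal (ε / 3) := by
    intro f hf hf5
    refine (eLpNorm_le_five hp5 hf).trans ?_
    rw [← hκ, hκe]
    calc eLpNorm f 5 (volume.restrict (Ioc 0 T)) * ENNReal.ofReal κr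
        ≤ ENNReal.ofReal η * ENNReal.ofReal κr := by gcongr
      _ = ENNReal.ofReal (η * κr) := (ENNReal.ofReal_mul hη0.le).symm
      _ ≤ _ := by
          refine ENNReal.ofReal_le_ofReal ?_
          rw [hη, div_mul_eq_mul_div, div_le_div_iff₀ (by positivity) (by norm_num)]
          nlinarith
  -- smooth approximation
  obtain ⟨g, hg1, hg2, hg3⟩ := hn.exist_eLpNorm_sub_le hptop hp1 (ε := ε / 3) (by positivity)
  obtain ⟨Bg, hBg⟩ := ContDiff.lipschitzWith_of_hasCompactSupport hg1 (hg2.of_le (m := 1) (by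
    exact_mod_cast le_top)) (by norm_num)
  let n1 : ℝ → ℝ := fun t => max (g t) ν
  have hn1c : Continuous n1 := hg2.continuous.max continuous_const
  have hn1lip : ∀ s ∈ Icc 0 T, ∀ t ∈ Icc 0 T, ‖n1 s - n1 t‖ ≤ Bg * |s - t| := by
    intro s _ t _
    have h1 : |n1 s - n1 t| ≤ |g s - g t| := by
      have := abs_max_sub_max_le_max (g s) ν (g t) ν
      simpa using this
    have h2 := hBg.dist_le_mul s t
    rw [Real.dist_eq, Real.dist_eq] at h2
    rw [Real.norm_eq_abs]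
    exact h1.trans h2
  obtain ⟨M, hM⟩ := (isCompact_Icc.image_of_continuousOn
    (hn1c.continuousOn (s := Icc 0 T))).isBounded.exists_norm_le
  have hM' : ∀ t ∈ Icc 0 T, ‖n1 t‖ ≤ M := fun t ht => hM _ ⟨t, ht, rfl⟩
  have hM0 : 0 ≤ M := (norm_nonneg _).trans (hM' 0 ⟨le_rfl, hT.le⟩)
  have hn1n : eLpNorm (n1 - n) p (volume.restrict (Ioc 0 T)) ≤ ENNReal.ofReal (ε / 3) := by
    refine le_trans (eLpNorm_mono_ae ?_) hg3
    filter_upwards [hlow] with s hs
    show ‖max (g s) ν - n s‖ ≤ ‖n s - g s‖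
    rw [norm_sub_rev (n s)]
    have := abs_max_sub_max_le_max (g s) ν (n s) ν
    rw [max_eq_left hs] at this
    simpa using this
  -- correction at time zero
  obtain ⟨n2, B2, k1, k2, k3, k4, k5, k6⟩ := cut hT (Y := ℝ) Bg.coe_nonneg hM0 hn1lip hM' a hη0
  have hlow2 : ∀ t ∈ Icc 0 T, ν ≤ n2 t := by
    intro t ht
    obtain ⟨θ, hθ, e⟩ := k4 t ht
    rw [e, smul_eq_mul, smul_eq_mul]
    have h1 : ν ≤ n1 t := le_max_right _ _
    nlinarith [hθ.1, hθ.2]
  have N : Base n2 ν T B2 := ⟨k2, hlow2, fun s hs t ht => by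
    have := k3 s hs t ht
    rwa [Real.norm_eq_abs] at this⟩
  -- the closed-loop solution
  obtain ⟨u, u1, z, z1, lam, g1, c1, a1, a2, a3, a4, a5, a6, a7, a8, a9, a10, a11, a12, a13, a14,
    a15, a16, a17⟩ := main_abs Fr N hν hT hF1 hF hcomp h0 (g0 := g0) (by rw [k1]; exact hc)
      (ε := η ^ 5) (by positivity)
  have hlamm : MemLp lam 5 (volume.restrict (Ioc 0 T)) := mem_cont a11
  have hlam5 : eLpNorm lam 5 (volume.restrict (Ioc 0 T)) ≤ ENNReal.ofReal η := by
    refine eLpNorm_five_le hlamm hη0.le ?_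
    rw [intervalIntegral.integral_of_le hT.le] at a15
    refine le_trans ?_ a15
    refine integral_mono_of_nonneg (Eventually.of_forall fun s => by positivity) ?_
      (Eventually.of_forall fun s => ?_)
    · have : ContinuousOn (fun t => lam t ^ 5 * lg (lam t)) (Icc 0 T) :=
        (a11.pow 5).mul (lg_cont.comp a11 (fun t _ => a12 t))
      exact (mem_cont (p := 1) this).integrable le_rfl
    · show ‖lam s‖ ^ 5 ≤ lam s ^ 5 * lg (lam s)
      rw [Real.norm_eq_abs, abs_of_nonneg (a12 s)]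
      have := lg_one_le (a12 s)
      have h5 : 0 ≤ lam s ^ 5 := pow_nonneg (a12 s) 5
      nlinarith
  have hzc : ContinuousOn z (Icc 0 T) := prim_cont a4 a7
  obtain ⟨Z, hZ⟩ := (isCompact_Icc.image_of_continuousOn hzc).isBounded.exists_norm_le
  refine ⟨fun t => n2 t + lam t, u, u1, z, z1, Z, ?_, fun t ht => ?_, ?_⟩
  · constructor
    · exact a1
    · exact a2
    · exact a3
    · exact a4
    · exact a6
    · exact a7
    · filter_upwards [a9] with s hs
      exact hs.1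
    · exact k5.add a11
    · exact prim_cont hF1 hF
    · intro q hq t ht
      rw [← a1]
      exact a10 q hq t ht
    · intro t ht
      rw [← a1]
      exact a17 t ht
    · intro t ht
      exact hZ _ ⟨t, ht, rfl⟩
  · show ν ≤ n2 t + lam t
    linarith [hlow2 t ht, a12 t]
  · have hm2 : AEStronglyMeasurable (n2 - n1) (volume.restrict (Ioc 0 T)) :=
      (mem_cont (p := 1) (k5.sub hn1c.continuousOn)).aestronglyMeasurable
    have hm1 : AEStronglyMeasurable (n1 - n) (volume.restrict (Ioc 0 T)) :=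
      hn1c.aestronglyMeasurable.sub hn.aestronglyMeasurable
    have h1 := hfive _ hm2 k6
    have h2 := hfive _ hlamm.aestronglyMeasurable hlam5
    have e : (fun t => n2 t + lam t) - n = lam + ((n2 - n1) + (n1 - n)) := by
      ext t; simp only [Pi.sub_apply, Pi.add_apply]; ring
    rw [e]
    calc eLpNorm (lam + ((n2 - n1) + (n1 - n))) p (volume.restrict (Ioc 0 T))
        ≤ eLpNorm lam p (volume.restrict (Ioc 0 T))
          + eLpNorm ((n2 - n1) + (n1 - n)) p (volume.restrict (Ioc 0 T)) :=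
          eLpNorm_add_le hlamm.aestronglyMeasurable (hm2.add hm1) hp1
      _ ≤ ENNReal.ofReal (ε / 3) + (ENNReal.ofReal (ε / 3) + ENNReal.ofReal (ε / 3)) := by
          gcongr
          exact (eLpNorm_add_le hm2 hm1 hp1).trans (add_le_add h1 hn1n)
      _ = ENNReal.ofReal ε := by
          rw [← ENNReal.ofReal_add (by positivity) (by positivity),
            ← ENNReal.ofReal_add (by positivity) (by positivity)]
          congr 1; ring

end H772R2.NSG
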