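import Mathlib
import Pool.Agent.H772R2.NSG.Near

/-!
Generic well-posedness.
-/

set_option linter.unusedSectionVars false

open MeasureTheory Set Filter Topology Metric
open scoped InnerProductSpace NNReal ENNReal ContDiff

namespace H772R2.NSG

open H772R2.NSR (Frame grad_unique prim_cont ii_of_cont ii_mono young4 ae_deriv_of_prim
  hasDerivAt_prim memLp_ii exists_weak_deriv')

variable {H K : Type*} [NormedAddCommGroup H] [InnerProductSpace ℝ H] [CompleteSpace H]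
  [NormedAddCommGroup K] [InnerProductSpace ℝ K] [CompleteSpace K]
variable {Y : Type*} [NormedAddCommGroup Y] [InnerProductSpace ℝ Y] [CompleteSpace Y]

variable {W : Submodule ℝ (H × K)} {m : H → K} {C : ℝ}
  {ν T : ℝ}

theorem data_near (Fr : Frame W m C) (hν : 0 < ν) (hT : 0 < T) {x0 : H} {z0 : K}
    {F : ℝ → K} (hF : MemLp F 2 (volume.restrict (Ioc 0 T))) {ε : ℝ} (hε : 0 < ε) :
    ∃ Fb F1 : ℝ → K, MemLp F1 2 (volume.restrict (Ioc 0 T)) ∧
      (∀ a b, 0 ≤ a → a ≤ b → b ≤ T → Fb b - Fb a = ∫ s in a..b, F1 s) ∧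
      (∀ p ∈ W, ⟪Fb 0 - ν • z0 + m x0, p.2⟫_ℝ = ⟪(0 : H), p.1⟫_ℝ) ∧
      ContinuousOn Fb (Icc 0 T) ∧
      eLpNorm (Fb - F) 2 (volume.restrict (Ioc 0 T)) ≤ ENNReal.ofReal ε := by
  set κ : ℝ≥0∞ := (volume.restrict (Ioc 0 T) : Measure ℝ) univ
    ^ (1 / (2 : ℝ≥0∞).toReal - 1 / (5 : ℝ≥0∞).toReal) with hκ
  have hκtop : κ ≠ ⊤ := by
    rw [hκ]
    refine ENNReal.rpow_ne_top_of_nonneg ?_ (measure_ne_top _ _)
    norm_num
  set κr : ℝ := κ.toReal with hκr
  have hκr0 : 0 ≤ κr := ENNReal.toReal_nonneg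
  have hκe : κ = ENNReal.ofReal κr := (ENNReal.ofReal_toReal hκtop).symm
  set η : ℝ := ε / (2 * (κr + 1)) with hη
  have hη0 : 0 < η := by positivity
  obtain ⟨g, hg1, hg2, hg3⟩ := hF.exist_eLpNorm_sub_le (by norm_num) (by norm_num) (ε := ε / 2)
    (by positivity)
  obtain ⟨Bg, hBg⟩ := ContDiff.lipschitzWith_of_hasCompactSupport hg1 (hg2.of_le (m := 1) (by
    exact_mod_cast le_top)) (by norm_num)
  have hlip : ∀ s ∈ Icc 0 T, ∀ t ∈ Icc 0 T, ‖g s - g t‖ ≤ Bg * |s - t| := by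
    intro s _ t _
    have h2 := hBg.dist_le_mul s t
    rwa [dist_eq_norm, Real.dist_eq] at h2
  obtain ⟨M, hM⟩ := (isCompact_Icc.image_of_continuousOn
    (hg2.continuous.continuousOn (s := Icc 0 T))).isBounded.exists_norm_le
  have hM' : ∀ t ∈ Icc 0 T, ‖g t‖ ≤ M := fun t ht => hM _ ⟨t, ht, rfl⟩
  have hM0 : 0 ≤ M := (norm_nonneg _).trans (hM' 0 ⟨le_rfl, hT.le⟩)
  obtain ⟨G, B2, k1, k2, k3, -, k5, k6⟩ := cut hT Bg.coe_nonneg hM0 hlip hM'
    (ν • z0 - m x0) hη0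
  obtain ⟨D, hD1, hD2⟩ := exists_weak_deriv' hT k5 (c := B2 ^ 2 * T) (by
    intro h hh hhT
    calc ∫ s in (0 : ℝ)..(T - h), ‖G (s + h) - G s‖ ^ 2
        ≤ ∫ s in (0 : ℝ)..(T - h), (B2 * h) ^ 2 := by
          refine intervalIntegral.integral_mono_on (by linarith) ?_ intervalIntegrable_const ?_
          · refine ContinuousOn.intervalIntegrable ?_
            rw [uIcc_of_le (by linarith)]
            refine (ContinuousOn.sub (k5.comp (by fun_prop) fun s hs =>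
              ⟨by linarith [hs.1], by linarith [hs.2]⟩)
              (k5.mono (Icc_subset_Icc_right (by linarith)))).norm.pow 2
          · intro s hs
            have := k3 (s + h) ⟨by linarith [hs.1], by linarith [hs.2]⟩ s
              ⟨hs.1, by linarith [hs.2]⟩
            rw [add_sub_cancel_left, abs_of_pos hh] at this
            gcongr
      _ = (T - h) * (B2 * h) ^ 2 := by
          rw [intervalIntegral.integral_const, smul_eq_mul, sub_zero]
      _ ≤ T * (B2 * h) ^ 2 := by gcongr; linarith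
      _ = B2 ^ 2 * T * h ^ 2 := by ring)
  refine ⟨G, D, hD1, hD2, ?_, k5, ?_⟩
  · intro p _
    rw [k1]
    simp
  · have hmG : AEStronglyMeasurable (G - g) (volume.restrict (Ioc 0 T)) :=
      (mem_cont (p := 1) (k5.sub hg2.continuous.continuousOn)).aestronglyMeasurable
    have hmg : AEStronglyMeasurable (g - F) (volume.restrict (Ioc 0 T)) :=
      hg2.continuous.aestronglyMeasurable.sub hF.aestronglyMeasurable
    have e : G - F = (G - g) + (g - F) := by abel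
    rw [e]
    have h1 : eLpNorm (G - g) 2 (volume.restrict (Ioc 0 T)) ≤ ENNReal.ofReal (ε / 2) := by
      refine (eLpNorm_le_five (by norm_num) hmG).trans ?_
      rw [← hκ, hκe]
      calc eLpNorm (G - g) 5 (volume.restrict (Ioc 0 T)) * ENNReal.ofReal κr
          ≤ ENNReal.ofReal η * ENNReal.ofReal κr := by gcongr
        _ = ENNReal.ofReal (η * κr) := (ENNReal.ofReal_mul hη0.le).symm
        _ ≤ _ := by
            refine ENNReal.ofReal_le_ofReal ?_
            rw [hη, div_mul_eq_mul_div, div_le_div_iff₀ (by positivity) (by norm_num)]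
            nlinarith
    have h2 : eLpNorm (g - F) 2 (volume.restrict (Ioc 0 T)) ≤ ENNReal.ofReal (ε / 2) := by
      rw [eLpNorm_sub_comm]; exact hg3
    calc eLpNorm ((G - g) + (g - F)) 2 (volume.restrict (Ioc 0 T))
        ≤ _ := eLpNorm_add_le hmG hmg (by norm_num)
      _ ≤ ENNReal.ofReal (ε / 2) + ENNReal.ofReal (ε / 2) := add_le_add h1 h2
      _ = ENNReal.ofReal ε := by
          rw [← ENNReal.ofReal_add (by positivity) (by positivity)]; congr 1; ring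

/-- strong solutions are Leray-Hopf solutions. -/
theorem St.toLH (Fr : Frame W m C) (_hT : 0 < T) {n nb : ℝ → ℝ} {F Fb : ℝ → K} {xb0 : H}
    {ub ub1 : ℝ → H} {zb zb1 : ℝ → K} {Z : ℝ} (S : St W m T nb Fb xb0 ub zb ub1 zb1 Z)
    (hn : n =ᵐ[volume.restrict (Ioc 0 T)] nb) (hF : F =ᵐ[volume.restrict (Ioc 0 T)] Fb) :
    LH W m T n F xb0 ub zb := by
  have hsub : ∀ t ∈ Icc 0 T, (volume.restrict (Ioc 0 t) : Measure ℝ)
      ≤ volume.restrict (Ioc 0 T) := fun t ht =>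
    Measure.restrict_mono (Ioc_subset_Ioc_right ht.2) le_rfl
  refine ⟨S.init, (mem_cont (p := 1) S.uc).aestronglyMeasurable,
    (mem_cont (p := 1) (S.mc Fr)).aestronglyMeasurable, ?_, mem_cont S.zc, ?_, ?_, ?_⟩
  · filter_upwards [ae_restrict_mem measurableSet_Ioc] with s hs
    exact S.mem s (Ioc_subset_Icc_self hs)
  · have : ContinuousOn (fun s => nb s * ‖zb s‖ ^ 2) (Icc 0 T) := S.nc.mul (S.zc.norm.pow 2)
    refine ((mem_cont (p := 1) this).integrable le_rfl).congr ?_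
    filter_upwards [hn] with s hs
    rw [hs]
  · intro p hp t ht
    rw [S.weak p hp t ht, intervalIntegral.integral_of_le ht.1,
      intervalIntegral.integral_of_le ht.1]
    refine integral_congr_ae ?_
    filter_upwards [ae_mono (hsub t ht) hn, ae_mono (hsub t ht) hF] with s h1 h2
    rw [h1, h2]
  · intro t ht
    refine le_of_eq ?_
    have e1 : ∫ s in (0 : ℝ)..t, n s * ‖zb s‖ ^ 2 = ∫ s in (0 : ℝ)..t, nb s * ‖zb s‖ ^ 2 := by
      rw [intervalIntegral.integral_of_le ht.1, intervalIntegral.integral_of_le ht.1]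
      refine integral_congr_ae ?_
      filter_upwards [ae_mono (hsub t ht) hn] with s h1
      rw [h1]
    have e2 : ∫ s in (0 : ℝ)..t, ⟪F s, zb s⟫_ℝ = ∫ s in (0 : ℝ)..t, ⟪Fb s, zb s⟫_ℝ := by
      rw [intervalIntegral.integral_of_le ht.1, intervalIntegral.integral_of_le ht.1]
      refine integral_congr_ae ?_
      filter_upwards [ae_mono (hsub t ht) hF] with s h1
      rw [h1]
    rw [e1, e2]
    exact S.energy t ht

/-- the parameter spaces. -/
structure Par (W : Submodule ℝ (H × K)) (ν T : ℝ) (p : ℝ≥0∞) (X D : Type*) [MetricSpace X]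
    [MetricSpace D] (nX : X → ℝ → ℝ) (xD : D → H) (FD : D → ℝ → K) : Prop where
  nmem : ∀ x, MemLp (nX x) p (volume.restrict (Ioc 0 T))
  nlow : ∀ x, ∀ᵐ s ∂(volume.restrict (Ioc 0 T)), ν ≤ nX x s
  ndist : ∀ x y, eLpNorm (nX x - nX y) p (volume.restrict (Ioc 0 T)) ≤ ENNReal.ofReal (dist x y)
  nreal : ∀ n : ℝ → ℝ, MemLp n p (volume.restrict (Ioc 0 T)) →
    (∀ᵐ s ∂(volume.restrict (Ioc 0 T)), ν ≤ n s) → ∃ x, nX x =ᵐ[volume.restrict (Ioc 0 T)] n
  nclose : ∀ x y (ε : ℝ), 0 < ε →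
    eLpNorm (nX x - nX y) p (volume.restrict (Ioc 0 T)) ≤ ENNReal.ofReal ε → dist x y ≤ ε
  Fmem : ∀ d, MemLp (FD d) 2 (volume.restrict (Ioc 0 T))
  xdist : ∀ d e, ‖xD d - xD e‖ ≤ dist d e
  Fdist : ∀ d e, eLpNorm (FD d - FD e) 2 (volume.restrict (Ioc 0 T)) ≤ ENNReal.ofReal (dist d e)
  dreal : ∀ w ∈ W, ∀ F : ℝ → K, MemLp F 2 (volume.restrict (Ioc 0 T)) →
    ∃ d, xD d = w.1 ∧ FD d =ᵐ[volume.restrict (Ioc 0 T)] F
  dclose : ∀ d e (ε : ℝ), 0 < ε → ‖xD d - xD e‖ ≤ ε →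
    eLpNorm (FD d - FD e) 2 (volume.restrict (Ioc 0 T)) ≤ ENNReal.ofReal ε → dist d e ≤ ε
  ddense : ∀ d (ε : ℝ), 0 < ε → ∃ w ∈ W, ‖xD d - w.1‖ ≤ ε

/-- `L^p`, `p ≥ 2`, controls `L²`. -/
theorem int_sq_le_of_eLpNorm {p : ℝ≥0∞} (hp2 : 2 ≤ p) {f : ℝ → Y}
    (hf : MemLp f p (volume.restrict (Ioc 0 T))) :
    ∫ s in Ioc 0 T, ‖f s‖ ^ 2 ≤ ((eLpNorm f p (volume.restrict (Ioc 0 T))
      * (volume.restrict (Ioc 0 T) : Measure ℝ) univ
        ^ (1 / (2 : ℝ≥0∞).toReal - 1 / p.toReal)).toReal) ^ 2 := by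
  have hf2 : MemLp f 2 (volume.restrict (Ioc 0 T)) := hf.mono_exponent hp2
  have h1 := eLpNorm_le_eLpNorm_mul_rpow_measure_univ hp2 hf.aestronglyMeasurable
  have htop : eLpNorm f p (volume.restrict (Ioc 0 T))
      * (volume.restrict (Ioc 0 T) : Measure ℝ) univ
        ^ (1 / (2 : ℝ≥0∞).toReal - 1 / p.toReal) ≠ ⊤ := by
    refine ENNReal.mul_ne_top hf.eLpNorm_ne_top (ENNReal.rpow_ne_top_of_nonneg ?_
      (measure_ne_top _ _))
    rcases eq_or_ne p ⊤ with rfl | hp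
    · simp
    · have : (2 : ℝ≥0∞).toReal ≤ p.toReal := ENNReal.toReal_mono hp hp2
      have := one_div_le_one_div_of_le (by norm_num) this
      linarith
  have h2 := ENNReal.toReal_mono htop h1
  have e : ∫ s in Ioc 0 T, ‖f s‖ ^ 2 = ((eLpNorm f 2 (volume.restrict (Ioc 0 T))).toReal) ^ 2 := by
    rw [MemLp.eLpNorm_eq_integral_rpow_norm (by norm_num) (by norm_num) hf2,
      ENNReal.toReal_ofReal (by positivity)]
    have e2 : ((2 : ℝ≥0∞).toReal) = 2 := by norm_num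
    have h0 : 0 ≤ ∫ s in Ioc 0 T, ‖f s‖ ^ 2 := integral_nonneg fun s => by positivity
    simp only [e2]
    rw [show (2 : ℝ) = ((2 : ℕ) : ℝ) by norm_num]
    simp_rw [Real.rpow_natCast]
    rw [← Real.rpow_natCast (_ ^ _), ← Real.rpow_mul h0]
    norm_num
  rw [e]
  gcongr

end H772R2.NSG
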