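import Mathlib
import Pool.Agent.H772R2.NSG.Near

/-!
Gluing of functions in time.
-/

set_option linter.unusedSectionVars false

open MeasureTheory Set Filter Topology Metric
open scoped InnerProductSpace NNReal ENNReal ContDiff

namespace H772R2.NSG

/-- the function `a` up to time `T`, then `b(t - T)`. -/
noncomputable def gl {Y : Type*} (T : ℝ) (a b : ℝ → Y) (t : ℝ) : Y :=
  if t ≤ T then a t else b (t - T)

theorem gl_le {Y : Type*} {T t : ℝ} {a b : ℝ → Y} (h : t ≤ T) : gl T a b t = a t := by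
  simp [gl, h]

theorem gl_gt {Y : Type*} {T t : ℝ} {a b : ℝ → Y} (h : T < t) : gl T a b t = b (t - T) := by
  simp [gl, not_le.mpr h]

theorem gl_ge {Y : Type*} {T t : ℝ} {a b : ℝ → Y} (h0 : b 0 = a T) (h : T ≤ t) :
    gl T a b t = b (t - T) := by
  rcases h.eq_or_lt with rfl | h
  · rw [gl_le le_rfl, sub_self, h0]
  · exact gl_gt h

theorem gl_ae {Y : Type*} {T S : ℝ} {a b : ℝ → Y} {P : Y → Prop}
    (ha : ∀ᵐ s ∂(volume.restrict (Ioc 0 T)), P (a s))
    (hb : ∀ᵐ s ∂(volume.restrict (Ioc 0 S)), P (b s)) :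
    ∀ᵐ s ∂(volume.restrict (Ioc 0 (T + S))), P (gl T a b s) := by
  have hb' : ∀ᵐ s ∂(volume.restrict (Ioc T (T + S))), P (b (s - T)) := by
    have h1 : MeasurePreserving (fun s : ℝ => s - T) (volume.restrict (Ioc T (T + S)))
        (volume.restrict (Ioc 0 S)) := by
      have := (measurePreserving_sub_right (volume : Measure ℝ) T).restrict_preimage
        (measurableSet_Ioc (a := (0 : ℝ)) (b := S))
      have e : (fun s : ℝ => s - T) ⁻¹' Ioc 0 S = Ioc T (T + S) := by
        ext s; simp only [mem_preimage, mem_Ioc]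
        constructor <;> intro h <;> constructor <;> linarith [h.1, h.2]
      rwa [e] at this
    exact h1.quasiMeasurePreserving.ae hb
  rw [ae_restrict_iff' measurableSet_Ioc] at ha hb' ⊢
  filter_upwards [ha, hb'] with s h1 h2 hs
  by_cases h : s ≤ T
  · rw [gl_le h]; exact h1 ⟨hs.1, h⟩
  · rw [gl_gt (not_le.mp h)]; exact h2 ⟨not_le.mp h, hs.2⟩

variable {Y : Type*} [NormedAddCommGroup Y] [InnerProductSpace ℝ Y] [CompleteSpace Y]

theorem gl_int_le {T : ℝ} {a b : ℝ → Y} {c d : ℝ} (hcd : c ≤ d) (hd : d ≤ T) :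
    ∫ s in c..d, gl T a b s = ∫ s in c..d, a s := by
  refine intervalIntegral.integral_congr fun s hs => ?_
  rw [uIcc_of_le hcd] at hs
  exact gl_le (hs.2.trans hd)

theorem gl_int_ge {T : ℝ} {a b : ℝ → Y} {c d : ℝ} (hcd : c ≤ d) (hc : T ≤ c) :
    ∫ s in c..d, gl T a b s = ∫ s in (c - T)..(d - T), b s := by
  have h1 : ∫ s in c..d, gl T a b s = ∫ s in c..d, b (s - T) := by
    rw [intervalIntegral.integral_of_le hcd, intervalIntegral.integral_of_le hcd]
    refine setIntegral_congr_fun measurableSet_Ioc fun s hs => ?_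
    exact gl_gt (hc.trans_lt hs.1)
  rw [h1, intervalIntegral.integral_comp_sub_right]

theorem gl_memLp {T S : ℝ} (hT : 0 ≤ T) (hS : 0 ≤ S) {p : ℝ≥0∞} {a b : ℝ → Y}
    (ha : MemLp a p (volume.restrict (Ioc 0 T))) (hb : MemLp b p (volume.restrict (Ioc 0 S))) :
    MemLp (gl T a b) p (volume.restrict (Ioc 0 (T + S))) := by
  have hb' : MemLp (fun s => b (s - T)) p (volume.restrict (Ioc T (T + S))) := by
    have h1 : MeasurePreserving (fun s : ℝ => s - T) (volume.restrict (Ioc T (T + S)))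
        (volume.restrict (Ioc 0 S)) := by
      have := (measurePreserving_sub_right (volume : Measure ℝ) T).restrict_preimage
        (measurableSet_Ioc (a := (0 : ℝ)) (b := S))
      have e : (fun s : ℝ => s - T) ⁻¹' Ioc 0 S = Ioc T (T + S) := by
        ext s; simp only [mem_preimage, mem_Ioc]
        constructor <;> intro h <;> constructor <;> linarith [h.1, h.2]
      rwa [e] at this
    exact hb.comp_measurePreserving h1
  have e1 : gl T a b = (Iic T).piecewise a (fun s => b (s - T)) := by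
    ext s
    by_cases h : s ≤ T
    · rw [gl_le h, piecewise_eq_of_mem _ _ _ (show s ∈ Iic T from h)]
    · rw [gl_gt (not_le.mp h), piecewise_eq_of_notMem _ _ _ (show s ∉ Iic T from h)]
  rw [e1]
  refine MemLp.piecewise measurableSet_Iic ?_ ?_
  · rw [Measure.restrict_restrict measurableSet_Iic]
    have e2 : Iic T ∩ Ioc 0 (T + S) = Ioc 0 T := by
      ext s; simp only [mem_inter_iff, mem_Iic, mem_Ioc]
      exact ⟨fun h => ⟨h.2.1, h.1⟩, fun h => ⟨h.2, h.1, h.2.trans (by linarith)⟩⟩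
    rwa [e2]
  · rw [Measure.restrict_restrict measurableSet_Iic.compl]
    have e2 : (Iic T)ᶜ ∩ Ioc 0 (T + S) = Ioc T (T + S) := by
      ext s; simp only [mem_inter_iff, mem_compl_iff, mem_Iic, mem_Ioc, not_le]
      exact ⟨fun h => ⟨h.1, h.2.2⟩, fun h => ⟨h.1, hT.trans_lt h.1, h.2⟩⟩
    rwa [e2]

theorem gl_cont {T S : ℝ} (hT : 0 ≤ T) (hS : 0 ≤ S) {a b : ℝ → Y} (ha : ContinuousOn a (Icc 0 T))
    (hb : ContinuousOn b (Icc 0 S)) (h0 : b 0 = a T) :
    ContinuousOn (gl T a b) (Icc 0 (T + S)) := by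
  have e : Icc 0 (T + S) = Icc 0 T ∪ Icc T (T + S) :=
    (Icc_union_Icc_eq_Icc hT (by linarith)).symm
  rw [e]
  refine ContinuousOn.union_of_isClosed ?_ ?_ isClosed_Icc isClosed_Icc
  · exact ha.congr fun s hs => gl_le hs.2
  · refine ContinuousOn.congr (f := fun s => b (s - T)) ?_ fun s hs => gl_ge h0 hs.1
    exact hb.comp (by fun_prop) fun s hs => ⟨by linarith [hs.1], by linarith [hs.2]⟩

theorem gl_prim {T S : ℝ} (hT : 0 ≤ T) {a a1 b b1 : ℝ → Y}
    (ha1 : MemLp a1 2 (volume.restrict (Ioc 0 T))) (hb1 : MemLp b1 2 (volume.restrict (Ioc 0 S)))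
    (hS : 0 ≤ S)
    (ha : ∀ c d, 0 ≤ c → c ≤ d → d ≤ T → a d - a c = ∫ s in c..d, a1 s)
    (hb : ∀ c d, 0 ≤ c → c ≤ d → d ≤ S → b d - b c = ∫ s in c..d, b1 s) (h0 : b 0 = a T) :
    ∀ c d, 0 ≤ c → c ≤ d → d ≤ T + S → gl T a b d - gl T a b c = ∫ s in c..d, gl T a1 b1 s := by
  intro c d hc hcd hd
  have hL : ∀ c d, 0 ≤ c → c ≤ d → d ≤ T → gl T a b d - gl T a b c
      = ∫ s in c..d, gl T a1 b1 s := by
    intro c d hc hcd hd
    rw [gl_int_le hcd hd, gl_le hd, gl_le (hcd.trans hd), ha c d hc hcd hd]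
  have hR : ∀ c d, T ≤ c → c ≤ d → d ≤ T + S → gl T a b d - gl T a b c
      = ∫ s in c..d, gl T a1 b1 s := by
    intro c d hc hcd hd
    rw [gl_int_ge hcd hc, gl_ge h0 (hc.trans hcd), gl_ge h0 hc,
      hb (c - T) (d - T) (by linarith) (by linarith) (by linarith)]
  rcases le_or_gt d T with h1 | h1
  · exact hL c d hc hcd h1
  rcases le_or_gt T c with h2 | h2
  · exact hR c d h2 hcd hd
  have hi := (gl_memLp hT hS ha1 hb1).integrable (by norm_num)
  rw [← intervalIntegral.integral_add_adjacent_intervals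
    (ii_of_int (b := T) hi hc h2.le (by linarith)) (ii_of_int hi hT h1.le hd),
    ← hL c T hc h2.le le_rfl, ← hR T d le_rfl h1.le hd]
  abel

end H772R2.NSG
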