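import Mathlib
import Pool.Agent.H772R2.NSG.Glue

/-!
Controlled strong solutions on successive intervals of time.
-/

set_option linter.unusedSectionVars false

open MeasureTheory Set Filter Topology Metric
open scoped InnerProductSpace NNReal ENNReal ContDiff

namespace H772R2.NSG

open H772R2.NSR (Frame grad_unique prim_cont ii_of_cont ii_mono young4 ae_deriv_of_prim
  hasDerivAt_prim memLp_ii exists_weak_deriv')

variable {H K : Type*} [NormedAddCommGroup H] [InnerProductSpace ℝ H] [CompleteSpace H]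
  [NormedAddCommGroup K] [InnerProductSpace ℝ K] [CompleteSpace K]
variable {Y : Type*} [NormedAddCommGroup Y] [InnerProductSpace ℝ Y] [CompleteSpace Y]

variable {W : Submodule ℝ (H × K)} {m : H → K} {C : ℝ} {ν T S : ℝ}

/-- Controlled strong solution; the control vanishes at both ends. -/
structure Ctl (W : Submodule ℝ (H × K)) (m : H → K) (ν T : ℝ) (F : ℝ → K) (u u1 : ℝ → H)
    (z z1 g1 : ℝ → K) (lam : ℝ → ℝ) : Prop where
  mem : ∀ t ∈ Icc 0 T, (u t, z t) ∈ W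
  mem1 : ∀ᵐ s ∂(volume.restrict (Ioc 0 T)), (u1 s, z1 s) ∈ W
  bd : ∃ c, ∀ᵐ s ∂(volume.restrict (Ioc 0 T)), ‖u1 s‖ ≤ c
  u1m : MemLp u1 2 (volume.restrict (Ioc 0 T))
  z1m : MemLp z1 2 (volume.restrict (Ioc 0 T))
  g1m : MemLp g1 2 (volume.restrict (Ioc 0 T))
  pu : ∀ a b, 0 ≤ a → a ≤ b → b ≤ T → u b - u a = ∫ s in a..b, u1 s
  pz : ∀ a b, 0 ≤ a → a ≤ b → b ≤ T → z b - z a = ∫ s in a..b, z1 s
  pg : ∀ a b, 0 ≤ a → a ≤ b → b ≤ T → (-(lam b • z b)) - (-(lam a • z a)) = ∫ s in a..b, g1 s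
  weak : ∀ p ∈ W, ∀ t ∈ Icc 0 T, ⟪u t - u 0, p.1⟫_ℝ
    = ∫ s in (0 : ℝ)..t, ⟪F s - (ν + lam s) • z s + m (u s), p.2⟫_ℝ
  lc : ContinuousOn lam (Icc 0 T)
  l0 : ∀ t, 0 ≤ lam t
  lz : lam 0 = 0
  lT : lam T = 0
  energy : ∀ t ∈ Icc 0 T, ‖u t‖ ^ 2 / 2 + ∫ s in (0 : ℝ)..t, (ν + lam s) * ‖z s‖ ^ 2
    = ‖u 0‖ ^ 2 / 2 + ∫ s in (0 : ℝ)..t, ⟪F s, z s⟫_ℝ
  endc : ∃ g : H, ∀ p ∈ W, ⟪F T - ν • z T + m (u T), p.2⟫_ℝ = ⟪g, p.1⟫_ℝ

/-- the costs. -/
noncomputable def cst1 (T : ℝ) (lam : ℝ → ℝ) : ℝ := ∫ t in (0 : ℝ)..T, lam t ^ 5 * lg (lam t)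

noncomputable def cst2 (T : ℝ) (lam : ℝ → ℝ) (z : ℝ → Y) : ℝ :=
  ∫ t in (0 : ℝ)..T, ‖lam t • z t‖ ^ (5 / 3 : ℝ) * lg ‖lam t • z t‖ ^ (1 / 6 : ℝ)

noncomputable def cst0 (T : ℝ) (lam : ℝ → ℝ) : ℝ≥0∞ := volume {t ∈ Icc 0 T | lam t ≠ 0}

section ctl

variable {F : ℝ → K} {u u1 : ℝ → H} {z z1 g1 : ℝ → K} {lam : ℝ → ℝ}

theorem Ctl.uc (S : Ctl W m ν T F u u1 z z1 g1 lam) : ContinuousOn u (Icc 0 T) :=
  prim_cont S.u1m S.pu

theorem Ctl.zc (S : Ctl W m ν T F u u1 z z1 g1 lam) : ContinuousOn z (Icc 0 T) :=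
  prim_cont S.z1m S.pz

theorem Ctl.st (S : Ctl W m ν T F u u1 z z1 g1 lam) (hF : ContinuousOn F (Icc 0 T)) :
    ∃ Z, St W m T (fun t => ν + lam t) F (u 0) u z u1 z1 Z := by
  obtain ⟨Z, hZ⟩ := (isCompact_Icc.image_of_continuousOn S.zc).isBounded.exists_norm_le
  exact ⟨Z, rfl, S.mem, S.u1m, S.z1m, S.pu, S.pz, S.mem1, continuousOn_const.add S.lc, hF, S.weak,
    S.energy, fun t ht => hZ _ ⟨t, ht, rfl⟩⟩

theorem cst1_cont (hl : ContinuousOn lam (Icc 0 T)) (h0 : ∀ t, 0 ≤ lam t) :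
    ContinuousOn (fun t => lam t ^ 5 * lg (lam t)) (Icc 0 T) :=
  (hl.pow 5).mul (lg_cont.comp hl (fun t _ => h0 t))

theorem cst2_cont (hl : ContinuousOn lam (Icc 0 T)) (hz : ContinuousOn z (Icc 0 T)) :
    ContinuousOn (fun t => ‖lam t • z t‖ ^ (5 / 3 : ℝ) * lg ‖lam t • z t‖ ^ (1 / 6 : ℝ))
      (Icc 0 T) := by
  have h1 : ContinuousOn (fun t => ‖lam t • z t‖) (Icc 0 T) := (hl.smul hz).norm
  exact (h1.rpow_const (fun t _ => Or.inr (by norm_num))).mul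
    ((lg_cont.comp h1 (fun t _ => norm_nonneg _)).rpow_const (fun t _ => Or.inr (by norm_num)))

theorem lg_nn {s : ℝ} (hs : 0 ≤ s) : 0 ≤ lg s := zero_le_one.trans (lg_one_le hs)

/-- One segment of time. -/
theorem seg (Fr : Frame W m C) (hν : 0 < ν)
    {F1 : ℝ → K} (hF1 : MemLp F1 2 (volume.restrict (Ioc 0 3)))
    (hF : ∀ a b, 0 ≤ a → a ≤ b → b ≤ 3 → F b - F a = ∫ s in a..b, F1 s)
    (hcomp : ∀ R : ℝ, TotallyBounded {v : H | ∃ z, (v, z) ∈ W ∧ ‖z‖ ≤ R})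
    {x0 : H} {z0 : K} (h0 : (x0, z0) ∈ W) {g0 : H}
    (hc : ∀ p ∈ W, ⟪F 0 - ν • z0 + m x0, p.2⟫_ℝ = ⟪g0, p.1⟫_ℝ) {ε : ℝ} (hε : 0 < ε) :
    ∃ (S : ℝ) (u u1 : ℝ → H) (z z1 g1 : ℝ → K) (lam : ℝ → ℝ), 1 ≤ S ∧ S ≤ 2 ∧ u 0 = x0 ∧
      z 0 = z0 ∧ Ctl W m ν S F u u1 z z1 g1 lam ∧ cst0 S lam ≤ ENNReal.ofReal ε ∧
      cst1 S lam ≤ ε ∧ cst2 S lam z ≤ ε := by
  have N : Base (fun _ => ν) ν 3 0 := ⟨le_rfl, fun _ _ => le_rfl, fun a _ b _ => by simp⟩
  obtain ⟨u, u1, z, z1, lam, g1, c1, a1, a2, a3, a4, a5, a6, a7, a8, a9, a10, a11, a12, a13, a14,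
    a15, a16, a17⟩ := main_abs Fr N hν (T := 3) (by norm_num) hF1 hF hcomp h0 hc
      (ε := min ε (1 / 2)) (lt_min hε (by norm_num))
  have hzc : ContinuousOn z (Icc 0 3) := prim_cont a4 a7
  have hFc : ContinuousOn F (Icc 0 3) := prim_cont hF1 hF
  obtain ⟨Z, hZ⟩ := (isCompact_Icc.image_of_continuousOn hzc).isBounded.exists_norm_le
  have hst : St W m 3 (fun t => ν + lam t) F (u 0) u z u1 z1 Z :=
    ⟨rfl, a2, a3, a4, a6, a7, by filter_upwards [a9] with s hs; exact hs.1,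
      continuousOn_const.add a11, hFc, a10, a17, fun t ht => hZ _ ⟨t, ht, rfl⟩⟩
  have hdw := hst.deriv_weak Fr (by norm_num)
  -- choice of the end point
  obtain ⟨S, hS, hS0, hSg⟩ : ∃ S ∈ Icc (1 : ℝ) 2, lam S = 0 ∧ ∀ p ∈ W,
      ⟪u1 S, p.1⟫_ℝ = ⟪F S - (ν + lam S) • z S + m (u S), p.2⟫_ℝ := by
    by_contra hcon
    push Not at hcon
    have h1 : (Ioc (1 : ℝ) 2 : Set ℝ) ⊆ {t ∈ Icc 0 3 | lam t ≠ 0} ∪
        {s | ¬ (s ∈ Ioc (0 : ℝ) 3 → ∀ p ∈ W,
          ⟪u1 s, p.1⟫_ℝ = ⟪F s - (ν + lam s) • z s + m (u s), p.2⟫_ℝ)} := by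
      intro s hs
      by_cases hl : lam s = 0
      · right
        obtain ⟨p, hp, hne⟩ := hcon s (Ioc_subset_Icc_self hs) hl
        intro hh
        exact hne (hh ⟨by linarith [hs.1], by linarith [hs.2]⟩ p hp)
      · exact Or.inl ⟨⟨by linarith [hs.1], by linarith [hs.2]⟩, hl⟩
    have h2 : volume (Ioc (1 : ℝ) 2) ≤ ENNReal.ofReal (1 / 2) + 0 := by
      refine (measure_mono h1).trans ((measure_union_le _ _).trans (add_le_add ?_ ?_))
      · exact a14.trans (ENNReal.ofReal_le_ofReal (min_le_right _ _))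
      · rw [ae_restrict_iff' measurableSet_Ioc] at hdw
        exact (ae_iff.mp hdw).le
    rw [Real.volume_Ioc, add_zero, ENNReal.ofReal_le_ofReal_iff (by norm_num)] at h2
    norm_num at h2
  have hS3 : S ≤ 3 := hS.2.trans (by norm_num)
  have hS00 : 0 ≤ S := le_trans (by norm_num) hS.1
  have hsubI : Icc 0 S ⊆ Icc 0 3 := Icc_subset_Icc_right hS3
  have hsub : (volume.restrict (Ioc 0 S) : Measure ℝ) ≤ volume.restrict (Ioc 0 3) :=
    Measure.restrict_mono (Ioc_subset_Ioc_right hS3) le_rfl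
  have hz0 : z 0 = z0 := grad_unique Fr (by
    have := a2 0 ⟨le_rfl, by norm_num⟩
    rwa [a1] at this) h0
  refine ⟨S, u, u1, z, z1, g1, lam, hS.1, hS.2, a1, hz0, ?_, ?_, ?_, ?_⟩
  · refine ⟨fun t ht => a2 t (hsubI ht), ?_, ⟨c1, ?_⟩, a3.mono_measure hsub,
      a4.mono_measure hsub, a5.mono_measure hsub, fun a b ha hab hb => a6 a b ha hab (hb.trans hS3),
      fun a b ha hab hb => a7 a b ha hab (hb.trans hS3),
      fun a b ha hab hb => a8 a b ha hab (hb.trans hS3),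
      fun p hp t ht => a10 p hp t (hsubI ht), a11.mono hsubI, a12, a13, hS0,
      fun t ht => a17 t (hsubI ht), ⟨u1 S, fun p hp => ?_⟩⟩
    · filter_upwards [ae_mono hsub a9] with s hs
      exact hs.1
    · filter_upwards [ae_mono hsub a9] with s hs
      exact hs.2
    · rw [hSg p hp, hS0, add_zero]
  · refine (measure_mono ?_).trans (a14.trans (ENNReal.ofReal_le_ofReal (min_le_left _ _)))
    exact fun t ht => ⟨hsubI ht.1, ht.2⟩
  · refine le_trans ?_ (a15.trans (min_le_left _ _))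
    exact ii_mono (cst1_cont a11 a12) (fun t _ => mul_nonneg (pow_nonneg (a12 t) 5)
      (lg_nn (a12 t))) ⟨hS00, hS3⟩
  · refine le_trans ?_ (a16.trans (min_le_left _ _))
    exact ii_mono (cst2_cont a11 hzc) (fun t _ => mul_nonneg (Real.rpow_nonneg (norm_nonneg _) _)
      (Real.rpow_nonneg (lg_nn (norm_nonneg _)) _)) ⟨hS00, hS3⟩

end ctl

section glue

variable {F : ℝ → K} {u u1 v v1 : ℝ → H} {z z1 g1 y y1 h1 : ℝ → K} {lam kap : ℝ → ℝ}

theorem Ctl.glue (Fr : Frame W m C) (hT : 0 ≤ T) (hS : 0 < S)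
    (hF : ContinuousOn F (Icc 0 (T + S)))
    (C1 : Ctl W m ν T F u u1 z z1 g1 lam)
    (C2 : Ctl W m ν S (fun s => F (T + s)) v v1 y y1 h1 kap) (hv : v 0 = u T) (hy : y 0 = z T) :
    Ctl W m ν (T + S) F (gl T u v) (gl T u1 v1) (gl T z y) (gl T z1 y1) (gl T g1 h1)
      (gl T lam kap) := by
  have hF1 : ContinuousOn F (Icc 0 T) := hF.mono (Icc_subset_Icc_right (by linarith))
  have hF2 : ContinuousOn (fun s => F (T + s)) (Icc 0 S) :=
    hF.comp (by fun_prop) fun s hs => ⟨by linarith [hs.1], by linarith [hs.2]⟩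
  obtain ⟨Z1, st1⟩ := C1.st hF1
  obtain ⟨Z2, st2⟩ := C2.st hF2
  have gc1 := st1.gc Fr
  have gc2 := st2.gc Fr
  have hlk : kap 0 = lam T := by rw [C2.lz, C1.lT]
  have gz : gl T z y 0 = z 0 := gl_le hT
  have gu : gl T u v 0 = u 0 := gl_le hT
  -- a general splitting of integrals
  have split : ∀ {f a b : ℝ → ℝ}, (∀ s, f s = gl T a b s) →
      Integrable a (volume.restrict (Ioc 0 T)) → Integrable b (volume.restrict (Ioc 0 S)) →
      ∀ t ∈ Icc 0 (T + S), (t ≤ T → ∫ s in (0 : ℝ)..t, f s = ∫ s in (0 : ℝ)..t, a s) ∧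
        (T ≤ t → ∫ s in (0 : ℝ)..t, f s = (∫ s in (0 : ℝ)..T, a s)
          + ∫ s in (0 : ℝ)..(t - T), b s) := by
    intro f a b hf ha hb t ht
    have hf' : f = gl T a b := funext hf
    rw [hf']
    refine ⟨fun h => gl_int_le ht.1 h, fun h => ?_⟩
    have hi : Integrable (gl T a b) (volume.restrict (Ioc 0 (T + S))) := by
      have := gl_memLp hT hS.le (p := 1) (memLp_one_iff_integrable.mpr ha)
        (memLp_one_iff_integrable.mpr hb)
      exact memLp_one_iff_integrable.mp this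
    rw [← intervalIntegral.integral_add_adjacent_intervals
      (ii_of_int (b := T) hi le_rfl hT (by linarith)) (ii_of_int hi hT h ht.2),
      gl_int_le hT le_rfl, gl_int_ge h le_rfl, sub_self]
  refine ⟨?_, ?_, ?_, gl_memLp hT hS.le C1.u1m C2.u1m, gl_memLp hT hS.le C1.z1m C2.z1m,
    gl_memLp hT hS.le C1.g1m C2.g1m, gl_prim hT C1.u1m C2.u1m hS.le C1.pu C2.pu hv,
    gl_prim hT C1.z1m C2.z1m hS.le C1.pz C2.pz hy, ?_, ?_, gl_cont hT hS.le C1.lc C2.lc hlk,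
    ?_, ?_, ?_, ?_, ?_⟩
  · intro t ht
    rcases le_or_gt t T with h | h
    · rw [gl_le h, gl_le h]; exact C1.mem t ⟨ht.1, h⟩
    · rw [gl_gt h, gl_gt h]; exact C2.mem (t - T) ⟨by linarith, by linarith [ht.2]⟩
  · have := gl_ae (T := T) (S := S) (a := fun s => (u1 s, z1 s)) (b := fun s => (v1 s, y1 s))
      (P := fun q => q ∈ W) C1.mem1 C2.mem1
    filter_upwards [this] with s hs
    rcases le_or_gt s T with h | h
    · rw [gl_le h] at hs; rw [gl_le h, gl_le h]; exact hs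
    · rw [gl_gt h] at hs; rw [gl_gt h, gl_gt h]; exact hs
  · obtain ⟨c, hc⟩ := C1.bd
    obtain ⟨d, hd⟩ := C2.bd
    refine ⟨max c d, gl_ae (P := fun q => ‖q‖ ≤ max c d) ?_ ?_⟩
    · filter_upwards [hc] with s hs
      exact hs.trans (le_max_left _ _)
    · filter_upwards [hd] with s hs
      exact hs.trans (le_max_right _ _)
  · have h0 : (fun t => -(kap t • y t)) 0 = (fun t => -(lam t • z t)) T := by
      simp only [C2.lz, C1.lT, zero_smul, neg_zero]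
    have := gl_prim hT C1.g1m C2.g1m hS.le (a := fun t => -(lam t • z t))
      (b := fun t => -(kap t • y t)) C1.pg C2.pg h0
    have e : ∀ t, gl T (fun t => -(lam t • z t)) (fun t => -(kap t • y t)) t
        = -(gl T lam kap t • gl T z y t) := by
      intro t
      rcases le_or_gt t T with h | h
      · rw [gl_le h, gl_le h, gl_le h]
      · rw [gl_gt h, gl_gt h, gl_gt h]
    intro a b ha hab hb
    rw [← e, ← e]
    exact this a b ha hab hb
  · intro p hp t ht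
    have hs := split (f := fun s => ⟪F s - (ν + gl T lam kap s) • gl T z y s + m (gl T u v s), p.2⟫_ℝ)
      (a := fun s => ⟪F s - (ν + lam s) • z s + m (u s), p.2⟫_ℝ)
      (b := fun s => ⟪F (T + s) - (ν + kap s) • y s + m (v s), p.2⟫_ℝ) (by
        intro s
        rcases le_or_gt s T with h | h
        · rw [gl_le h, gl_le h, gl_le h, gl_le h]
        · rw [gl_gt h, gl_gt h, gl_gt h, gl_gt h]
          simp only [add_sub_cancel])
      ((mem_cont (p := 1) (gc1.inner continuousOn_const)).integrable le_rfl)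
      ((mem_cont (p := 1) (gc2.inner continuousOn_const)).integrable le_rfl) t ht
    rw [gu]
    rcases le_or_gt t T with h | h
    · rw [hs.1 h, gl_le h]
      exact C1.weak p hp t ⟨ht.1, h⟩
    · rw [hs.2 h.le, gl_gt h, ← C1.weak p hp T ⟨hT, le_rfl⟩,
        ← C2.weak p hp (t - T) ⟨by linarith, by linarith [ht.2]⟩, hv]
      simp only [inner_sub_left]; ring
  · intro t
    rcases le_or_gt t T with h | h
    · rw [gl_le h]; exact C1.l0 t
    · rw [gl_gt h]; exact C2.l0 _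
  · rw [gl_le hT]; exact C1.lz
  · rw [gl_gt (by linarith), add_sub_cancel_left]; exact C2.lT
  · intro t ht
    have c1 : ContinuousOn (fun s => (ν + lam s) * ‖z s‖ ^ 2) (Icc 0 T) :=
      (continuousOn_const.add C1.lc).mul (C1.zc.norm.pow 2)
    have c2 : ContinuousOn (fun s => (ν + kap s) * ‖y s‖ ^ 2) (Icc 0 S) :=
      (continuousOn_const.add C2.lc).mul (C2.zc.norm.pow 2)
    have hs := split (f := fun s => (ν + gl T lam kap s) * ‖gl T z y s‖ ^ 2)
      (a := fun s => (ν + lam s) * ‖z s‖ ^ 2) (b := fun s => (ν + kap s) * ‖y s‖ ^ 2) (by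
        intro s
        rcases le_or_gt s T with h | h
        · rw [gl_le h, gl_le h, gl_le h]
        · rw [gl_gt h, gl_gt h, gl_gt h])
      ((mem_cont (p := 1) c1).integrable le_rfl) ((mem_cont (p := 1) c2).integrable le_rfl) t ht
    have hs' := split (f := fun s => ⟪F s, gl T z y s⟫_ℝ)
      (a := fun s => ⟪F s, z s⟫_ℝ) (b := fun s => ⟪F (T + s), y s⟫_ℝ) (by
        intro s
        rcases le_or_gt s T with h | h
        · rw [gl_le h, gl_le h]
        · rw [gl_gt h, gl_gt h]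
          simp only [add_sub_cancel])
      ((mem_cont (p := 1) (hF1.inner C1.zc)).integrable le_rfl)
      ((mem_cont (p := 1) (hF2.inner C2.zc)).integrable le_rfl) t ht
    rw [gu]
    rcases le_or_gt t T with h | h
    · rw [hs.1 h, hs'.1 h, gl_le h]
      exact C1.energy t ⟨ht.1, h⟩
    · rw [hs.2 h.le, hs'.2 h.le, gl_gt h]
      have e1 := C1.energy T ⟨hT, le_rfl⟩
      have e2 := C2.energy (t - T) ⟨by linarith, by linarith [ht.2]⟩
      rw [hv] at e2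
      linarith
  · obtain ⟨g, hg⟩ := C2.endc
    refine ⟨g, fun p hp => ?_⟩
    rw [gl_gt (by linarith), gl_gt (by linarith), add_sub_cancel_left]
    exact hg p hp

theorem cst1_glue (hT : 0 ≤ T) (hS : 0 < S) (C1 : Ctl W m ν T F u u1 z z1 g1 lam)
    (C2 : Ctl W m ν S (fun s => F (T + s)) v v1 y y1 h1 kap) :
    cst1 (T + S) (gl T lam kap) = cst1 T lam + cst1 S kap := by
  unfold cst1
  have e : (fun t => gl T lam kap t ^ 5 * lg (gl T lam kap t))
      = gl T (fun t => lam t ^ 5 * lg (lam t)) (fun t => kap t ^ 5 * lg (kap t)) := by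
    ext t
    rcases le_or_gt t T with h | h
    · rw [gl_le h, gl_le h]
    · rw [gl_gt h, gl_gt h]
  have hi : Integrable (gl T (fun t => lam t ^ 5 * lg (lam t)) (fun t => kap t ^ 5 * lg (kap t)))
      (volume.restrict (Ioc 0 (T + S))) :=
    memLp_one_iff_integrable.mp (gl_memLp hT hS.le (mem_cont (cst1_cont C1.lc C1.l0))
      (mem_cont (cst1_cont C2.lc C2.l0)))
  rw [e, ← intervalIntegral.integral_add_adjacent_intervals
      (ii_of_int (b := T) hi le_rfl hT (by linarith)) (ii_of_int hi hT (by linarith) le_rfl),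
      gl_int_le hT le_rfl, gl_int_ge (by linarith) le_rfl, sub_self, add_sub_cancel_left]

theorem cst2_glue (hT : 0 ≤ T) (hS : 0 < S) (C1 : Ctl W m ν T F u u1 z z1 g1 lam)
    (C2 : Ctl W m ν S (fun s => F (T + s)) v v1 y y1 h1 kap) :
    cst2 (T + S) (gl T lam kap) (gl T z y) = cst2 T lam z + cst2 S kap y := by
  unfold cst2
  have e : (fun t => ‖gl T lam kap t • gl T z y t‖ ^ (5 / 3 : ℝ)
        * lg ‖gl T lam kap t • gl T z y t‖ ^ (1 / 6 : ℝ))
      = gl T (fun t => ‖lam t • z t‖ ^ (5 / 3 : ℝ) * lg ‖lam t • z t‖ ^ (1 / 6 : ℝ))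
        (fun t => ‖kap t • y t‖ ^ (5 / 3 : ℝ) * lg ‖kap t • y t‖ ^ (1 / 6 : ℝ)) := by
    ext t
    rcases le_or_gt t T with h | h
    · rw [gl_le h, gl_le h, gl_le h]
    · rw [gl_gt h, gl_gt h, gl_gt h]
  have hi : Integrable (gl T (fun t => ‖lam t • z t‖ ^ (5 / 3 : ℝ)
        * lg ‖lam t • z t‖ ^ (1 / 6 : ℝ))
        (fun t => ‖kap t • y t‖ ^ (5 / 3 : ℝ) * lg ‖kap t • y t‖ ^ (1 / 6 : ℝ)))
      (volume.restrict (Ioc 0 (T + S))) :=
    memLp_one_iff_integrable.mp (gl_memLp hT hS.le (mem_cont (cst2_cont C1.lc C1.zc))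
      (mem_cont (cst2_cont C2.lc C2.zc)))
  rw [e, ← intervalIntegral.integral_add_adjacent_intervals
      (ii_of_int (b := T) hi le_rfl hT (by linarith)) (ii_of_int hi hT (by linarith) le_rfl),
      gl_int_le hT le_rfl, gl_int_ge (by linarith) le_rfl, sub_self, add_sub_cancel_left]

theorem cst0_glue :
    cst0 (T + S) (gl T lam kap) ≤ cst0 T lam + cst0 S kap := by
  unfold cst0
  have h1 : {t ∈ Icc 0 (T + S) | gl T lam kap t ≠ 0}
      ⊆ {t ∈ Icc 0 T | lam t ≠ 0} ∪ (fun t => t - T) ⁻¹' {t ∈ Icc 0 S | kap t ≠ 0} := by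
    rintro t ⟨ht, hne⟩
    rcases le_or_gt t T with h | h
    · rw [gl_le h] at hne
      exact Or.inl ⟨⟨ht.1, h⟩, hne⟩
    · rw [gl_gt h] at hne
      exact Or.inr ⟨⟨by linarith, by linarith [ht.2]⟩, hne⟩
  refine (measure_mono h1).trans ((measure_union_le _ _).trans ?_)
  have e : (fun t : ℝ => t - T) = fun t => t + -T := by ext t; ring
  rw [e, measure_preimage_add_right]

end glue

end H772R2.NSG
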