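import Mathlib
import Pool.Agent.H772R2.NSG.Baire

/-!
Generic well-posedness: the Baire category argument.
-/

set_option linter.unusedSectionVars false

open MeasureTheory Set Filter Topology Metric
open scoped InnerProductSpace NNReal ENNReal ContDiff

namespace H772R2.NSG

open H772R2.NSR (Frame grad_unique prim_cont ii_of_cont ii_mono young4 ae_deriv_of_prim
  hasDerivAt_prim memLp_ii exists_weak_deriv')

variable {H K : Type*} [NormedAddCommGroup H] [InnerProductSpace ℝ H] [CompleteSpace H]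
  [NormedAddCommGroup K] [InnerProductSpace ℝ K] [CompleteSpace K]

variable {W : Submodule ℝ (H × K)} {m : H → K} {C : ℝ}
  {ν T : ℝ} {p : ℝ≥0∞} {X D : Type*} [MetricSpace X] [MetricSpace D] {nX : X → ℝ → ℝ}
  {xD : D → H} {FD : D → ℝ → K}

theorem Par.nconv (P : Par W ν T p X D nX xD FD) (hp2 : 2 ≤ p) (hptop : p ≠ ⊤) :
    ∃ κ : ℝ, 0 ≤ κ ∧ ∀ x y, ∫ s in Ioc 0 T, ‖nX x s - nX y s‖ ^ 2 ≤ (dist x y * κ) ^ 2 := by
  set κe : ℝ≥0∞ := (volume.restrict (Ioc 0 T) : Measure ℝ) univ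
    ^ (1 / (2 : ℝ≥0∞).toReal - 1 / p.toReal) with hκe
  have htop : κe ≠ ⊤ := by
    refine ENNReal.rpow_ne_top_of_nonneg ?_ (measure_ne_top _ _)
    have : (2 : ℝ≥0∞).toReal ≤ p.toReal := ENNReal.toReal_mono hptop hp2
    have := one_div_le_one_div_of_le (by norm_num) this
    linarith
  refine ⟨κe.toReal, ENNReal.toReal_nonneg, fun x y => ?_⟩
  have h1 := int_sq_le_of_eLpNorm hp2 ((P.nmem x).sub (P.nmem y))
  refine h1.trans ?_
  rw [← hκe]
  have h2 : (eLpNorm (nX x - nX y) p (volume.restrict (Ioc 0 T)) * κe).toReal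
      ≤ (ENNReal.ofReal (dist x y) * κe).toReal :=
    ENNReal.toReal_mono (ENNReal.mul_ne_top ENNReal.ofReal_ne_top htop)
      (mul_le_mul_left (P.ndist x y) _)
  rw [ENNReal.toReal_mul (a := ENNReal.ofReal _), ENNReal.toReal_ofReal dist_nonneg] at h2
  gcongr

theorem Par.Fconv (P : Par W ν T p X D nX xD FD) (d e : D) :
    ∫ s in Ioc 0 T, ‖FD d s - FD e s‖ ^ 2 ≤ (dist d e) ^ 2 := by
  have h1 := int_sq_le_of_eLpNorm (p := 2) le_rfl ((P.Fmem d).sub (P.Fmem e))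
  refine h1.trans ?_
  rw [sub_self, ENNReal.rpow_zero, mul_one]
  have h2 := ENNReal.toReal_mono ENNReal.ofReal_ne_top (P.Fdist d e)
  rw [ENNReal.toReal_ofReal dist_nonneg] at h2
  gcongr

theorem Par.coef (P : Par W ν T p X D nX xD FD) (hp2 : 2 ≤ p) (x : X) (d : D) :
    Coef ν T (nX x) (FD d) :=
  ⟨(P.nmem x).mono_exponent hp2, P.nlow x, P.Fmem d⟩

/-- Parameters with a strong solution. -/
structure Good (W : Submodule ℝ (H × K)) (m : H → K) (ν T : ℝ) (nX : X → ℝ → ℝ)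
    (xD : D → H) (FD : D → ℝ → K) (x : X) (d : D) (nb : ℝ → ℝ) (Fb : ℝ → K) (ub ub1 : ℝ → H)
    (zb zb1 : ℝ → K) (Z : ℝ) : Prop where
  st : St W m T nb Fb (xD d) ub zb ub1 zb1 Z
  en : nX x =ᵐ[volume.restrict (Ioc 0 T)] nb
  eF : FD d =ᵐ[volume.restrict (Ioc 0 T)] Fb
  low : ∀ t ∈ Icc 0 T, 0 ≤ nb t

/-- closeness of all Leray-Hopf solutions. -/
def Near (W : Submodule ℝ (H × K)) (m : H → K) (T : ℝ) (nX : X → ℝ → ℝ)
    (xD : D → H) (FD : D → ℝ → K) (ub : ℝ → H) (zb : ℝ → K) (ε : ℝ) (x : X) (d : D) : Prop :=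
  ∀ u z, LH W m T (nX x) (FD d) (xD d) u z →
    (∀ t ∈ Icc 0 T, ‖u t - ub t‖ ≤ ε) ∧ (∫ s in Ioc 0 T, ‖z s - zb s‖ ^ 2) ≤ ε ∧
      ∀ t ∈ Icc 0 T, dft (nX x) (FD d) (xD d) u z t ≤ ε

theorem radius (Fr : Frame W m C) (hν : 0 < ν) (hT : 0 < T) (P : Par W ν T p X D nX xD FD)
    (hp2 : 2 ≤ p) (hptop : p ≠ ⊤) {x : X} {d : D} {nb : ℝ → ℝ} {Fb : ℝ → K} {ub ub1 : ℝ → H}
    {zb zb1 : ℝ → K} {Z : ℝ} (G : Good W m ν T nX xD FD x d nb Fb ub ub1 zb zb1 Z) {ε : ℝ}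
    (hε : 0 < ε) :
    ∃ r, 0 < r ∧ ∀ x' d', dist x' x < r → dist d' d < r →
      Near W m T nX xD FD ub zb ε x' d' := by
  obtain ⟨κ, hκ0, hκ⟩ := P.nconv hp2 hptop
  have hst := stc_nonneg (C := C) hν hT (Z := Z)
  set Q : ℝ := stc C ν T Z * (1 / 2 + 2 / ν + 2 / ν * Z ^ 2 * κ ^ 2) + 1 with hQ
  have hQ0 : 0 < Q := by positivity
  set e : ℝ := min ε (ε ^ 2) with he
  have he0 : 0 < e := lt_min hε (by positivity)
  refine ⟨Real.sqrt (e / Q), Real.sqrt_pos.mpr (by positivity), ?_⟩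
  intro x' d' hx hd u z L
  set r := Real.sqrt (e / Q) with hr
  have hr0 : 0 ≤ r := Real.sqrt_nonneg _
  have hr2 : r ^ 2 = e / Q := Real.sq_sqrt (by positivity)
  have Co := P.coef hp2 x' d'
  obtain ⟨s1, s2, s3⟩ := stab Fr hν hT Co L G.st
  have hgap : gap ν T Z (nX x') nb (FD d') Fb (xD d') (xD d)
      ≤ (1 / 2 + 2 / ν + 2 / ν * Z ^ 2 * κ ^ 2) * r ^ 2 := by
    unfold gap
    have e1 : ∫ s in Ioc 0 T, (2 / ν * ‖FD d' s - Fb s‖ ^ 2
          + 2 / ν * Z ^ 2 * (nX x' s - nb s) ^ 2)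
        = 2 / ν * (∫ s in Ioc 0 T, ‖FD d' s - FD d s‖ ^ 2)
          + 2 / ν * Z ^ 2 * ∫ s in Ioc 0 T, ‖nX x' s - nX x s‖ ^ 2 := by
      have i1 : Integrable (fun s => ‖FD d' s - FD d s‖ ^ 2) (volume.restrict (Ioc 0 T)) :=
        (memLp_two_iff_integrable_sq_norm ((P.Fmem d').sub (P.Fmem d)).aestronglyMeasurable).mp
          ((P.Fmem d').sub (P.Fmem d))
      have hm := ((P.nmem x').sub (P.nmem x)).mono_exponent hp2
      have i2 : Integrable (fun s => ‖nX x' s - nX x s‖ ^ 2) (volume.restrict (Ioc 0 T)) :=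
        (memLp_two_iff_integrable_sq_norm hm.aestronglyMeasurable).mp hm
      rw [← integral_const_mul, ← integral_const_mul,
        ← integral_add (i1.const_mul _) (i2.const_mul _)]
      refine integral_congr_ae ?_
      filter_upwards [G.en, G.eF] with s h1 h2
      rw [h1, h2, Real.norm_eq_abs (nX x' s - nb s), sq_abs]
    rw [e1]
    have h1 := P.xdist d' d
    have h2 := P.Fconv d' d
    have h3 := hκ x' x
    have h4 : dist d' d ≤ r := hd.le
    have h5 : dist x' x ≤ r := hx.le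
    have h6 := dist_nonneg (x := d') (y := d)
    have h7 := dist_nonneg (x := x') (y := x)
    calc ‖xD d' - xD d‖ ^ 2 / 2 + (2 / ν * (∫ s in Ioc 0 T, ‖FD d' s - FD d s‖ ^ 2)
          + 2 / ν * Z ^ 2 * ∫ s in Ioc 0 T, ‖nX x' s - nX x s‖ ^ 2)
        ≤ r ^ 2 / 2 + (2 / ν * r ^ 2 + 2 / ν * Z ^ 2 * (r * κ) ^ 2) := by
          gcongr
          · exact h1.trans h4
          · exact h2.trans (by gcongr)
          · exact h3.trans (by gcongr)
      _ = _ := by ring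
  have hall : stc C ν T Z * gap ν T Z (nX x') nb (FD d') Fb (xD d') (xD d) ≤ e := by
    calc stc C ν T Z * gap ν T Z (nX x') nb (FD d') Fb (xD d') (xD d)
        ≤ stc C ν T Z * ((1 / 2 + 2 / ν + 2 / ν * Z ^ 2 * κ ^ 2) * r ^ 2) := by gcongr
      _ ≤ stc C ν T Z * (1 / 2 + 2 / ν + 2 / ν * Z ^ 2 * κ ^ 2) * r ^ 2 + 1 * r ^ 2 := by
          nlinarith [sq_nonneg r]
      _ = Q * r ^ 2 := by rw [hQ]; ring
      _ = e := by rw [hr2]; field_simp
  refine ⟨fun t ht => ?_, (s2.trans hall).trans (min_le_left _ _),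
    fun t ht => ((s3 t ht).trans hall).trans (min_le_left _ _)⟩
  have h1 := ((s1 t ht).trans hall).trans (min_le_right _ _)
  exact (pow_le_pow_iff_left₀ (norm_nonneg _) hε.le (by norm_num)).mp h1

/-- Well-posedness at the parameters `(x, d)`. -/
def WP (W : Submodule ℝ (H × K)) (m : H → K) (T : ℝ) (nX : X → ℝ → ℝ)
    (xD : D → H) (FD : D → ℝ → K) (x : X) (d : D) : Prop :=
  ∃ u z, LH W m T (nX x) (FD d) (xD d) u z ∧
    (∀ t ∈ Icc 0 T, u t ∈ closure {x : H | ∃ y, (x, y) ∈ W}) ∧ ContinuousOn u (Icc 0 T) ∧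
    (∀ t ∈ Icc 0 T, dft (nX x) (FD d) (xD d) u z t = 0) ∧
    ∀ ε > 0, ∃ δ > 0, ∀ x' d', dist x' x < δ → dist d' d < δ → ∀ u' z',
      LH W m T (nX x') (FD d') (xD d') u' z' →
        (∀ t ∈ Icc 0 T, ‖u' t - u t‖ ≤ ε) ∧ (∫ s in Ioc 0 T, ‖z' s - z s‖ ^ 2) ≤ ε

/-- the open sets. -/
def Uset (W : Submodule ℝ (H × K)) (m : H → K) (ν T : ℝ) (nX : X → ℝ → ℝ)
    (xD : D → H) (FD : D → ℝ → K) (k : ℕ) : Set (X × D) :=
  {q | ∃ x d nb Fb ub ub1 zb zb1 Z r, Good W m ν T nX xD FD x d nb Fb ub ub1 zb zb1 Z ∧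
    0 < r ∧ r ≤ 1 / ((k : ℝ) + 1) ∧
    (∀ x' d', dist x' x < r → dist d' d < r →
      Near W m T nX xD FD ub zb (1 / ((k : ℝ) + 1)) x' d') ∧
    dist q.1 x < r ∧ dist q.2 d < r}

theorem Uset_open (k : ℕ) : IsOpen (Uset W m ν T nX xD FD k) := by
  rw [isOpen_iff_mem_nhds]
  rintro q ⟨x, d, nb, Fb, ub, ub1, zb, zb1, Z, r, hG, hr, hrk, hN, h1, h2⟩
  have ho : IsOpen {q' : X × D | dist q'.1 x < r ∧ dist q'.2 d < r} :=
    (isOpen_lt (continuous_fst.dist continuous_const) continuous_const).inter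
      (isOpen_lt (continuous_snd.dist continuous_const) continuous_const)
  filter_upwards [ho.mem_nhds (show q ∈ {q' : X × D | dist q'.1 x < r ∧ dist q'.2 d < r} from
    ⟨h1, h2⟩)] with q' hq'
  exact ⟨x, d, nb, Fb, ub, ub1, zb, zb1, Z, r, hG, hr, hrk, hN, hq'.1, hq'.2⟩

theorem good_mem_Uset (Fr : Frame W m C) (hν : 0 < ν) (hT : 0 < T)
    (P : Par W ν T p X D nX xD FD)
    (hp2 : 2 ≤ p) (hptop : p ≠ ⊤) {x : X} {d : D} {nb : ℝ → ℝ} {Fb : ℝ → K} {ub ub1 : ℝ → H}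
    {zb zb1 : ℝ → K} {Z : ℝ} (G : Good W m ν T nX xD FD x d nb Fb ub ub1 zb zb1 Z) (k : ℕ) :
    (x, d) ∈ Uset W m ν T nX xD FD k := by
  have hk : (0 : ℝ) < 1 / ((k : ℝ) + 1) := by positivity
  obtain ⟨r, hr, hN⟩ := radius Fr hν hT P hp2 hptop G hk
  refine ⟨x, d, nb, Fb, ub, ub1, zb, zb1, Z, min r (1 / ((k : ℝ) + 1)), G, lt_min hr hk,
    min_le_right _ _, fun x' d' h1 h2 => hN x' d' (h1.trans_le (min_le_left _ _))
      (h2.trans_le (min_le_left _ _)), ?_, ?_⟩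
  · show dist x x < _
    rw [dist_self]; exact lt_min hr hk
  · show dist d d < _
    rw [dist_self]; exact lt_min hr hk

theorem wp_of_mem (Fr : Frame W m C) (hν : 0 < ν) (hT : 0 < T)
    (P : Par W ν T p X D nX xD FD) (hp2 : 2 ≤ p) (hptop : p ≠ ⊤) {q : X × D}
    (hq : ∀ k, q ∈ Uset W m ν T nX xD FD k) : WP W m T nX xD FD q.1 q.2 := by
  choose x d nb Fb ub ub1 zb zb1 Z r hG hr hrk hN h1 h2 using hq
  obtain ⟨κ, hκ0, hκ⟩ := P.nconv hp2 hptop
  have hlim1 : Tendsto (fun k : ℕ => 1 / ((k : ℝ) + 1)) atTop (𝓝 0) :=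
    tendsto_one_div_add_atTop_nhds_zero_nat
  have hx : Tendsto (fun k => dist (x k) q.1) atTop (𝓝 0) := by
    refine squeeze_zero (fun k => dist_nonneg) (fun k => ?_) hlim1
    rw [dist_comm]; exact (h1 k).le.trans (hrk k)
  have hd : Tendsto (fun k => dist (d k) q.2) atTop (𝓝 0) := by
    refine squeeze_zero (fun k => dist_nonneg) (fun k => ?_) hlim1
    rw [dist_comm]; exact (h2 k).le.trans (hrk k)
  have hLH : ∀ k, LH W m T (nX (x k)) (FD (d k)) (xD (d k)) (ub k) (zb k) := fun k =>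
    (hG k).st.toLH Fr hT (hG k).en (hG k).eF
  have hzm : ∀ k, MemLp (zb k) 2 (volume.restrict (Ioc 0 T)) := fun k => (hLH k).z2
  -- the sequence is eventually close to each of its terms
  have hcl : ∀ k, ∃ J, ∀ j ≥ J, (∀ t ∈ Icc 0 T, ‖ub j t - ub k t‖ ≤ 1 / ((k : ℝ) + 1)) ∧
      (∫ s in Ioc 0 T, ‖zb j s - zb k s‖ ^ 2) ≤ 1 / ((k : ℝ) + 1) := by
    intro k
    have e1 : ∀ᶠ j in atTop, dist (x j) q.1 < r k - dist q.1 (x k) :=
      hx.eventually (gt_mem_nhds (by linarith [h1 k]))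
    have e2 : ∀ᶠ j in atTop, dist (d j) q.2 < r k - dist q.2 (d k) :=
      hd.eventually (gt_mem_nhds (by linarith [h2 k]))
    obtain ⟨J, hJ⟩ := eventually_atTop.mp (e1.and e2)
    refine ⟨J, fun j hj => ?_⟩
    obtain ⟨f1, f2⟩ := hJ j hj
    have g1 : dist (x j) (x k) < r k := by
      have := dist_triangle (x j) q.1 (x k); linarith
    have g2 : dist (d j) (d k) < r k := by
      have := dist_triangle (d j) q.2 (d k); linarith
    obtain ⟨s1, s2, -⟩ := hN k (x j) (d j) g1 g2 (ub j) (zb j) (hLH j)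
    exact ⟨s1, s2⟩
  have hsq : ∀ (a b c : ℝ → K), MemLp a 2 (volume.restrict (Ioc 0 T)) →
      MemLp b 2 (volume.restrict (Ioc 0 T)) → MemLp c 2 (volume.restrict (Ioc 0 T)) →
      ∫ s in Ioc 0 T, ‖a s - b s‖ ^ 2 ≤ 2 * (∫ s in Ioc 0 T, ‖a s - c s‖ ^ 2)
        + 2 * ∫ s in Ioc 0 T, ‖b s - c s‖ ^ 2 := by
    intro a b c ha hb hc
    have j1 : Integrable (fun s => ‖a s - c s‖ ^ 2) (volume.restrict (Ioc 0 T)) :=
      (memLp_two_iff_integrable_sq_norm (ha.sub hc).aestronglyMeasurable).mp (ha.sub hc)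
    have j2 : Integrable (fun s => ‖b s - c s‖ ^ 2) (volume.restrict (Ioc 0 T)) :=
      (memLp_two_iff_integrable_sq_norm (hb.sub hc).aestronglyMeasurable).mp (hb.sub hc)
    rw [← integral_const_mul, ← integral_const_mul, ← integral_add (j1.const_mul _)
      (j2.const_mul _)]
    refine integral_mono_of_nonneg (Eventually.of_forall fun s => by positivity)
      ((j1.const_mul _).add (j2.const_mul _)) (Eventually.of_forall fun s => ?_)
    show ‖a s - b s‖ ^ 2 ≤ 2 * ‖a s - c s‖ ^ 2 + 2 * ‖b s - c s‖ ^ 2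
    have e : a s - b s = (a s - c s) - (b s - c s) := by abel
    have h := norm_sub_le (a s - c s) (b s - c s)
    rw [← e] at h
    have h0 := norm_nonneg (a s - b s)
    nlinarith [sq_nonneg (‖a s - c s‖ - ‖b s - c s‖), norm_nonneg (a s - c s),
      norm_nonneg (b s - c s)]
  have hN' : ∀ ε > 0, ∃ k : ℕ, 4 * (1 / ((k : ℝ) + 1)) ≤ ε := by
    intro ε hε
    have := (hlim1.const_mul 4).eventually (gt_mem_nhds (show (4 : ℝ) * 0 < ε by simpa using hε))
    obtain ⟨k, hk⟩ := this.exists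
    exact ⟨k, hk.le⟩
  obtain ⟨u, z, L, hucl, huc, hul, hzl⟩ := limit Fr hν hT (fun k => (hG k).st) (fun k => (hG k).low)
    (P.coef hp2 q.1 q.2) (by
      refine squeeze_zero (g := fun k => (dist (x k) q.1 * κ) ^ 2)
        (fun k => integral_nonneg fun s => by positivity) (fun k => ?_) ?_
      · refine le_trans (le_of_eq ?_) (hκ (x k) q.1)
        refine integral_congr_ae ?_
        filter_upwards [(hG k).en] with s hs
        rw [hs]
      · have := (hx.mul_const κ).pow 2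
        simpa using this)
    (by
      refine squeeze_zero (g := fun k => (dist (d k) q.2) ^ 2)
        (fun k => integral_nonneg fun s => by positivity) (fun k => ?_) ?_
      · refine le_trans (le_of_eq ?_) (P.Fconv (d k) q.2)
        refine integral_congr_ae ?_
        filter_upwards [(hG k).eF] with s hs
        rw [hs]
      · have := hd.pow 2
        simpa using this)
    (x0 := xD q.2) (by
      rw [tendsto_iff_norm_sub_tendsto_zero]
      exact squeeze_zero (fun k => norm_nonneg _) (fun k => P.xdist (d k) q.2) hd)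
    (by
      intro ε hε
      obtain ⟨k, hk⟩ := hN' ε hε
      obtain ⟨J, hJ⟩ := hcl k
      refine ⟨J, fun i hi j hj t ht => ?_⟩
      have f1 := (hJ i hi).1 t ht
      have f2 := (hJ j hj).1 t ht
      have e : ub i t - ub j t = (ub i t - ub k t) - (ub j t - ub k t) := by abel
      have h := norm_sub_le (ub i t - ub k t) (ub j t - ub k t)
      rw [← e] at h
      have hk0 : (0 : ℝ) < 1 / ((k : ℝ) + 1) := by positivity
      linarith)
    (by
      intro ε hε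
      obtain ⟨k, hk⟩ := hN' ε hε
      obtain ⟨J, hJ⟩ := hcl k
      refine ⟨J, fun i hi j hj => ?_⟩
      have f1 := (hJ i hi).2
      have f2 := (hJ j hj).2
      have := hsq _ _ _ (hzm i) (hzm j) (hzm k)
      linarith)
  -- the solution is close to every term of the sequence
  have hS : ∀ k, (∀ t ∈ Icc 0 T, ‖u t - ub k t‖ ≤ 1 / ((k : ℝ) + 1)) ∧
      (∫ s in Ioc 0 T, ‖z s - zb k s‖ ^ 2) ≤ 1 / ((k : ℝ) + 1) ∧
      ∀ t ∈ Icc 0 T, dft (nX q.1) (FD q.2) (xD q.2) u z t ≤ 1 / ((k : ℝ) + 1) := fun k =>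
    hN k q.1 q.2 (h1 k) (h2 k) u z L
  refine ⟨u, z, L, hucl, huc, fun t ht => ?_, fun ε hε => ?_⟩
  · refine le_antisymm ?_ ?_
    · exact ge_of_tendsto' hlim1 fun k => (hS k).2.2 t ht
    · unfold dft
      linarith [L.energy t ht]
  · obtain ⟨k, hk⟩ := hN' ε hε
    refine ⟨min (r k - dist q.1 (x k)) (r k - dist q.2 (d k)),
      lt_min (by linarith [h1 k]) (by linarith [h2 k]), ?_⟩
    intro x' d' hx' hd' u' z' L'
    have g1 : dist x' (x k) < r k := by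
      have := dist_triangle x' q.1 (x k)
      have := hx'.trans_le (min_le_left _ _)
      linarith
    have g2 : dist d' (d k) < r k := by
      have := dist_triangle d' q.2 (d k)
      have := hd'.trans_le (min_le_right _ _)
      linarith
    obtain ⟨s1, s2, -⟩ := hN k x' d' g1 g2 u' z' L'
    have hk0 : (0 : ℝ) < 1 / ((k : ℝ) + 1) := by positivity
    refine ⟨fun t ht => ?_, ?_⟩
    · have f1 := s1 t ht
      have f2 := (hS k).1 t ht
      have e : u' t - u t = (u' t - ub k t) - (u t - ub k t) := by abel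
      have h := norm_sub_le (u' t - ub k t) (u t - ub k t)
      rw [← e] at h
      linarith
    · have f2 := (hS k).2.1
      have := hsq _ _ _ L'.z2 L.z2 (hzm k)
      linarith

/-- Admissible data. -/
def Adm (W : Submodule ℝ (H × K)) (m : H → K) (ν T : ℝ)
    (xD : D → H) (FD : D → ℝ → K) (d : D) : Prop :=
  ∃ (z0 : K) (g0 : H) (a : ℝ) (F F1 : ℝ → K), (xD d, z0) ∈ W ∧
    FD d =ᵐ[volume.restrict (Ioc 0 T)] F ∧ MemLp F1 2 (volume.restrict (Ioc 0 T)) ∧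
    (∀ a b, 0 ≤ a → a ≤ b → b ≤ T → F b - F a = ∫ s in a..b, F1 s) ∧ ν ≤ a ∧
    ∀ p ∈ W, ⟪F 0 - a • z0 + m (xD d), p.2⟫_ℝ = ⟪g0, p.1⟫_ℝ

theorem good_near (Fr : Frame W m C) (hν : 0 < ν) (hT : 0 < T)
    (hcomp : ∀ R : ℝ, TotallyBounded {v : H | ∃ z, (v, z) ∈ W ∧ ‖z‖ ≤ R})
    (P : Par W ν T p X D nX xD FD) (hp1 : 1 ≤ p) (hp5 : p ≤ 5) {d : D}
    (hd : Adm W m ν T xD FD d) (x : X) {ε : ℝ} (hε : 0 < ε) :
    ∃ xb nb Fb ub ub1 zb zb1 Z, Good W m ν T nX xD FD xb d nb Fb ub ub1 zb zb1 Z ∧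
      dist xb x ≤ ε := by
  obtain ⟨z0, g0, a, F, F1, b1, b2, b3, b4, b5, b6⟩ := hd
  obtain ⟨nb, ub, ub1, zb, zb1, Z, S, hlow, hnb⟩ := strong_near Fr hν hT hcomp b3 b4 b1 b5 b6 hp1
    hp5 (P.nmem x) (P.nlow x) hε
  have hmem : MemLp nb p (volume.restrict (Ioc 0 T)) := mem_cont S.nc
  obtain ⟨xb, hxb⟩ := P.nreal nb hmem (by
    filter_upwards [ae_restrict_mem measurableSet_Ioc] with s hs
    exact hlow s (Ioc_subset_Icc_self hs))
  refine ⟨xb, nb, F, ub, ub1, zb, zb1, Z, ⟨S, hxb, b2, fun t ht => hν.le.trans (hlow t ht)⟩, ?_⟩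
  refine P.nclose _ _ _ hε (le_trans (le_of_eq ?_) hnb)
  refine eLpNorm_congr_ae ?_
  exact hxb.sub (ae_eq_refl _)

theorem adm_near (Fr : Frame W m C) (hν : 0 < ν) (hT : 0 < T)
    (P : Par W ν T p X D nX xD FD) (d : D) {ε : ℝ} (hε : 0 < ε) :
    ∃ d', Adm W m ν T xD FD d' ∧ dist d' d ≤ ε := by
  obtain ⟨w, hw, hwd⟩ := P.ddense d ε hε
  obtain ⟨Fb, F1, c1, c2, c3, c4, c5⟩ := data_near Fr hν hT (x0 := w.1) (z0 := w.2) (P.Fmem d) hε
  obtain ⟨d', e1, e2⟩ := P.dreal w hw Fb (mem_cont c4)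
  refine ⟨d', ⟨w.2, 0, ν, Fb, F1, ?_, e2, c1, c2, le_rfl, ?_⟩, ?_⟩
  · rw [e1]; exact hw
  · rw [e1]; exact c3
  · refine P.dclose _ _ _ hε ?_ (le_trans (le_of_eq ?_) c5)
    · rw [e1, norm_sub_rev]; exact hwd
    · exact eLpNorm_congr_ae (e2.sub (ae_eq_refl _))

theorem generic (Fr : Frame W m C) (hν : 0 < ν) (hT : 0 < T)
    (hcomp : ∀ R : ℝ, TotallyBounded {v : H | ∃ z, (v, z) ∈ W ∧ ‖z‖ ≤ R})
    (P : Par W ν T p X D nX xD FD) (hp2 : 2 ≤ p) (hp5 : p ≤ 5) :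
    {q : X × D | WP W m T nX xD FD q.1 q.2} ∈ residual (X × D) ∧
    ∀ d, Adm W m ν T xD FD d → {x : X | WP W m T nX xD FD x d} ∈ residual X := by
  have hptop : p ≠ ⊤ := ne_top_of_le_ne_top (by norm_num) hp5
  have hp1 : 1 ≤ p := le_trans (by norm_num) hp2
  constructor
  · have h1 : ∀ k, Uset W m ν T nX xD FD k ∈ residual (X × D) := by
      intro k
      refine residual_of_dense_open (Uset_open k) ?_
      intro q
      rw [Metric.mem_closure_iff]
      intro ε hε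
      obtain ⟨d', hd', hdd⟩ := adm_near Fr hν hT P q.2 (ε := ε / 2) (by positivity)
      obtain ⟨xb, nb, Fb, ub, ub1, zb, zb1, Z, G, hxx⟩ := good_near Fr hν hT hcomp P hp1 hp5 hd'
        q.1 (ε := ε / 2) (by positivity)
      refine ⟨(xb, d'), good_mem_Uset Fr hν hT P hp2 hptop G k, ?_⟩
      rw [dist_comm, Prod.dist_eq, max_lt_iff]
      exact ⟨by show dist xb q.1 < ε; linarith, by show dist d' q.2 < ε; linarith⟩
    have h2 : (⋂ k, Uset W m ν T nX xD FD k) ∈ residual (X × D) :=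
      countable_iInter_mem.mpr h1
    refine mem_of_superset h2 fun q hq => ?_
    exact wp_of_mem Fr hν hT P hp2 hptop fun k => mem_iInter.mp hq k
  · intro d hd
    have h1 : ∀ k, {x : X | (x, d) ∈ Uset W m ν T nX xD FD k} ∈ residual X := by
      intro k
      refine residual_of_dense_open ((Uset_open k).preimage (by fun_prop)) ?_
      intro x
      rw [Metric.mem_closure_iff]
      intro ε hε
      obtain ⟨xb, nb, Fb, ub, ub1, zb, zb1, Z, G, hxx⟩ := good_near Fr hν hT hcomp P hp1 hp5 hd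
        x (ε := ε / 2) (by positivity)
      refine ⟨xb, good_mem_Uset Fr hν hT P hp2 hptop G k, ?_⟩
      rw [dist_comm]; linarith
    have h2 : (⋂ k, {x : X | (x, d) ∈ Uset W m ν T nX xD FD k}) ∈ residual X :=
      countable_iInter_mem.mpr h1
    refine mem_of_superset h2 fun x hx => ?_
    exact wp_of_mem Fr hν hT P hp2 hptop (q := (x, d)) fun k => mem_iInter.mp hx k

end H772R2.NSG
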