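import Mathlib
import Pool.Agent.H772R2.NSR.PubR

/-!
Public definitions: time dependent viscosities, the space of data, Leray-Hopf solutions of the
three dimensional Navier-Stokes equations with time dependent viscosity, well-posedness.
-/

open MeasureTheory Set Topology
open scoped InnerProductSpace ENNReal ContDiff

namespace H772R2.NS.Pub

/-- The Banach space `L^p(0,T; E)`. -/
def LpT (T : ℝ) (p : ℝ≥0∞) (E : Type) [NormedAddCommGroup E] : Type :=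
  Lp E p ((volume : Measure ℝ).restrict (Ioc 0 T))

section

variable {T : ℝ} {p : ℝ≥0∞} {E : Type} [NormedAddCommGroup E]

noncomputable instance LpT.metric [Fact (1 ≤ p)] : MetricSpace (LpT T p E) :=
  (inferInstance : MetricSpace (Lp E p ((volume : Measure ℝ).restrict (Ioc 0 T))))

/-- A function representing the class `g ∈ L^p(0,T; E)`. -/
noncomputable def LpT.fn (g : LpT T p E) : ℝ → E :=
  ((show Lp E p ((volume : Measure ℝ).restrict (Ioc 0 T)) from g) : ℝ → E)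

end

/-- The viscosities: the functions `n ∈ L^p(0,T)` with `n ≥ ν` almost everywhere, with the
distance of `L^p(0,T)`. -/
def Visc (ν T : ℝ) (p : ℝ≥0∞) : Type :=
  {n : LpT T p ℝ // ∀ᵐ t ∂(volume.restrict (Ioc 0 T)), ν ≤ n.fn t}

noncomputable instance Visc.metric {ν T : ℝ} {p : ℝ≥0∞} [Fact (1 ≤ p)] :
    MetricSpace (Visc ν T p) :=
  (inferInstance : MetricSpace {n : LpT T p ℝ // ∀ᵐ t ∂(volume.restrict (Ioc 0 T)), ν ≤ n.fn t})

/-- A function representing the viscosity `n`. -/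
noncomputable def Visc.fn {ν T : ℝ} {p : ℝ≥0∞} (n : Visc ν T p) : ℝ → ℝ := n.1.fn

/-- The data `(u₀, F)`: the initial velocity `u₀ ∈ L²_σ(Ω)` and `F ∈ L²(0,T; L²(Ω)^{3×3})`, which
gives the force `⟨f(t), φ⟩ = (F(t), ∇φ)`; with the product distance. -/
def Data (Ω : Set R3) (T : ℝ) : Type := {v : L2 Ω R3 // v ∈ L2sigma Ω} × LpT T 2 (L2 Ω Mat)

noncomputable instance Data.metric {Ω : Set R3} {T : ℝ} : MetricSpace (Data Ω T) :=
  (inferInstance : MetricSpace ({v : L2 Ω R3 // v ∈ L2sigma Ω} × LpT T 2 (L2 Ω Mat)))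

/-- The initial velocity. -/
def Data.u0 {Ω : Set R3} {T : ℝ} (d : Data Ω T) : L2 Ω R3 := d.1.1

/-- A function representing `F`. -/
noncomputable def Data.F {Ω : Set R3} {T : ℝ} (d : Data Ω T) : ℝ → L2 Ω Mat := d.2.fn

/-- `u` is a Leray-Hopf weak solution on `[0,T]`, with gradient `G = ∇u`, of the Navier-Stokes
equations in `Ω` with zero boundary values, viscosity `n(t)`, initial velocity `u₀` and force
`⟨f(t), φ⟩ = (F(t), ∇φ)`: weakly continuous in time, in the energy class, with the energy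
inequality. -/
structure IsLH (Ω : Set R3) (T : ℝ) (n : ℝ → ℝ) (F : ℝ → L2 Ω Mat) (u0 : L2 Ω R3)
    (u : ℝ → L2 Ω R3) (G : ℝ → L2 Ω Mat) : Prop where
  init : u 0 = u0
  meas : AEStronglyMeasurable u (volume.restrict (Ioc 0 T))
  sol : ∀ t ∈ Icc 0 T, u t ∈ L2sigma Ω
  wcont : ∀ v : L2 Ω R3, ContinuousOn (fun t => ⟪u t, v⟫_ℝ) (Icc 0 T)
  grad : ∀ᵐ t ∂(volume.restrict (Ioc 0 T)), (u t, G t) ∈ H1graph Ω
  gradL2 : MemLp G 2 (volume.restrict (Ioc 0 T))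
  dissip : Integrable (fun t => n t * ‖G t‖ ^ 2) (volume.restrict (Ioc 0 T))
  eqn : ∀ φ, IsTest Ω φ → ∀ t ∈ Icc 0 T,
    (∫ x in Ω, ⟪(u t).fn x, φ x⟫_ℝ) - (∫ x in Ω, ⟪u0.fn x, φ x⟫_ℝ)
      = ∫ s in (0 : ℝ)..t, rhs (n s) (u s) (G s) (F s) φ
  energy : ∀ t ∈ Icc 0 T, ‖u t‖ ^ 2 / 2 + ∫ s in (0 : ℝ)..t, n s * ‖G s‖ ^ 2
    ≤ ‖u0‖ ^ 2 / 2 + ∫ s in (0 : ℝ)..t, ⟪F s, G s⟫_ℝ

/-- The Navier-Stokes equations with viscosity `n(t)` and data `d = (u₀, F)` are well posed on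
`[0,T]` in the class of Leray-Hopf weak solutions: there is a solution `u`, it is continuous with
values in `L²`, it satisfies the energy equality, and it depends continuously on the viscosity and
the data: for every `ε > 0` all Leray-Hopf solutions `u'` for all viscosities and data in a
neighbourhood satisfy `‖u'(t) - u(t)‖ ≤ ε` on `[0,T]` and `∫ ‖∇u' - ∇u‖² ≤ ε`. In particular `u`
is the only Leray-Hopf solution. -/
def WellPosed {Ω : Set R3} {ν T : ℝ} {p : ℝ≥0∞} [Fact (1 ≤ p)] (n : Visc ν T p)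
    (d : Data Ω T) : Prop :=
  ∃ (u : ℝ → L2 Ω R3) (G : ℝ → L2 Ω Mat), IsLH Ω T n.fn d.F d.u0 u G ∧
    ContinuousOn u (Icc 0 T) ∧
    (∀ t ∈ Icc 0 T, ‖u t‖ ^ 2 / 2 + ∫ s in (0 : ℝ)..t, n.fn s * ‖G s‖ ^ 2
      = ‖d.u0‖ ^ 2 / 2 + ∫ s in (0 : ℝ)..t, ⟪d.F s, G s⟫_ℝ) ∧
    ∀ ε > 0, ∃ δ > 0, ∀ (n' : Visc ν T p) (d' : Data Ω T), dist n' n < δ → dist d' d < δ →
      ∀ u' G', IsLH Ω T n'.fn d'.F d'.u0 u' G' →
        (∀ t ∈ Icc 0 T, ‖u' t - u t‖ ≤ ε) ∧ (∫ s in (0 : ℝ)..T, ‖G' s - G s‖ ^ 2) ≤ ε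

/-- Admissible data: `u₀ ∈ V = H¹_{0,σ}(Ω)` with gradient `z₀`, `F ∈ H¹(0,T; L²)`, and the initial
acceleration `P(-u₀·∇u₀ + a Δu₀ + f(0))` is in `L²(Ω)` for some value `a ≥ ν` of the viscosity
(this holds for all `a` if `u₀ ∈ V ∩ H²` and `f(0) ∈ H`). -/
def IsAdmissible {Ω : Set R3} {T : ℝ} (ν : ℝ) (d : Data Ω T) : Prop :=
  ∃ (z0 : L2 Ω Mat) (F F' : ℝ → L2 Ω Mat) (a : ℝ) (h : L2 Ω R3), (d.u0, z0) ∈ H1graph Ω ∧
    d.F =ᵐ[volume.restrict (Ioc 0 T)] F ∧ IsH1 T F F' ∧ ν ≤ a ∧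
    ∀ φ, IsTest Ω φ → rhs a d.u0 z0 (F 0) φ = ∫ x in Ω, ⟪h.fn x, φ x⟫_ℝ

end H772R2.NS.Pub
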