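import Mathlib
import Pool.Agent.H772R2.NSG.PubG
import Pool.Agent.H772R2.NSG.Gen
import Pool.Agent.H772R2.NSR.Final

/-!
The generic well-posedness theorem in terms of the public definitions.
-/

set_option linter.unusedSectionVars false

open MeasureTheory Set Filter Topology Metric
open scoped InnerProductSpace NNReal ENNReal ContDiff

namespace H772R2.NSG

open H772R2.NS H772R2.NS.Pub H772R2.NSR

section mid

variable {Ω : Set E3} {T ν : ℝ}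

theorem fst_mem_L2sigma {p : L2V Ω × L2M Ω} (hp : p ∈ graphW Ω) : p.1 ∈ NS.L2sigma Ω := by
  have hp' : p ∈ closure (preW Ω : Set (L2V Ω × L2M Ω)) := by
    have := hp
    unfold graphW at this
    rwa [← SetLike.mem_coe, Submodule.topologicalClosure_coe] at this
  have h1 : p.1 ∈ Prod.fst '' closure (preW Ω : Set (L2V Ω × L2M Ω)) := ⟨p, hp', rfl⟩
  have h2 := image_closure_subset_closure_image (s := (preW Ω : Set (L2V Ω × L2M Ω)))
    continuous_fst h1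
  refine closure_mono ?_ h2
  rintro v ⟨q, ⟨φ, k1, k2, k3⟩, rfl⟩
  exact ⟨φ, k1, k2⟩

theorem closure_fst_subset :
    closure {x : L2V Ω | ∃ y, (x, y) ∈ graphW Ω} ⊆ NS.L2sigma Ω := by
  refine closure_minimal ?_ isClosed_closure
  rintro x ⟨y, hy⟩
  exact fst_mem_L2sigma hy

theorem dense_fst {x : L2V Ω} (hx : x ∈ NS.L2sigma Ω) {ε : ℝ} (hε : 0 < ε) :
    ∃ w ∈ graphW Ω, ‖x - w.1‖ ≤ ε := by
  obtain ⟨v, ⟨φ, k1, k2⟩, k3⟩ := Metric.mem_closure_iff.mp hx ε hε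
  obtain ⟨p, hp, hp1, hp2⟩ := exists_pair k1
  refine ⟨p, hp, ?_⟩
  have e : p.1 = v := Lp.ext (hp1.trans k2.symm)
  rw [e, ← dist_eq_norm]
  exact k3.le

theorem lh_of_mid (hΩ : IsOpen Ω) (hb : Bornology.IsBounded Ω) {n : ℝ → ℝ} {F : ℝ → L2M Ω}
    (Co : Coef ν T n F) {u0 : L2V Ω} {u : ℝ → L2V Ω} {G : ℝ → L2M Ω} (h0 : u 0 = u0)
    (hm : AEStronglyMeasurable u (volume.restrict (Ioc 0 T)))
    (hW : ∀ᵐ s ∂(volume.restrict (Ioc 0 T)), (u s, G s) ∈ graphW Ω)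
    (hG : MemLp G 2 (volume.restrict (Ioc 0 T)))
    (hd : Integrable (fun s => n s * ‖G s‖ ^ 2) (volume.restrict (Ioc 0 T)))
    (heq : ∀ φ : E3 → E3, NS.IsTest Ω φ → ∀ t ∈ Icc 0 T,
      (∫ x in (show Set R3 from Ω), ⟪L2.fn (Ω := Ω) (E := R3) (u t) x, (φ : R3 → R3) x⟫_ℝ)
        - (∫ x in (show Set R3 from Ω), ⟪L2.fn (Ω := Ω) (E := R3) u0 x, (φ : R3 → R3) x⟫_ℝ)
      = ∫ s in (0 : ℝ)..t, Pub.rhs (Ω := Ω) (n s) (u s) (G s) (F s) φ)
    (hen : ∀ t ∈ Icc 0 T, ‖u t‖ ^ 2 / 2 + ∫ s in (0 : ℝ)..t, n s * ‖G s‖ ^ 2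
      ≤ ‖u0‖ ^ 2 / 2 + ∫ s in (0 : ℝ)..t, ⟪F s, G s⟫_ℝ) :
    LH (graphW Ω) tensL T n F u0 u G := by
  obtain ⟨C, Fr⟩ := exists_frame hΩ hb
  have hmeas : MeasurableSet Ω := hΩ.measurableSet
  have hmm : AEStronglyMeasurable (fun s => tensL (u s)) (volume.restrict (Ioc 0 T)) :=
    aestronglyMeasurable_tensL hmeas hm hG.aestronglyMeasurable hW
  have hG2 := (memLp_two_iff_integrable_sq_norm hG.aestronglyMeasurable).mp hG
  have hmi : Integrable (fun s => tensL (u s)) (volume.restrict (Ioc 0 T)) := by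
    refine (hG2.const_mul C).mono' hmm ?_
    filter_upwards [hW] with s hs
    have h1 := norm_m_le Fr (p := (u s, G s)) hs
    exact h1
  have hGi : Integrable (fun s => F s - n s • G s + tensL (u s)) (volume.restrict (Ioc 0 T)) :=
    ((Co.F2.integrable (by norm_num)).sub (int_smul Co.n2 hG)).add hmi
  refine ⟨h0, hm, hmm, hW, hG, hd, ?_, hen⟩
  intro p hp t ht
  have hsub : (volume.restrict (Ioc 0 t) : Measure ℝ) ≤ volume.restrict (Ioc 0 T) :=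
    Measure.restrict_mono (Ioc_subset_Ioc_right ht.2) le_rfl
  have hrw : ∀ q : L2V Ω × L2M Ω, ∫ s in (0 : ℝ)..t, ⟪F s - n s • G s + tensL (u s), q.2⟫_ℝ
      = ⟪q.2, ∫ s in Ioc 0 t, (F s - n s • G s + tensL (u s))⟫_ℝ := by
    intro q
    rw [intervalIntegral.integral_of_le ht.1, ← integral_inner (hGi.mono_measure hsub)]
    exact integral_congr_ae (Eventually.of_forall fun s => real_inner_comm _ _)
  have hz := graphW_induction (fun q : L2V Ω × L2M Ω => ⟪u t - u0, q.1⟫_ℝ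
      - ⟪q.2, ∫ s in Ioc 0 t, (F s - n s • G s + tensL (u s))⟫_ℝ)
    (by fun_prop) (fun q hq => by
      obtain ⟨φ, k1, k2, k3⟩ := hq
      have h1 := heq φ k1 t ht
      have e1 := pub_inner (Ω := Ω) (u t) k2
      have e2 := pub_inner (Ω := Ω) u0 k2
      have e3 : ∫ s in (0 : ℝ)..t, Pub.rhs (Ω := Ω) (n s) (u s) (G s) (F s) φ
          = ∫ s in (0 : ℝ)..t, ⟪F s - n s • G s + tensL (u s), q.2⟫_ℝ := by
        rw [intervalIntegral.integral_of_le ht.1, intervalIntegral.integral_of_le ht.1]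
        refine integral_congr_ae ?_
        filter_upwards [ae_mono hsub hW] with s hs
        exact pub_rhs hmeas (n s) (F s) hs k3
      have h2 : ⟪u t, q.1⟫_ℝ - ⟪u0, q.1⟫_ℝ
          = ∫ s in (0 : ℝ)..t, ⟪F s - n s • G s + tensL (u s), q.2⟫_ℝ := by
        rw [← e3, ← h1]
        exact (congrArg₂ (· - ·) e1 e2).symm
      show ⟪u t - u0, q.1⟫_ℝ - ⟪q.2, ∫ s in Ioc 0 t, (F s - n s • G s + tensL (u s))⟫_ℝ = 0
      rw [← hrw q, ← h2, inner_sub_left, sub_self]) hp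
  rw [hrw]
  exact sub_eq_zero.mp hz

theorem mid_of_lh (hΩ : IsOpen Ω) {n : ℝ → ℝ} {F : ℝ → L2M Ω}
    {u0 : L2V Ω} {u : ℝ → L2V Ω} {G : ℝ → L2M Ω} (L : LH (graphW Ω) tensL T n F u0 u G) :
    ∀ φ : E3 → E3, NS.IsTest Ω φ → ∀ t ∈ Icc 0 T,
      (∫ x in (show Set R3 from Ω), ⟪L2.fn (Ω := Ω) (E := R3) (u t) x, (φ : R3 → R3) x⟫_ℝ)
        - (∫ x in (show Set R3 from Ω), ⟪L2.fn (Ω := Ω) (E := R3) u0 x, (φ : R3 → R3) x⟫_ℝ)
      = ∫ s in (0 : ℝ)..t, Pub.rhs (Ω := Ω) (n s) (u s) (G s) (F s) φ := by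
  intro φ hφ t ht
  have hmeas : MeasurableSet Ω := hΩ.measurableSet
  have hsub : (volume.restrict (Ioc 0 t) : Measure ℝ) ≤ volume.restrict (Ioc 0 T) :=
    Measure.restrict_mono (Ioc_subset_Ioc_right ht.2) le_rfl
  obtain ⟨p, hp, hp1, hp2⟩ := exists_pair (Ω := Ω) hφ
  have h1 := L.weak p hp t ht
  have e1 := pub_inner (Ω := Ω) (u t) hp1
  have e2 := pub_inner (Ω := Ω) u0 hp1
  have e3 : ∫ s in (0 : ℝ)..t, Pub.rhs (Ω := Ω) (n s) (u s) (G s) (F s) φ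
      = ∫ s in (0 : ℝ)..t, ⟪F s - n s • G s + tensL (u s), p.2⟫_ℝ := by
    rw [intervalIntegral.integral_of_le ht.1, intervalIntegral.integral_of_le ht.1]
    refine integral_congr_ae ?_
    filter_upwards [ae_mono hsub L.mem] with s hs
    exact pub_rhs hmeas (n s) (F s) hs hp2
  refine (congrArg₂ (· - ·) e1 e2).trans ?_
  refine Eq.trans ?_ e3.symm
  rw [← h1, inner_sub_left]

end mid


end H772R2.NSG
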