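import Mathlib
import Pool.Agent.H772R2.NSG.Ctl

/-!
Controlled strong solutions on the whole half line.
-/

set_option linter.unusedSectionVars false

open MeasureTheory Set Filter Topology Metric
open scoped InnerProductSpace NNReal ENNReal ContDiff

namespace H772R2.NSG

open H772R2.NSR (Frame grad_unique prim_cont ii_of_cont ii_mono young4 ae_deriv_of_prim
  hasDerivAt_prim memLp_ii exists_weak_deriv')

variable {H K : Type*} [NormedAddCommGroup H] [InnerProductSpace ℝ H] [CompleteSpace H]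
  [NormedAddCommGroup K] [InnerProductSpace ℝ K] [CompleteSpace K]

variable {W : Submodule ℝ (H × K)} {m : H → K} {C : ℝ} {ν T : ℝ}

/-- Controlled strong solution on `[0,T]`. -/
structure Bd (W : Submodule ℝ (H × K)) (m : H → K) (ν T : ℝ) (F : ℝ → K) (u u1 : ℝ → H)
    (z z1 g1 : ℝ → K) (lam : ℝ → ℝ) : Prop where
  mem : ∀ t ∈ Icc 0 T, (u t, z t) ∈ W
  mem1 : ∀ᵐ s ∂(volume.restrict (Ioc 0 T)), (u1 s, z1 s) ∈ W
  bd : ∃ c, ∀ᵐ s ∂(volume.restrict (Ioc 0 T)), ‖u1 s‖ ≤ c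
  u1m : MemLp u1 2 (volume.restrict (Ioc 0 T))
  z1m : MemLp z1 2 (volume.restrict (Ioc 0 T))
  g1m : MemLp g1 2 (volume.restrict (Ioc 0 T))
  pu : ∀ a b, 0 ≤ a → a ≤ b → b ≤ T → u b - u a = ∫ s in a..b, u1 s
  pz : ∀ a b, 0 ≤ a → a ≤ b → b ≤ T → z b - z a = ∫ s in a..b, z1 s
  pg : ∀ a b, 0 ≤ a → a ≤ b → b ≤ T → (-(lam b • z b)) - (-(lam a • z a)) = ∫ s in a..b, g1 s
  weak : ∀ p ∈ W, ∀ t ∈ Icc 0 T, ⟪u t - u 0, p.1⟫_ℝ
    = ∫ s in (0 : ℝ)..t, ⟪F s - (ν + lam s) • z s + m (u s), p.2⟫_ℝ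
  lc : ContinuousOn lam (Icc 0 T)
  energy : ∀ t ∈ Icc 0 T, ‖u t‖ ^ 2 / 2 + ∫ s in (0 : ℝ)..t, (ν + lam s) * ‖z s‖ ^ 2
    = ‖u 0‖ ^ 2 / 2 + ∫ s in (0 : ℝ)..t, ⟪F s, z s⟫_ℝ

theorem Ctl.body {T' : ℝ} {F : ℝ → K} {u u1 U U1 : ℝ → H} {z z1 g1 Z Z1 G1 : ℝ → K}
    {lam L : ℝ → ℝ} (S : Ctl W m ν T' F u u1 z z1 g1 lam) (hT : 0 ≤ T) (h : T ≤ T')
    (eu : ∀ t ≤ T', U t = u t) (eu1 : ∀ t ≤ T', U1 t = u1 t) (ez : ∀ t ≤ T', Z t = z t)
    (ez1 : ∀ t ≤ T', Z1 t = z1 t) (eg1 : ∀ t ≤ T', G1 t = g1 t) (el : ∀ t ≤ T', L t = lam t) :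
    Bd W m ν T F U U1 Z Z1 G1 L := by
  have hsubI : Icc 0 T ⊆ Icc 0 T' := Icc_subset_Icc_right h
  have hsub : (volume.restrict (Ioc 0 T) : Measure ℝ) ≤ volume.restrict (Ioc 0 T') :=
    Measure.restrict_mono (Ioc_subset_Ioc_right h) le_rfl
  have h0 : (0 : ℝ) ≤ T' := hT.trans h
  have hcong : ∀ {Y : Type _} {a b : ℝ → Y}, (∀ t ≤ T', a t = b t) →
      a =ᵐ[volume.restrict (Ioc 0 T)] b := by
    intro Y a b hab
    filter_upwards [ae_restrict_mem measurableSet_Ioc] with s hs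
    exact hab s (hs.2.trans h)
  have hcong' : ∀ {Y : Type _} {a b : ℝ → Y}, (∀ t ≤ T', a t = b t) →
      a =ᵐ[volume.restrict (Ioc 0 T)] b := by
    intro Y a b hab
    filter_upwards [ae_restrict_mem measurableSet_Ioc] with s hs
    exact hab s (hs.2.trans h)
  have hintH : ∀ {a b : ℝ → H}, (∀ t ≤ T', a t = b t) → ∀ c d, c ≤ d → d ≤ T →
      ∫ s in c..d, a s = ∫ s in c..d, b s := by
    intro a b hab c d hcd hd
    refine intervalIntegral.integral_congr fun s hs => ?_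
    rw [uIcc_of_le hcd] at hs
    exact hab s (hs.2.trans (hd.trans h))
  have hintK : ∀ {a b : ℝ → K}, (∀ t ≤ T', a t = b t) → ∀ c d, c ≤ d → d ≤ T →
      ∫ s in c..d, a s = ∫ s in c..d, b s := by
    intro a b hab c d hcd hd
    refine intervalIntegral.integral_congr fun s hs => ?_
    rw [uIcc_of_le hcd] at hs
    exact hab s (hs.2.trans (hd.trans h))
  have hintR : ∀ {a b : ℝ → ℝ}, (∀ t ≤ T', a t = b t) → ∀ c d, c ≤ d → d ≤ T →
      ∫ s in c..d, a s = ∫ s in c..d, b s := by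
    intro a b hab c d hcd hd
    refine intervalIntegral.integral_congr fun s hs => ?_
    rw [uIcc_of_le hcd] at hs
    exact hab s (hs.2.trans (hd.trans h))
  refine ⟨?_, ?_, ?_, ?_, ?_, ?_, ?_, ?_, ?_, ?_, ?_, ?_⟩
  · intro t ht
    have := (hsubI ht).2
    rw [eu t this, ez t this]
    exact S.mem t (hsubI ht)
  · filter_upwards [ae_mono hsub S.mem1, ae_restrict_mem measurableSet_Ioc] with s hs hsI
    have := hsI.2.trans h
    rw [eu1 s this, ez1 s this]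
    exact hs
  · obtain ⟨c, hc⟩ := S.bd
    refine ⟨c, ?_⟩
    filter_upwards [ae_mono hsub hc, ae_restrict_mem measurableSet_Ioc] with s hs hsI
    rw [eu1 s (hsI.2.trans h)]
    exact hs
  · exact (memLp_congr_ae (hcong eu1)).mpr (S.u1m.mono_measure hsub)
  · exact (memLp_congr_ae (hcong' ez1)).mpr (S.z1m.mono_measure hsub)
  · exact (memLp_congr_ae (hcong' eg1)).mpr (S.g1m.mono_measure hsub)
  · intro a b ha hab hb
    rw [eu b (hb.trans h), eu a (hab.trans (hb.trans h)), hintH eu1 a b hab hb]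
    exact S.pu a b ha hab (hb.trans h)
  · intro a b ha hab hb
    rw [ez b (hb.trans h), ez a (hab.trans (hb.trans h)), hintK ez1 a b hab hb]
    exact S.pz a b ha hab (hb.trans h)
  · intro a b ha hab hb
    rw [ez b (hb.trans h), ez a (hab.trans (hb.trans h)), el b (hb.trans h),
      el a (hab.trans (hb.trans h)), hintK eg1 a b hab hb]
    exact S.pg a b ha hab (hb.trans h)
  · intro p hp t ht
    rw [eu t (ht.2.trans h), eu 0 h0, S.weak p hp t (hsubI ht)]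
    refine (hintR (fun s hs => ?_) 0 t ht.1 ht.2).symm
    rw [eu s hs, ez s hs, el s hs]
  · refine (S.lc.mono hsubI).congr fun t ht => ?_
    exact el t (ht.2.trans h)
  · intro t ht
    rw [eu t (ht.2.trans h), eu 0 h0]
    have e1 : ∫ s in (0 : ℝ)..t, (ν + L s) * ‖Z s‖ ^ 2
        = ∫ s in (0 : ℝ)..t, (ν + lam s) * ‖z s‖ ^ 2 :=
      hintR (fun s hs => by rw [ez s hs, el s hs]) 0 t ht.1 ht.2
    have e2 : ∫ s in (0 : ℝ)..t, ⟪F s, Z s⟫_ℝ = ∫ s in (0 : ℝ)..t, ⟪F s, z s⟫_ℝ :=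
      hintR (fun s hs => by rw [ez s hs]) 0 t ht.1 ht.2
    rw [e1, e2]
    exact S.energy t (hsubI ht)

/-- the state of the construction. -/
structure Sta (H K : Type*) where
  T : ℝ
  u : ℝ → H
  u1 : ℝ → H
  z : ℝ → K
  z1 : ℝ → K
  g1 : ℝ → K
  lam : ℝ → ℝ

/-- the properties of the state. -/
structure IsSta (W : Submodule ℝ (H × K)) (m : H → K) (ν : ℝ) (F : ℝ → K) (x0 : H) (ε : ℝ)
    (k : ℕ) (s : Sta H K) : Prop where
  k_le : (k : ℝ) ≤ s.T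
  init : s.u 0 = x0
  ctl : Ctl W m ν s.T F s.u s.u1 s.z s.z1 s.g1 s.lam
  c0 : cst0 s.T s.lam ≤ ENNReal.ofReal (ε * (1 - (1 / 2) ^ k))
  c1 : cst1 s.T s.lam ≤ ε * (1 - (1 / 2) ^ k)
  c2 : cst2 s.T s.lam s.z ≤ ε * (1 - (1 / 2) ^ k)

/-- the extension relation. -/
structure Ext (s s' : Sta H K) : Prop where
  T_le : s.T ≤ s'.T
  u : ∀ t ≤ s.T, s'.u t = s.u t
  u1 : ∀ t ≤ s.T, s'.u1 t = s.u1 t
  z : ∀ t ≤ s.T, s'.z t = s.z t
  z1 : ∀ t ≤ s.T, s'.z1 t = s.z1 t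
  g1 : ∀ t ≤ s.T, s'.g1 t = s.g1 t
  lam : ∀ t ≤ s.T, s'.lam t = s.lam t

theorem Ext.refl (s : Sta H K) : Ext s s :=
  ⟨le_rfl, fun _ _ => rfl, fun _ _ => rfl, fun _ _ => rfl, fun _ _ => rfl, fun _ _ => rfl,
    fun _ _ => rfl⟩

theorem Ext.trans {s s' s'' : Sta H K} (h : Ext s s') (h' : Ext s' s'') : Ext s s'' :=
  ⟨h.T_le.trans h'.T_le,
    fun t ht => (h'.u t (ht.trans h.T_le)).trans (h.u t ht),
    fun t ht => (h'.u1 t (ht.trans h.T_le)).trans (h.u1 t ht),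
    fun t ht => (h'.z t (ht.trans h.T_le)).trans (h.z t ht),
    fun t ht => (h'.z1 t (ht.trans h.T_le)).trans (h.z1 t ht),
    fun t ht => (h'.g1 t (ht.trans h.T_le)).trans (h.g1 t ht),
    fun t ht => (h'.lam t (ht.trans h.T_le)).trans (h.lam t ht)⟩

variable {F F1 : ℝ → K} {x0 : H} {z0 : K} {ε : ℝ}

theorem sta_zero (h0 : (x0, z0) ∈ W) {g0 : H}
    (hc : ∀ p ∈ W, ⟪F 0 - ν • z0 + m x0, p.2⟫_ℝ = ⟪g0, p.1⟫_ℝ) :
    IsSta W m ν F x0 ε 0 ⟨0, fun _ => x0, fun _ => 0, fun _ => z0, fun _ => 0, fun _ => 0,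
      fun _ => 0⟩ := by
  have hI : ∀ t ∈ Icc (0 : ℝ) 0, t = 0 := fun t ht => le_antisymm ht.2 ht.1
  refine ⟨by simp, rfl, ⟨fun _ _ => h0, by simp, ⟨0, by simp⟩, by simp, by simp, by simp, ?_, ?_,
    ?_, ?_, continuousOn_const, fun _ => le_rfl, rfl, rfl, ?_, ⟨g0, hc⟩⟩, ?_, ?_, ?_⟩
  · intro a b _ _ _; simp
  · intro a b _ _ _; simp
  · intro a b _ _ _; simp
  · intro p _ t ht
    rw [hI t ht]; simp
  · intro t ht
    rw [hI t ht]; simp
  · simp [cst0]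
  · simp [cst1]
  · simp [cst2]

theorem memLp_shift {Y : Type*} [NormedAddCommGroup Y] {f : ℝ → Y} {a S : ℝ}
    (hf : MemLp f 2 (volume.restrict (Ioc a (a + S)))) :
    MemLp (fun s => f (a + s)) 2 (volume.restrict (Ioc 0 S)) := by
  have h1 : MeasurePreserving (fun s : ℝ => a + s) (volume.restrict (Ioc 0 S))
      (volume.restrict (Ioc a (a + S))) := by
    have := (measurePreserving_add_left (volume : Measure ℝ) a).restrict_preimage
      (measurableSet_Ioc (a := a) (b := a + S))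
    have e : (fun s : ℝ => a + s) ⁻¹' Ioc a (a + S) = Ioc 0 S := by
      ext s; simp only [mem_preimage, mem_Ioc]
      constructor <;> intro h <;> constructor <;> linarith [h.1, h.2]
    rwa [e] at this
  exact hf.comp_measurePreserving h1

theorem sta_succ (Fr : Frame W m C) (hν : 0 < ν)
    (hF1 : ∀ T, 0 < T → MemLp F1 2 (volume.restrict (Ioc 0 T)))
    (hF : ∀ a b, 0 ≤ a → a ≤ b → F b - F a = ∫ s in a..b, F1 s)
    (hcomp : ∀ R : ℝ, TotallyBounded {v : H | ∃ z, (v, z) ∈ W ∧ ‖z‖ ≤ R})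
    (hε : 0 < ε) {k : ℕ} {s : Sta H K} (hs : IsSta W m ν F x0 ε k s) :
    ∃ s', IsSta W m ν F x0 ε (k + 1) s' ∧ Ext s s' := by
  have hT0 : 0 ≤ s.T := le_trans (by positivity) hs.k_le
  obtain ⟨g, hg⟩ := hs.ctl.endc
  have hε' : 0 < ε * (1 / 2) ^ (k + 1) := by positivity
  have e1 : MemLp (fun r => F1 (s.T + r)) 2 (volume.restrict (Ioc 0 3)) := by
    refine memLp_shift ?_
    refine (hF1 (s.T + 3) (by linarith)).mono_measure (Measure.restrict_mono ?_ le_rfl)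
    exact Ioc_subset_Ioc_left hT0
  have e2 : ∀ a b, 0 ≤ a → a ≤ b → b ≤ 3 → (fun r => F (s.T + r)) b - (fun r => F (s.T + r)) a
      = ∫ r in a..b, (fun r => F1 (s.T + r)) r := by
    intro a b ha hab _
    simp only
    rw [hF (s.T + a) (s.T + b) (by linarith) (by linarith),
      intervalIntegral.integral_comp_add_left]
  obtain ⟨S, v, v1, y, y1, h1, kap, hS1, hS2, hv, hy, C2, d0, d1, d2⟩ := seg (Fr := Fr) hν e1 e2
    hcomp (hs.ctl.mem s.T ⟨hT0, le_rfl⟩) (g0 := g) (by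
      intro p hp
      simp only [add_zero]
      exact hg p hp) hε'
  have hS : 0 < S := by linarith
  have hFc : ContinuousOn F (Icc 0 (s.T + S)) :=
    prim_cont (hF1 (s.T + S) (by linarith)) fun a b ha hab _ => hF a b ha hab
  have hgl := Ctl.glue Fr hT0 hS hFc hs.ctl C2 hv hy
  have hpow : ε * (1 - (1 / 2) ^ k) + ε * (1 / 2) ^ (k + 1) = ε * (1 - (1 / 2) ^ (k + 1)) := by
    rw [pow_succ]; ring
  have hle1 : (1 / 2 : ℝ) ^ k ≤ 1 := pow_le_one₀ (by norm_num) (by norm_num)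
  refine ⟨⟨s.T + S, gl s.T s.u v, gl s.T s.u1 v1, gl s.T s.z y, gl s.T s.z1 y1, gl s.T s.g1 h1,
    gl s.T s.lam kap⟩, ⟨?_, ?_, hgl, ?_, ?_, ?_⟩, ⟨by show s.T ≤ s.T + S; linarith,
    fun t ht => gl_le ht, fun t ht => gl_le ht, fun t ht => gl_le ht, fun t ht => gl_le ht,
    fun t ht => gl_le ht, fun t ht => gl_le ht⟩⟩
  · have := hs.k_le
    show ((k + 1 : ℕ) : ℝ) ≤ s.T + S
    push_cast
    linarith
  · show gl s.T s.u v 0 = x0
    rw [gl_le hT0]; exact hs.init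
  · show cst0 (s.T + S) (gl s.T s.lam kap) ≤ _
    refine cst0_glue.trans ((add_le_add hs.c0 d0).trans ?_)
    rw [← ENNReal.ofReal_add (by nlinarith) hε'.le, hpow]
  · show cst1 (s.T + S) (gl s.T s.lam kap) ≤ _
    rw [cst1_glue hT0 hS hs.ctl C2, ← hpow]
    exact add_le_add hs.c1 d1
  · show cst2 (s.T + S) (gl s.T s.lam kap) (gl s.T s.z y) ≤ _
    rw [cst2_glue hT0 hS hs.ctl C2, ← hpow]
    exact add_le_add hs.c2 d2

theorem global_abs (Fr : Frame W m C) (hν : 0 < ν)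
    (hF1 : ∀ T, 0 < T → MemLp F1 2 (volume.restrict (Ioc 0 T)))
    (hF : ∀ a b, 0 ≤ a → a ≤ b → F b - F a = ∫ s in a..b, F1 s)
    (hcomp : ∀ R : ℝ, TotallyBounded {v : H | ∃ z, (v, z) ∈ W ∧ ‖z‖ ≤ R})
    (h0 : (x0, z0) ∈ W) {g0 : H}
    (hc : ∀ p ∈ W, ⟪F 0 - ν • z0 + m x0, p.2⟫_ℝ = ⟪g0, p.1⟫_ℝ) (hε : 0 < ε) :
    ∃ (u u1 : ℝ → H) (z z1 g1 : ℝ → K) (lam : ℝ → ℝ), u 0 = x0 ∧
      (∀ t, 0 ≤ lam t) ∧ lam 0 = 0 ∧ volume {t | 0 ≤ t ∧ lam t ≠ 0} ≤ ENNReal.ofReal ε ∧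
      ∀ T, 0 < T → Bd W m ν T F u u1 z z1 g1 lam ∧ cst1 T lam ≤ ε ∧ cst2 T lam z ≤ ε := by
  let seqs : (k : ℕ) → {s : Sta H K // IsSta W m ν F x0 ε k s} := fun k =>
    Nat.rec ⟨_, sta_zero h0 hc⟩ (fun _ s =>
      ⟨(sta_succ Fr hν hF1 hF hcomp hε s.2).choose,
        (sta_succ Fr hν hF1 hF hcomp hε s.2).choose_spec.1⟩) k
  let σ : ℕ → Sta H K := fun k => (seqs k).1
  have hσ : ∀ k, IsSta W m ν F x0 ε k (σ k) := fun k => (seqs k).2
  have hext1 : ∀ k, Ext (σ k) (σ (k + 1)) := fun k =>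
    (sta_succ Fr hν hF1 hF hcomp hε (seqs k).2).choose_spec.2
  have hext : ∀ j k, j ≤ k → Ext (σ j) (σ k) := by
    intro j k hjk
    induction k, hjk using Nat.le_induction with
    | base => exact Ext.refl _
    | succ k _ ih => exact ih.trans (hext1 k)
  have hT : ∀ k : ℕ, (k : ℝ) ≤ (σ k).T := fun k => (hσ k).k_le
  -- the index at time t
  have hN : ∀ t : ℝ, t ≤ (σ ⌈t⌉₊).T := fun t => (Nat.le_ceil t).trans (hT _)
  have hpow : ∀ k : ℕ, ε * (1 - (1 / 2) ^ k) ≤ ε := by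
    intro k
    have : (0 : ℝ) ≤ (1 / 2) ^ k := by positivity
    nlinarith
  refine ⟨fun t => (σ ⌈t⌉₊).u t, fun t => (σ ⌈t⌉₊).u1 t, fun t => (σ ⌈t⌉₊).z t,
    fun t => (σ ⌈t⌉₊).z1 t, fun t => (σ ⌈t⌉₊).g1 t, fun t => (σ ⌈t⌉₊).lam t, ?_, ?_, ?_, ?_, ?_⟩
  · exact (hσ _).init
  · intro t; exact (hσ _).ctl.l0 t
  · exact (hσ _).ctl.lz
  · -- the measure of the support
    have hset : {t : ℝ | 0 ≤ t ∧ (σ ⌈t⌉₊).lam t ≠ 0}
        ⊆ ⋃ k, {t ∈ Icc 0 (σ k).T | (σ k).lam t ≠ 0} := by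
      rintro t ⟨ht, hne⟩
      exact mem_iUnion.mpr ⟨⌈t⌉₊, ⟨ht, hN t⟩, hne⟩
    refine (measure_mono hset).trans ?_
    have hmono : Monotone fun k => {t ∈ Icc 0 (σ k).T | (σ k).lam t ≠ 0} := by
      intro j k hjk t ht
      have he := hext j k hjk
      refine ⟨⟨ht.1.1, ht.1.2.trans he.T_le⟩, ?_⟩
      rw [he.lam t ht.1.2]
      exact ht.2
    rw [hmono.measure_iUnion]
    refine iSup_le fun k => ?_
    exact (hσ k).c0.trans (ENNReal.ofReal_le_ofReal (hpow k))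
  · intro T hT0
    have key : ∀ t ≤ (σ ⌈T⌉₊).T, Ext (σ ⌈t⌉₊) (σ ⌈T⌉₊) ∨ Ext (σ ⌈T⌉₊) (σ ⌈t⌉₊) := by
      intro t _
      rcases le_total ⌈t⌉₊ ⌈T⌉₊ with h | h
      · exact Or.inl (hext _ _ h)
      · exact Or.inr (hext _ _ h)
    have hlam : ∀ t ≤ (σ ⌈T⌉₊).T, (σ ⌈t⌉₊).lam t = (σ ⌈T⌉₊).lam t := fun t ht => by
      rcases key t ht with h | h
      · exact (h.lam t (hN t)).symm
      · exact h.lam t ht
    have hz : ∀ t ≤ (σ ⌈T⌉₊).T, (σ ⌈t⌉₊).z t = (σ ⌈T⌉₊).z t := fun t ht => by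
      rcases key t ht with h | h
      · exact (h.z t (hN t)).symm
      · exact h.z t ht
    have hC := (hσ ⌈T⌉₊).ctl
    have hTN : T ≤ (σ ⌈T⌉₊).T := hN T
    refine ⟨hC.body hT0.le hTN ?_ ?_ hz ?_ ?_ hlam, ?_, ?_⟩
    · intro t ht
      rcases key t ht with h | h
      · exact (h.u t (hN t)).symm
      · exact h.u t ht
    · intro t ht
      rcases key t ht with h | h
      · exact (h.u1 t (hN t)).symm
      · exact h.u1 t ht
    · intro t ht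
      rcases key t ht with h | h
      · exact (h.z1 t (hN t)).symm
      · exact h.z1 t ht
    · intro t ht
      rcases key t ht with h | h
      · exact (h.g1 t (hN t)).symm
      · exact h.g1 t ht
    · refine le_trans ?_ ((hσ ⌈T⌉₊).c1.trans (hpow _))
      have e : cst1 T (fun t => (σ ⌈t⌉₊).lam t) = cst1 T (σ ⌈T⌉₊).lam := by
        unfold cst1
        refine intervalIntegral.integral_congr fun s hs => ?_
        rw [uIcc_of_le hT0.le] at hs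
        simp only
        rw [hlam s (hs.2.trans hTN)]
      rw [e]
      exact ii_mono (cst1_cont hC.lc hC.l0) (fun t _ => mul_nonneg (pow_nonneg (hC.l0 t) 5)
        (lg_nn (hC.l0 t))) ⟨hT0.le, hTN⟩
    · refine le_trans ?_ ((hσ ⌈T⌉₊).c2.trans (hpow _))
      have e : cst2 T (fun t => (σ ⌈t⌉₊).lam t) (fun t => (σ ⌈t⌉₊).z t)
          = cst2 T (σ ⌈T⌉₊).lam (σ ⌈T⌉₊).z := by
        unfold cst2
        refine intervalIntegral.integral_congr fun s hs => ?_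
        rw [uIcc_of_le hT0.le] at hs
        simp only
        rw [hlam s (hs.2.trans hTN), hz s (hs.2.trans hTN)]
      rw [e]
      exact ii_mono (cst2_cont hC.lc hC.zc) (fun t _ => mul_nonneg
        (Real.rpow_nonneg (norm_nonneg _) _) (Real.rpow_nonneg (lg_nn (norm_nonneg _)) _))
        ⟨hT0.le, hTN⟩

end H772R2.NSG
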