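import Mathlib
import Pool.Agent.H772R2.NS.PubBridge
import Pool.Agent.H772R2.NSR.PubR
import Pool.Agent.H772R2.NSG.Glob
import Pool.Agent.H772R2.NSR.Rell
import Pool.Agent.H772R2.NSR.Final

/-!
Small forces on the half line, in terms of the public definitions.
-/

set_option linter.unusedSectionVars false

open MeasureTheory Set Filter Topology Metric
open scoped InnerProductSpace NNReal ENNReal ContDiff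

namespace H772R2.NSG

open H772R2.NS H772R2.NS.Pub H772R2.NSR

theorem bd_eqn {Ω : Set E3} (hΩ : IsOpen Ω) {ν T : ℝ} {F : ℝ → L2M Ω} {u u1 : ℝ → L2V Ω}
    {z z1 g1 : ℝ → L2M Ω} {lam : ℝ → ℝ}
    (B : Bd (graphW Ω) tensL ν T F u u1 z z1 g1 lam) (φ : E3 → E3) (hφ : NS.IsTest Ω φ) {t : ℝ}
    (ht : t ∈ Icc 0 T) :
    (∫ x in (show Set R3 from Ω), ⟪L2.fn (Ω := Ω) (E := R3) (u t) x, (φ : R3 → R3) x⟫_ℝ)
      - (∫ x in (show Set R3 from Ω), ⟪L2.fn (Ω := Ω) (E := R3) (u 0) x, (φ : R3 → R3) x⟫_ℝ)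
    = ∫ s in (0 : ℝ)..t, Pub.rhs (Ω := Ω) ν (u s) (z s) (F s - lam s • z s) φ := by
  have hm : MeasurableSet Ω := hΩ.measurableSet
  obtain ⟨p, hp, hp1, hp2⟩ := exists_pair (Ω := Ω) hφ
  have h1 := B.weak p hp t ht
  have e1 := pub_inner (Ω := Ω) (u t) hp1
  have e2 := pub_inner (Ω := Ω) (u 0) hp1
  have h2 : ⟪u t - u 0, p.1⟫_ℝ = ⟪u t, p.1⟫_ℝ - ⟪u 0, p.1⟫_ℝ := inner_sub_left _ _ _
  have e3 : ∫ s in (0 : ℝ)..t, Pub.rhs (Ω := Ω) ν (u s) (z s) (F s - lam s • z s) φ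
      = ∫ s in (0 : ℝ)..t, ⟪F s - (ν + lam s) • z s + tensL (u s), p.2⟫_ℝ := by
    refine intervalIntegral.integral_congr ?_
    intro s hs
    rw [uIcc_of_le ht.1] at hs
    have hs' : s ∈ Icc 0 T := ⟨hs.1, hs.2.trans ht.2⟩
    have k1 := pub_rhs hm ν (F s - lam s • z s) (B.mem s hs') hp2
    refine k1.trans ?_
    have e4 : F s - lam s • z s - ν • z s + tensL (u s)
        = F s - (ν + lam s) • z s + tensL (u s) := by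
      rw [add_smul]; abel
    exact congrArg (fun w => ⟪w, p.2⟫_ℝ) e4
  refine (congrArg₂ (· - ·) e1 e2).trans ?_
  refine Eq.trans ?_ e3.symm
  rw [← h1, h2]

theorem strong_of_bd {Ω : Set E3} (hΩ : IsOpen Ω) {ν T : ℝ} {F : ℝ → L2M Ω} {u u1 : ℝ → L2V Ω}
    {z z1 g1 : ℝ → L2M Ω} {lam : ℝ → ℝ}
    (B : Bd (graphW Ω) tensL ν T F u u1 z z1 g1 lam) :
    IsStrong (show Set R3 from Ω) ν T (fun t => F t - lam t • z t) u u1 z z1 := by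
  constructor
  · intro t ht
    exact mem_pub.mp (B.mem t ht)
  · filter_upwards [B.mem1] with t ht
    exact mem_pub.mp ht
  · exact ⟨B.u1m, B.pu⟩
  · exact ⟨B.z1m, B.pz⟩
  · exact B.bd
  · intro φ hφ t ht
    exact bd_eqn hΩ B φ ((isTest_iff φ).mp hφ) ht

theorem glob_mid {Ω : Set E3} (hΩ : IsOpen Ω) (hb : Bornology.IsBounded Ω) {ν : ℝ}
    (hν : 0 < ν) {u0 : L2V Ω} {z0 : L2M Ω} (h0 : (u0, z0) ∈ graphW Ω)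
    {F F' : ℝ → L2M Ω} (hF1 : ∀ T, 0 < T → MemLp F' 2 (volume.restrict (Ioc 0 T)))
    (hF : ∀ a b, 0 ≤ a → a ≤ b → F b - F a = ∫ s in a..b, F' s)
    (hc : ∃ h : L2V Ω, ∀ φ : E3 → E3, NS.IsTest Ω φ →
      Pub.rhs (Ω := Ω) ν u0 z0 (F 0) φ
        = ∫ x in (show Set R3 from Ω), ⟪L2.fn (Ω := Ω) (E := R3) h x, (φ : R3 → R3) x⟫_ℝ)
    {ε : ℝ} (hε : 0 < ε) :
    ∃ (u u1 : ℝ → L2V Ω) (z z1 g1 : ℝ → L2M Ω) (lam : ℝ → ℝ), u 0 = u0 ∧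
      (∀ t, 0 ≤ lam t) ∧ lam 0 = 0 ∧ volume {t | 0 ≤ t ∧ lam t ≠ 0} ≤ ENNReal.ofReal ε ∧
      ∀ T, 0 < T → Bd (graphW Ω) tensL ν T F u u1 z z1 g1 lam ∧ cst1 T lam ≤ ε ∧
        cst2 T lam z ≤ ε := by
  obtain ⟨C, Fr⟩ := exists_frame hΩ hb
  obtain ⟨g0, hg0⟩ := hc
  have hm : MeasurableSet Ω := hΩ.measurableSet
  have hcomp : ∀ p ∈ graphW Ω, ⟪F 0 - ν • z0 + tensL u0, p.2⟫_ℝ = ⟪g0, p.1⟫_ℝ := by
    refine compat_ext ?_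
    rintro p ⟨φ, k1, k2, k3⟩
    rw [← pub_rhs hm ν (F 0) h0 k3, ← pub_inner (Ω := Ω) g0 k2]
    exact hg0 φ k1
  exact global_abs (W := graphW Ω) Fr hν hF1 hF (rellich_W hΩ hb) h0 hcomp hε

theorem glob_pub {Ω : Set R3} (hΩ : IsOpen Ω)
    (hb : Bornology.IsBounded Ω) {ν : ℝ} (hν : 0 < ν)
    {u0 : L2 Ω R3} {z0 : L2 Ω Mat} (h0 : (u0, z0) ∈ Pub.H1graph Ω)
    {F F' : ℝ → L2 Ω Mat} (hF : ∀ T, 0 < T → IsH1 T F F')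
    (hc : ∃ h : L2 Ω R3, ∀ φ, Pub.IsTest Ω φ →
      Pub.rhs ν u0 z0 (F 0) φ = ∫ x in Ω, ⟪h.fn x, φ x⟫_ℝ) {ε : ℝ} (hε : 0 < ε) :
    ∃ (u u' : ℝ → L2 Ω R3) (G G' : ℝ → L2 Ω Mat) (lam : ℝ → ℝ) (g' : ℝ → L2 Ω Mat),
      u 0 = u0 ∧ (∀ t, 0 ≤ lam t) ∧ lam 0 = 0 ∧
      volume {t | 0 ≤ t ∧ lam t ≠ 0} ≤ ENNReal.ofReal ε ∧
      ∀ T, 0 < T → IsStrong Ω ν T (fun t => F t - lam t • G t) u u' G G' ∧
        ContinuousOn lam (Icc 0 T) ∧ IsH1 T (fun t => -(lam t • G t)) g' ∧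
        ∫ t in (0 : ℝ)..T, lam t ^ 5 * Real.log (Real.exp 1 + lam t) ≤ ε ∧
        ∫ t in (0 : ℝ)..T, ‖lam t • G t‖ ^ (5 / 3 : ℝ)
          * Real.log (Real.exp 1 + ‖lam t • G t‖) ^ (1 / 6 : ℝ) ≤ ε ∧
        ‖u T‖ ^ 2 / 2 + ∫ s in (0 : ℝ)..T, (ν + lam s) * ‖G s‖ ^ 2
          = ‖u 0‖ ^ 2 / 2 + ∫ s in (0 : ℝ)..T, ⟪F s, G s⟫_ℝ := by
  obtain ⟨g0, hg0⟩ := hc
  obtain ⟨u, u1, z, z1, g1, lam, a1, a2, a3, a4, a5⟩ := glob_mid (Ω := (Ω : Set E3)) (F := F)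
    (F' := F') (u0 := u0) (z0 := z0) hΩ hb hν (mem_pub.mpr h0) (fun T hT => (hF T hT).memLp)
      (fun a b ha hab => (hF (b + 1) (by linarith)).prim a b ha hab (by linarith))
      ⟨g0, fun φ hφ => hg0 φ ((isTest_iff φ).mpr hφ)⟩ hε
  refine ⟨u, u1, z, z1, lam, g1, a1, a2, a3, a4, fun T hT => ?_⟩
  obtain ⟨B, c1, c2⟩ := a5 T hT
  exact ⟨strong_of_bd (Ω := (Ω : Set E3)) hΩ B, B.lc, ⟨B.g1m, B.pg⟩, c1, c2,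
    B.energy T ⟨hT.le, le_rfl⟩⟩

end H772R2.NSG
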