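import Mathlib
import Pool.Agent.H772R2.NSG.FinalG

/-!
The generic well-posedness theorem in terms of the public definitions: the parameter spaces.
-/

set_option linter.unusedSectionVars false

open MeasureTheory Set Filter Topology Metric
open scoped InnerProductSpace NNReal ENNReal ContDiff

namespace H772R2.NSG

open H772R2.NS H772R2.NS.Pub H772R2.NSR

section par

variable {E : Type} [NormedAddCommGroup E] {T : ℝ} {p : ℝ≥0∞} [Fact (1 ≤ p)]

theorem LpT.memLp (f : LpT T p E) : MemLp f.fn p (volume.restrict (Ioc 0 T)) :=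
  Lp.memLp (show Lp E p ((volume : Measure ℝ).restrict (Ioc 0 T)) from f)

theorem LpT.eLpNorm_sub (f g : LpT T p E) :
    eLpNorm (f.fn - g.fn) p (volume.restrict (Ioc 0 T)) = ENNReal.ofReal (dist f g) := by
  have h1 : dist f g = (eLpNorm (f.fn - g.fn) p (volume.restrict (Ioc 0 T))).toReal :=
    Lp.dist_def (show Lp E p ((volume : Measure ℝ).restrict (Ioc 0 T)) from f) g
  rw [h1, ENNReal.ofReal_toReal]
  exact ((LpT.memLp f).sub (LpT.memLp g)).eLpNorm_ne_top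

theorem LpT.exists_fn {g : ℝ → E} (hg : MemLp g p (volume.restrict (Ioc 0 T))) :
    ∃ f : LpT T p E, f.fn =ᵐ[volume.restrict (Ioc 0 T)] g :=
  ⟨hg.toLp g, hg.coeFn_toLp⟩

theorem LpT.dist_le {f g : LpT T p E} {ε : ℝ} (hε : 0 < ε)
    (h : eLpNorm (f.fn - g.fn) p (volume.restrict (Ioc 0 T)) ≤ ENNReal.ofReal ε) :
    dist f g ≤ ε := by
  rw [LpT.eLpNorm_sub] at h
  exact (ENNReal.ofReal_le_ofReal_iff hε.le).mp h

end par

theorem par_pub {Ω : Set R3} {ν T : ℝ} {p : ℝ≥0∞} [Fact (1 ≤ p)] :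
    Par (graphW (Ω : Set E3)) ν T p (Pub.Visc ν T p) (Data Ω T) (fun n => n.fn)
      (fun d => (d.u0 : L2V (Ω : Set E3))) (fun d => (d.F : ℝ → L2M (Ω : Set E3))) where
  nmem x := LpT.memLp x.1
  nlow x := x.2
  ndist x y := (LpT.eLpNorm_sub x.1 y.1).le
  nreal n hn hlow := by
    obtain ⟨f, hf⟩ := LpT.exists_fn hn
    exact ⟨⟨f, by filter_upwards [hf, hlow] with s h1 h2; rw [h1]; exact h2⟩, hf⟩
  nclose x y ε hε h := LpT.dist_le hε h
  Fmem d := LpT.memLp d.2
  xdist d e := by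
    have h1 : dist d.1.1 e.1.1 ≤ dist d e := le_max_left _ _
    have h2 : dist d.1.1 e.1.1 = ‖d.1.1 - e.1.1‖ := dist_eq_norm _ _
    exact h2.symm.le.trans h1
  Fdist d e := by
    have h1 : dist d.2 e.2 ≤ dist d e := le_max_right _ _
    exact (LpT.eLpNorm_sub d.2 e.2).le.trans (ENNReal.ofReal_le_ofReal h1)
  dreal w hw F hF := by
    obtain ⟨f, hf⟩ := LpT.exists_fn (E := L2 Ω Mat) hF
    refine ⟨(⟨w.1, ?_⟩, f), rfl, hf⟩
    have := fst_mem_L2sigma hw
    rwa [← L2sigma_eq] at this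
  dclose d e ε hε h1 h2 := by
    have h2' : dist d.1.1 e.1.1 = ‖d.1.1 - e.1.1‖ := dist_eq_norm _ _
    have h3 : dist d.1.1 e.1.1 ≤ ε := h2'.le.trans h1
    have h4 : dist d.2 e.2 ≤ ε := LpT.dist_le hε h2
    exact max_le h3 h4
  ddense d ε hε := by
    have h1 : (d.u0 : L2V (Ω : Set E3)) ∈ NS.L2sigma (Ω : Set E3) := by
      rw [← L2sigma_eq]; exact d.1.2
    exact dense_fst h1 hε

end H772R2.NSG
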