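import Mathlib
import Pool.Agent.H772R2.NSG.ParG

/-!
The generic well-posedness theorem in terms of the public definitions.
-/

set_option linter.unusedSectionVars false

open MeasureTheory Set Filter Topology Metric
open scoped InnerProductSpace NNReal ENNReal ContDiff

namespace H772R2.NSG

open H772R2.NS H772R2.NS.Pub H772R2.NSR

variable {Ω : Set R3} {ν T : ℝ} {p : ℝ≥0∞} [Fact (1 ≤ p)]

theorem closed_visc {μ : Measure ℝ} [IsFiniteMeasure μ] (ν : ℝ) :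
    IsClosed {n : Lp ℝ p μ | ∀ᵐ t ∂μ, ν ≤ n t} := by
  have hc : MemLp (fun _ : ℝ => ν) p μ := memLp_const ν
  have h : {n : Lp ℝ p μ | ∀ᵐ t ∂μ, ν ≤ n t} = Set.Ici (hc.toLp _) := by
    ext n
    rw [Set.mem_Ici, ← Lp.coeFn_le]
    constructor
    · intro h
      filter_upwards [h, hc.coeFn_toLp] with t h1 h2
      rw [h2]; exact h1
    · intro h
      filter_upwards [h, hc.coeFn_toLp] with t h1 h2
      rw [h2] at h1; exact h1
  rw [h]
  exact isClosed_Ici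

instance complete_visc : CompleteSpace (Pub.Visc ν T p) :=
  (closed_visc (p := p) (μ := (volume : Measure ℝ).restrict (Ioc 0 T)) ν).completeSpace_coe

instance complete_R3 : CompleteSpace R3 :=
  (inferInstance : CompleteSpace (EuclideanSpace ℝ (Fin 3)))

instance complete_Mat : CompleteSpace Mat :=
  (inferInstance : CompleteSpace (EuclideanSpace ℝ (Fin 3 × Fin 3)))

instance complete_data : CompleteSpace (Data Ω T) := by
  have h1 : IsClosed (Pub.L2sigma Ω) := isClosed_closure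
  have h2 : CompleteSpace (L2 Ω R3) :=
    (inferInstance : CompleteSpace (Lp R3 2 ((volume : Measure R3).restrict Ω)))
  have h4 : CompleteSpace (L2 Ω Mat) :=
    (inferInstance : CompleteSpace (Lp Mat 2 ((volume : Measure R3).restrict Ω)))
  have h3 : CompleteSpace {v : L2 Ω R3 // v ∈ Pub.L2sigma Ω} := h1.completeSpace_coe
  have h5 : CompleteSpace (LpT T 2 (L2 Ω Mat)) :=
    (inferInstance : CompleteSpace (Lp (L2 Ω Mat) 2 ((volume : Measure ℝ).restrict (Ioc 0 T))))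
  exact (inferInstance : CompleteSpace ({v : L2 Ω R3 // v ∈ Pub.L2sigma Ω} ×
    LpT T 2 (L2 Ω Mat)))

/-- public solutions are abstract solutions. -/
theorem lh_of_pub {Ω : Set E3} (hΩ : IsOpen Ω) (hb : Bornology.IsBounded Ω) {n : ℝ → ℝ}
    {F : ℝ → L2M Ω} (Co : Coef ν T n F) {u0 : L2V Ω} {u : ℝ → L2V Ω} {G : ℝ → L2M Ω}
    (h : IsLH (show Set R3 from Ω) T n F u0 u G) : LH (graphW Ω) tensL T n F u0 u G := by
  refine lh_of_mid hΩ hb Co h.init h.meas ?_ h.gradL2 h.dissip ?_ h.energy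
  · filter_upwards [h.grad] with t ht
    exact mem_pub.mpr ht
  · intro φ hφ t ht
    exact h.eqn φ ((isTest_iff φ).mpr hφ) t ht

theorem pub_of_lh {Ω : Set E3} (hΩ : IsOpen Ω) {n : ℝ → ℝ}
    {F : ℝ → L2M Ω} {u0 : L2V Ω} {u : ℝ → L2V Ω} {G : ℝ → L2M Ω}
    (L : LH (graphW Ω) tensL T n F u0 u G)
    (hcl : ∀ t ∈ Icc 0 T, u t ∈ closure {x : L2V Ω | ∃ y, (x, y) ∈ graphW Ω})
    (hc : ContinuousOn u (Icc 0 T)) :
    IsLH (show Set R3 from Ω) T n F u0 u G where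
  init := L.init
  meas := L.meas
  sol t ht := by
    have := closure_fst_subset (hcl t ht)
    rwa [← L2sigma_eq] at this
  wcont v := by
    have h1 : ContinuousOn (fun t => ⟪u t, (v : L2V Ω)⟫_ℝ) (Icc 0 T) :=
      hc.inner continuousOn_const
    exact h1
  grad := by
    filter_upwards [L.mem] with t ht
    exact mem_pub.mp ht
  gradL2 := L.z2
  dissip := L.dis
  eqn φ hφ t ht := mid_of_lh hΩ L φ ((isTest_iff φ).mp hφ) t ht
  energy := L.energy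

theorem wellPosed_of_wp {Ω : Set E3} (hΩ : IsOpen Ω) (hb : Bornology.IsBounded Ω) (hT : 0 < T)
    (hp2 : 2 ≤ p) {n : Pub.Visc ν T p} {d : Data (show Set R3 from Ω) T}
    (h : WP (X := Pub.Visc ν T p) (D := Data (show Set R3 from Ω) T) (graphW Ω) tensL T
      (fun n => n.fn) (fun d => (d.u0 : L2V Ω)) (fun d => (d.F : ℝ → L2M Ω)) n d) :
    WellPosed n d := by
  obtain ⟨u, z, L, hcl, hc, hd, hs⟩ := h
  refine ⟨u, z, pub_of_lh hΩ L hcl hc, hc, ?_, ?_⟩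
  · intro t ht
    have h1 : dft n.fn (d.F : ℝ → L2M Ω) (d.u0 : L2V Ω) u z t = 0 := hd t ht
    have h2 : ‖(d.u0 : L2V Ω)‖ ^ 2 / 2 + (∫ s in (0 : ℝ)..t, ⟪(d.F s : L2M Ω), z s⟫_ℝ)
      - ‖u t‖ ^ 2 / 2 - (∫ s in (0 : ℝ)..t, n.fn s * ‖z s‖ ^ 2) = 0 := h1
    have h3 : ‖u t‖ ^ 2 / 2 + (∫ s in (0 : ℝ)..t, n.fn s * ‖z s‖ ^ 2)
      = ‖(d.u0 : L2V Ω)‖ ^ 2 / 2 + (∫ s in (0 : ℝ)..t, ⟪(d.F s : L2M Ω), z s⟫_ℝ) := by linarith
    exact h3
  · intro ε hε
    obtain ⟨δ, hδ, hs'⟩ := hs ε hε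
    refine ⟨δ, hδ, fun n' d' h1 h2 u' G' h3 => ?_⟩
    have Co : Coef ν T n'.fn (d'.F : ℝ → L2M Ω) :=
      (par_pub (Ω := (show Set R3 from Ω)) (ν := ν) (T := T) (p := p)).coef hp2 n' d'
    have L' := lh_of_pub hΩ hb Co (u0 := d'.u0) h3
    obtain ⟨k1, k2⟩ := hs' n' d' h1 h2 u' G' L'
    refine ⟨k1, ?_⟩
    refine le_trans (le_of_eq ?_) k2
    exact intervalIntegral.integral_of_le hT.le

theorem adm_of_pub {Ω : Set E3} (hΩ : IsOpen Ω) {d : Data (show Set R3 from Ω) T}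
    (h : IsAdmissible ν d) :
    Adm (D := Data (show Set R3 from Ω) T) (graphW Ω) tensL ν T
      (fun d => (d.u0 : L2V Ω)) (fun d => (d.F : ℝ → L2M Ω)) d := by
  obtain ⟨z0, F, F', a, g, h1, h2, h3, h4, h5⟩ := h
  have hm : MeasurableSet Ω := hΩ.measurableSet
  have h1' : ((d.u0 : L2V Ω), (z0 : L2M Ω)) ∈ graphW Ω := mem_pub.mpr h1
  refine ⟨z0, g, a, F, F', h1', h2, h3.memLp, h3.prim, h4, ?_⟩
  refine compat_ext ?_
  rintro q ⟨φ, k1, k2, k3⟩
  have e1 := pub_rhs hm a (F 0 : L2M Ω) h1' k3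
  have e2 := pub_inner (Ω := Ω) (g : L2V Ω) k2
  have e3 := h5 φ ((isTest_iff φ).mpr k1)
  exact e1.symm.trans (e3.trans e2)

theorem generic_pub {Ω : Set R3} (hΩ : IsOpen Ω) (hb : Bornology.IsBounded Ω) (hν : 0 < ν)
    (hT : 0 < T) (hp2 : 2 ≤ p) (hp5 : p ≤ 5) :
    {q : Pub.Visc ν T p × Data Ω T | WellPosed q.1 q.2} ∈ residual (Pub.Visc ν T p × Data Ω T) ∧
    Dense {q : Pub.Visc ν T p × Data Ω T | WellPosed q.1 q.2} ∧
    ∀ d : Data Ω T, IsAdmissible ν d →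
      {n : Pub.Visc ν T p | WellPosed n d} ∈ residual (Pub.Visc ν T p) ∧
      Dense {n : Pub.Visc ν T p | WellPosed n d} := by
  obtain ⟨C, Fr⟩ := exists_frame (Ω := (Ω : Set E3)) hΩ hb
  obtain ⟨h1, h2⟩ := generic Fr hν hT (rellich_W (Ω := (Ω : Set E3)) hΩ hb)
    (par_pub (Ω := Ω) (ν := ν) (T := T) (p := p)) hp2 hp5
  have k1 : {q : Pub.Visc ν T p × Data Ω T | WellPosed q.1 q.2}
      ∈ residual (Pub.Visc ν T p × Data Ω T) :=
    mem_of_superset h1 fun q hq => wellPosed_of_wp (Ω := (Ω : Set E3)) hΩ hb hT hp2 hq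
  refine ⟨k1, dense_of_mem_residual k1, fun d hd => ?_⟩
  have k2 : {n : Pub.Visc ν T p | WellPosed n d} ∈ residual (Pub.Visc ν T p) :=
    mem_of_superset (h2 d (adm_of_pub (Ω := (Ω : Set E3)) hΩ hd))
      fun n hn => wellPosed_of_wp (Ω := (Ω : Set E3)) hΩ hb hT hp2 hn
  exact ⟨k2, dense_of_mem_residual k2⟩

end H772R2.NSG
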